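import Mathlib
import Pool.Agent.T501Q.Core

/-! # The centred construction: definitions and tables (K = 12, n = 12 m + r) -/

set_option autoImplicit false

namespace Pool.Agent.T501Q.D

/-- entry of a list -/
def lk (l : List ℕ) (i : ℕ) : ℕ := l.getD i 0

/-- entry of a table (13 marks a foreign cell) -/
def ent (t : List (List ℕ)) (X Y : ℕ) : ℕ := (t.getD X []).getD Y 13

/-- row (resp. column) of the foreign cell of index `t` -/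
def R (t : ℕ) : ℕ := lk [6, 6, 6, 6, 12, 0, 0, 12, 6, 6, 6, 6] t

/-- the permutation linking columns and rows of the standard W board -/
def rho (t : ℕ) : ℕ := lk [2, 6, 8, 11, 1, 4, 9, 5, 0, 10, 3, 7] t

/-- inverse of `rho` -/
def rinv (t : ℕ) : ℕ := lk [8, 4, 0, 10, 5, 7, 1, 11, 2, 6, 9, 3] t

/-- position of index `t` in a class with 13 rows (resp. columns); it avoids 6 -/
def kap (t : ℕ) : ℕ := lk [0, 2, 3, 4, 7, 1, 5, 11, 8, 9, 10, 12] t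

/-- inverse of `kap` on `{0, ..., 12} \ {6}` -/
def kinv (y : ℕ) : ℕ := lk [0, 5, 1, 2, 3, 6, 12, 4, 8, 9, 10, 7, 11] y

/-- row of the foreign cell of column `y` in a class with 13 columns: `Rc (kap t) = R t` -/
def Rc (y : ℕ) : ℕ := lk [6, 0, 6, 6, 6, 0, 6, 12, 6, 6, 6, 12, 6] y

/-- number of rows of row class `a` -/
def sz (r a : ℕ) : ℕ := if a < r then 13 else 12

/-- row of the foreign cell in column `(Y, b)` -/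
def RF (r b Y : ℕ) : ℕ := if b < r then Rc Y else R Y

/-- position of index `t` in class `b` -/
def kk (r b t : ℕ) : ℕ := if b < r then kap t else t

/-- index of position `Y` in class `b` -/
def ki (r b Y : ℕ) : ℕ := if b < r then kinv Y else Y

/-- label of the board `(a, b)` -/
def lab (m a b : ℕ) : ZMod m := 2 * (b : ZMod m) - 4 * (a : ZMod m)

/-- the board `(a, b)` lies on the line `W_i` -/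
def onW (m : ℕ) (w : ℕ → ZMod m) (i a b : ℕ) : Prop := (a : ZMod m) - 2 * (b : ZMod m) = w i

/-- label of the row-foreign cells in the board `(i, b)` -/
def lF (m : ℕ) (w : ℕ → ZMod m) (i b : ℕ) : ZMod m := -6 * (b : ZMod m) - 4 * w i

/-- label of the column-foreign cells in the board `(a, j)` -/
def lG (m : ℕ) (w : ℕ → ZMod m) (j a : ℕ) : ZMod m := -3 * (a : ZMod m) - w j

/-- column class of the board of label `c` on the line `W_i` -/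
noncomputable def bI (m : ℕ) (w : ℕ → ZMod m) (i : ℕ) (c : ZMod m) : ℕ :=
  ((-(c + 4 * w i)) * (6 : ZMod m)⁻¹).val

/-- row class of the board of label `c` on the line `W_i` -/
noncomputable def aI (m : ℕ) (w : ℕ → ZMod m) (i : ℕ) (c : ZMod m) : ℕ :=
  ((-(c + w i)) * (3 : ZMod m)⁻¹).val

/-- the central hole -/
def isHole (r a b X Y : ℕ) : Prop := a < r ∧ b < r ∧ X = 6 ∧ Y = 6

/-- row-foreign cells -/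
def isF (m r : ℕ) (w : ℕ → ZMod m) (a b X Y : ℕ) : Prop :=
  a < r ∧ X = RF r b Y ∧ ¬ onW m w a a b ∧ ¬ isHole r a b X Y

/-- column-foreign cells -/
def isG (m r : ℕ) (w : ℕ → ZMod m) (a b X Y : ℕ) : Prop :=
  b < r ∧ Y = RF r a X ∧ ¬ onW m w b a b ∧ ¬ isHole r a b X Y

/-- regular cells -/
def isReg (m r : ℕ) (w : ℕ → ZMod m) (a b X Y : ℕ) : Prop :=
  ¬ isHole r a b X Y ∧ ¬ isF m r w a b X Y ∧ ¬ isG m r w a b X Y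

/-- `Rg` : a regular cell of the board `(a, b)`, in range -/
def Rg (m r : ℕ) (w : ℕ → ZMod m) (a b X Y : ℕ) : Prop :=
  X < sz r a ∧ Y < sz r b ∧ isReg m r w a b X Y

/-- what a colouring `H` of the board `(a, b)` has to satisfy; the names of the label are `0, ..., 11`, the value `12` means
the colour infinity of the line `W_i` through the board. `nu i c t` is the name of the row-foreign cell of index `t` of the group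
`F_i` of label `c`, which sits at `(m * R t + i, m * kk r (bI m w i c) t + bI m w i c)`; `xi i c t` is the name of the
column-foreign cell of index `t` of the group `G_i` of label `c`, at `(m * kk r (aI m w i c) t + aI m w i c, m * R t + i)`. -/
structure BoardOK (m r : ℕ) (w : ℕ → ZMod m) (nu xi : ℕ → ZMod m → ℕ → ℕ) (a b : ℕ)
    (H : ℕ → ℕ → ℕ) : Prop where
  le12 : ∀ X Y, Rg m r w a b X Y → H X Y ≤ 12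
  inf : ∀ X Y, Rg m r w a b X Y → H X Y = 12 → ∃ i, i < r ∧ onW m w i a b
  prop : ∀ X Y X' Y', Rg m r w a b X Y → Rg m r w a b X' Y' → H X Y = H X' Y' →
    Att X Y X' Y' → X = X' ∧ Y = Y'
  grpF : ∀ i t, i < r → t < 12 → ¬ onW m w i i (bI m w i (lab m a b)) →
    ∀ X Y, Rg m r w a b X Y → H X Y = nu i (lab m a b) t →
      ¬ Att (m * X + a) (m * Y + b) (m * R t + i)
        (m * kk r (bI m w i (lab m a b)) t + bI m w i (lab m a b))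
  grpG : ∀ j t, j < r → t < 12 → ¬ onW m w j (aI m w j (lab m a b)) j →
    ∀ X Y, Rg m r w a b X Y → H X Y = xi j (lab m a b) t →
      ¬ Att (m * X + a) (m * Y + b)
        (m * kk r (aI m w j (lab m a b)) t + aI m w j (lab m a b)) (m * R t + j)
  hol : ∀ i p q, i < r → p < r → q < r → onW m w i a b →
    ∀ X Y, Rg m r w a b X Y → H X Y = 12 →
      ¬ Att (m * X + a) (m * Y + b) (m * 6 + p) (m * 6 + q)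

/-- the seven kinds of lines -/
inductive Kind
  | rw | cl | w | dr | ar | dc | ac
  deriving DecidableEq

/-- first coefficient of a line -/
def kp : Kind → ℤ
  | .rw => 1 | .cl => 0 | .w => 1 | .dr => 5 | .ar => 1 | .dc => 1 | .ac => 1

/-- second coefficient of a line -/
def kq : Kind → ℤ
  | .rw => 0 | .cl => 1 | .w => -2 | .dr => -4 | .ar => 4 | .dc => 1 | .ac => -5

/-- offset of a line -/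
def ky : Kind → ℤ
  | .rw => 0 | .cl => 0 | .w => 1 | .dr => 2 | .ar => -2 | .dc => 1 | .ac => 1

/-- coefficient of `c + 2 i` in `36 (a - b)` -/
def kX : Kind → ℤ
  | .rw => -18 | .cl => -9 | .w => -6 | .dr => 6 | .ar => -10 | .dc => -12 | .ac => -8

/-- coefficient of `- U i` in `36 (a - b)` -/
def kY : Kind → ℤ
  | .rw => 0 | .cl => 0 | .w => 12 | .dr => 24 | .ar => 8 | .dc => -12 | .ac => 4

/-- the board `(a, b)` lies on the line of kind `κ` and index `i` -/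
def ln (m : ℕ) (U : ℕ → ℕ) (κ : Kind) (i a b : ℕ) : Prop :=
  ((kp κ : ℤ) : ZMod m) * ((a : ZMod m) - (i : ZMod m)) +
    ((kq κ : ℤ) : ZMod m) * ((b : ZMod m) - (i : ZMod m)) = -((ky κ : ℤ) : ZMod m) * (U i : ZMod m)

/-- the offsets of the lines `W_i` -/
def wU (m : ℕ) (U : ℕ → ℕ) (i : ℕ) : ZMod m := -(i : ZMod m) - (U i : ZMod m)

/-- generic position of the numbers `U 0, ..., U (r-1)` -/
structure Gen (m r : ℕ) (U : ℕ → ℕ) : Prop where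
  cop : Nat.Coprime m 210
  hm : 10000 * (r + 1) ≤ m
  big : ∀ i, i < r → 10000 * (r + 1) ≤ U i
  dvd : ∀ i, i < r → 210 ∣ U i
  lt : ∀ i, i < r → 10000 * U i ≤ m
  gen : ∀ (α : Fin 4 → ℤ) (j : Fin 4 → ℕ) (s : ℤ), (∀ l, j l < r) → (∀ l, |α l| ≤ 1000) →
    |s| ≤ 10000 * ((r : ℤ) + 1) → (∑ l, α l * (U (j l) : ℤ)) + s = 0 →
      (∀ k, (∑ l, if j l = k then α l else 0) = 0) ∧ s = 0

/-- plain 12 x 12 board -/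
def tPL : List (List ℕ) := [
   [0, 8, 11, 4, 6, 3, 2, 7, 5, 10, 9, 1],
   [7, 9, 0, 10, 2, 4, 5, 3, 11, 1, 8, 6],
   [4, 2, 7, 9, 1, 10, 11, 0, 8, 6, 3, 5],
   [3, 1, 6, 5, 11, 9, 8, 10, 4, 7, 0, 2],
   [11, 5, 3, 1, 8, 7, 6, 9, 0, 2, 4, 10],
   [10, 6, 8, 0, 5, 2, 3, 4, 1, 9, 7, 11],
   [8, 4, 10, 2, 7, 0, 1, 6, 3, 11, 5, 9],
   [9, 7, 1, 3, 10, 5, 4, 11, 2, 0, 6, 8],
   [1, 3, 4, 7, 9, 11, 10, 8, 6, 5, 2, 0],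
   [6, 0, 5, 11, 3, 8, 9, 2, 10, 4, 1, 7],
   [5, 11, 2, 8, 0, 6, 7, 1, 9, 3, 10, 4],
   [2, 10, 9, 6, 4, 1, 0, 5, 7, 8, 11, 3]]

/-- W board: name t misses column t and row rho t; 12 avoids both main diagonals -/
def tW : List (List ℕ) := [
   [1, 2, 10, 9, 0, 6, 11, 3, 12, 7, 4, 5],
   [7, 8, 0, 11, 12, 1, 5, 2, 6, 3, 9, 10],
   [12, 6, 4, 8, 5, 7, 10, 1, 9, 2, 11, 3],
   [2, 7, 5, 6, 9, 3, 0, 8, 11, 1, 12, 4],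
   [10, 3, 9, 2, 11, 12, 1, 6, 4, 8, 0, 7],
   [9, 4, 11, 1, 10, 0, 3, 12, 5, 6, 2, 8],
   [3, 12, 7, 4, 6, 8, 9, 11, 2, 10, 5, 0],
   [6, 9, 3, 5, 7, 2, 4, 10, 1, 0, 8, 12],
   [5, 11, 12, 10, 3, 9, 8, 0, 7, 4, 6, 1],
   [8, 10, 1, 0, 2, 11, 12, 4, 3, 5, 7, 9],
   [11, 0, 8, 7, 1, 4, 2, 5, 10, 12, 3, 6],
   [4, 5, 6, 12, 8, 10, 7, 9, 0, 11, 1, 2]]

/-- 13 x 12 board, name t misses row R t -/
def tNR : List (List ℕ) := [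
   [3, 4, 1, 11, 8, 13, 13, 9, 10, 0, 7, 2],
   [2, 11, 5, 9, 1, 7, 4, 0, 8, 6, 10, 3],
   [9, 10, 7, 2, 0, 6, 5, 1, 3, 4, 11, 8],
   [1, 5, 8, 4, 10, 3, 2, 11, 7, 9, 6, 0],
   [6, 7, 10, 0, 2, 9, 8, 3, 1, 11, 4, 5],
   [0, 8, 3, 7, 6, 10, 11, 5, 4, 2, 9, 1],
   [13, 13, 13, 13, 4, 5, 6, 7, 13, 13, 13, 13],
   [7, 6, 11, 1, 9, 2, 3, 8, 0, 10, 5, 4],
   [11, 3, 9, 6, 7, 0, 1, 4, 5, 8, 2, 10],
   [4, 2, 0, 8, 5, 11, 10, 6, 9, 1, 3, 7],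
   [5, 1, 4, 10, 3, 8, 9, 2, 11, 7, 0, 6],
   [8, 0, 2, 5, 11, 4, 7, 10, 6, 3, 1, 9],
   [10, 9, 6, 3, 13, 1, 0, 13, 2, 5, 8, 11]]

/-- 12 x 13 board, name rinv t misses column R t -/
def tNC : List (List ℕ) := [
   [10, 0, 6, 4, 1, 8, 13, 11, 3, 5, 7, 2, 9],
   [5, 3, 9, 7, 11, 2, 13, 1, 10, 0, 4, 8, 6],
   [4, 7, 11, 2, 9, 10, 13, 3, 6, 8, 5, 0, 1],
   [3, 6, 0, 5, 8, 11, 13, 4, 1, 2, 9, 7, 10],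
   [2, 4, 8, 9, 0, 1, 5, 6, 11, 7, 10, 3, 13],
   [13, 11, 1, 10, 6, 9, 7, 0, 8, 3, 2, 5, 4],
   [13, 5, 7, 0, 2, 3, 1, 10, 4, 9, 6, 11, 8],
   [6, 8, 4, 3, 10, 7, 11, 2, 5, 1, 0, 9, 13],
   [9, 2, 10, 11, 4, 5, 13, 8, 7, 6, 3, 1, 0],
   [8, 1, 5, 6, 3, 0, 13, 9, 2, 4, 11, 10, 7],
   [11, 9, 3, 1, 5, 6, 13, 7, 0, 10, 8, 4, 2],
   [0, 10, 2, 8, 7, 4, 13, 5, 9, 11, 1, 6, 3]]

/-- central 13 x 13 board: name t misses row R t and column R (rho t) -/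
def tPQ : List (List ℕ) := [
   [10, 13, 7, 9, 4, 13, 13, 0, 11, 1, 2, 3, 8],
   [13, 0, 10, 6, 5, 3, 1, 9, 4, 8, 11, 7, 2],
   [6, 3, 11, 0, 2, 8, 13, 10, 5, 7, 4, 9, 1],
   [4, 2, 8, 7, 11, 5, 13, 1, 9, 0, 6, 10, 3],
   [5, 6, 9, 4, 3, 7, 13, 2, 10, 11, 8, 1, 0],
   [13, 1, 2, 8, 0, 4, 5, 11, 3, 9, 7, 6, 10],
   [13, 7, 13, 13, 13, 6, 13, 4, 13, 13, 13, 5, 13],
   [9, 4, 5, 10, 8, 1, 7, 6, 2, 3, 0, 11, 13],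
   [2, 11, 3, 1, 9, 0, 13, 5, 8, 6, 10, 4, 7],
   [8, 9, 4, 2, 10, 11, 13, 7, 1, 5, 3, 0, 6],
   [11, 10, 6, 5, 7, 9, 13, 3, 0, 2, 1, 8, 4],
   [0, 5, 1, 3, 6, 10, 11, 8, 7, 4, 9, 2, 13],
   [3, 8, 0, 11, 1, 2, 13, 13, 6, 10, 5, 13, 9]]

/-- W board on a row class of 13 rows -/
def tWR : List (List ℕ) := [
   [9, 3, 7, 11, 6, 13, 13, 10, 12, 2, 1, 4],
   [2, 12, 0, 9, 10, 8, 11, 6, 4, 5, 3, 7],
   [11, 10, 4, 2, 0, 1, 3, 5, 7, 12, 6, 8],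
   [4, 8, 1, 7, 5, 10, 12, 0, 2, 3, 11, 9],
   [5, 6, 3, 4, 11, 7, 2, 8, 9, 1, 12, 0],
   [12, 2, 9, 1, 8, 6, 10, 11, 3, 4, 7, 5],
   [13, 13, 13, 13, 9, 0, 5, 4, 13, 13, 13, 13],
   [6, 5, 11, 12, 7, 4, 9, 2, 1, 8, 0, 10],
   [7, 9, 8, 6, 1, 12, 0, 3, 10, 11, 4, 2],
   [3, 4, 5, 10, 2, 11, 8, 12, 6, 0, 9, 1],
   [10, 11, 12, 0, 3, 9, 4, 1, 5, 7, 8, 6],
   [1, 0, 10, 8, 12, 2, 7, 9, 11, 6, 5, 3],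
   [8, 7, 6, 5, 13, 3, 1, 13, 0, 10, 2, 12]]

/-- W board on a column class of 13 columns -/
def tWC : List (List ℕ) := [
   [6, 0, 3, 5, 7, 12, 13, 1, 11, 10, 9, 4, 2],
   [10, 12, 9, 2, 1, 0, 13, 7, 6, 5, 3, 8, 11],
   [11, 8, 5, 4, 10, 6, 13, 3, 2, 7, 12, 9, 1],
   [3, 6, 0, 11, 5, 4, 13, 12, 1, 9, 8, 2, 7],
   [1, 9, 8, 7, 3, 2, 6, 11, 4, 0, 10, 12, 13],
   [13, 2, 4, 9, 11, 1, 8, 5, 12, 3, 6, 0, 10],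
   [13, 3, 10, 12, 0, 9, 7, 6, 8, 2, 5, 11, 4],
   [9, 1, 7, 8, 2, 3, 5, 0, 10, 12, 4, 6, 13],
   [12, 5, 11, 0, 6, 10, 13, 4, 9, 1, 7, 3, 8],
   [0, 7, 12, 10, 4, 5, 13, 2, 3, 8, 11, 1, 9],
   [4, 10, 1, 3, 12, 11, 13, 8, 5, 6, 2, 7, 0],
   [5, 11, 2, 6, 8, 7, 13, 9, 0, 4, 1, 10, 12]]

/-- own W board, 13 x 12 -/
def tP : List (List ℕ) := [
   [1, 9, 4, 5, 3, 10, 6, 7, 12, 11, 0, 2],
   [12, 11, 0, 2, 8, 1, 9, 4, 5, 3, 10, 6],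
   [5, 3, 10, 6, 7, 12, 11, 0, 2, 8, 1, 9],
   [2, 8, 1, 9, 4, 5, 3, 10, 6, 7, 12, 11],
   [6, 7, 12, 11, 0, 2, 8, 1, 9, 4, 5, 3],
   [9, 4, 5, 3, 10, 6, 7, 12, 11, 0, 2, 8],
   [11, 0, 2, 8, 1, 9, 4, 5, 3, 10, 6, 7],
   [3, 10, 6, 7, 12, 11, 0, 2, 8, 1, 9, 4],
   [8, 1, 9, 4, 5, 3, 10, 6, 7, 12, 11, 0],
   [7, 12, 11, 0, 2, 8, 1, 9, 4, 5, 3, 10],
   [4, 5, 3, 10, 6, 7, 12, 11, 0, 2, 8, 1],
   [0, 2, 8, 1, 9, 4, 5, 3, 10, 6, 7, 12],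
   [10, 6, 7, 12, 11, 0, 2, 8, 1, 9, 4, 5]]

/-- own W board, 12 x 13 -/
def tQ : List (List ℕ) := [
   [6, 12, 4, 8, 9, 10, 7, 11, 0, 5, 1, 2, 3],
   [10, 7, 11, 0, 5, 1, 2, 3, 6, 12, 4, 8, 9],
   [1, 2, 3, 6, 12, 4, 8, 9, 10, 7, 11, 0, 5],
   [4, 8, 9, 10, 7, 11, 0, 5, 1, 2, 3, 6, 12],
   [11, 0, 5, 1, 2, 3, 6, 12, 4, 8, 9, 10, 7],
   [3, 6, 12, 4, 8, 9, 10, 7, 11, 0, 5, 1, 2],
   [9, 10, 7, 11, 0, 5, 1, 2, 3, 6, 12, 4, 8],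
   [5, 1, 2, 3, 6, 12, 4, 8, 9, 10, 7, 11, 0],
   [12, 4, 8, 9, 10, 7, 11, 0, 5, 1, 2, 3, 6],
   [7, 11, 0, 5, 1, 2, 3, 6, 12, 4, 8, 9, 10],
   [2, 3, 6, 12, 4, 8, 9, 10, 7, 11, 0, 5, 1],
   [8, 9, 10, 7, 11, 0, 5, 1, 2, 3, 6, 12, 4]]

/-- table NR_DR -/
def tNRdr : List (List ℕ) := [
   [2, 7, 0, 8, 3, 13, 13, 10, 11, 9, 4, 1],
   [1, 8, 5, 10, 0, 4, 7, 9, 3, 6, 11, 2],
   [10, 11, 4, 1, 9, 6, 5, 0, 2, 7, 8, 3],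
   [0, 5, 3, 7, 11, 2, 1, 8, 4, 10, 6, 9],
   [6, 4, 11, 9, 1, 10, 3, 2, 0, 8, 7, 5],
   [9, 3, 2, 4, 6, 11, 8, 5, 7, 1, 10, 0],
   [13, 13, 13, 13, 7, 5, 6, 4, 13, 13, 13, 13],
   [4, 6, 8, 0, 10, 1, 2, 3, 9, 11, 5, 7],
   [8, 2, 10, 6, 4, 9, 0, 7, 5, 3, 1, 11],
   [7, 1, 9, 3, 5, 8, 11, 6, 10, 0, 2, 4],
   [5, 0, 7, 11, 2, 3, 10, 1, 8, 4, 9, 6],
   [3, 9, 1, 5, 8, 7, 4, 11, 6, 2, 0, 10],
   [11, 10, 6, 2, 13, 0, 9, 13, 1, 5, 3, 8]]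

/-- table NR_AR -/
def tNRar : List (List ℕ) := [
   [0, 7, 2, 11, 1, 13, 13, 8, 3, 10, 4, 9],
   [9, 11, 5, 8, 2, 4, 7, 10, 1, 6, 3, 0],
   [8, 3, 4, 9, 10, 6, 5, 2, 0, 7, 11, 1],
   [2, 5, 1, 7, 3, 0, 9, 11, 4, 8, 6, 10],
   [6, 4, 3, 10, 9, 8, 1, 0, 2, 11, 7, 5],
   [10, 1, 0, 4, 6, 3, 11, 5, 7, 9, 8, 2],
   [13, 13, 13, 13, 7, 5, 6, 4, 13, 13, 13, 13],
   [4, 6, 11, 2, 8, 9, 0, 1, 10, 3, 5, 7],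
   [11, 0, 8, 6, 4, 10, 2, 7, 5, 1, 9, 3],
   [7, 9, 10, 1, 5, 11, 3, 6, 8, 2, 0, 4],
   [5, 2, 7, 3, 0, 1, 8, 9, 11, 4, 10, 6],
   [1, 10, 9, 5, 11, 7, 4, 3, 6, 0, 2, 8],
   [3, 8, 6, 0, 13, 2, 10, 13, 9, 5, 1, 11]]

/-- table NR_DC -/
def tNRdc : List (List ℕ) := [
   [2, 8, 3, 1, 7, 13, 13, 4, 11, 9, 0, 10],
   [7, 11, 6, 9, 10, 8, 0, 2, 3, 5, 1, 4],
   [10, 3, 0, 4, 5, 11, 1, 6, 7, 8, 9, 2],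
   [4, 1, 8, 3, 2, 6, 5, 10, 9, 0, 11, 7],
   [5, 9, 11, 10, 4, 0, 8, 7, 2, 1, 3, 6],
   [0, 2, 5, 7, 1, 9, 3, 11, 4, 6, 10, 8],
   [13, 13, 13, 13, 6, 4, 7, 5, 13, 13, 13, 13],
   [6, 10, 4, 11, 0, 3, 9, 8, 1, 7, 2, 5],
   [9, 7, 1, 6, 8, 10, 2, 0, 5, 11, 4, 3],
   [8, 4, 2, 5, 3, 1, 11, 9, 6, 10, 7, 0],
   [3, 5, 10, 8, 11, 7, 4, 1, 0, 2, 6, 9],
   [11, 6, 7, 0, 9, 2, 10, 3, 8, 4, 5, 1],
   [1, 0, 9, 2, 13, 5, 6, 13, 10, 3, 8, 11]]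

/-- table NR_AC -/
def tNRac : List (List ℕ) := [
   [8, 9, 11, 0, 4, 13, 13, 7, 2, 3, 10, 1],
   [4, 10, 3, 6, 8, 2, 0, 1, 5, 11, 9, 7],
   [1, 2, 7, 5, 10, 3, 11, 9, 6, 4, 0, 8],
   [10, 0, 1, 4, 11, 5, 6, 3, 7, 8, 2, 9],
   [2, 11, 6, 8, 9, 7, 4, 10, 1, 5, 3, 0],
   [9, 7, 5, 3, 0, 1, 8, 2, 11, 6, 4, 10],
   [13, 13, 13, 13, 7, 6, 5, 4, 13, 13, 13, 13],
   [6, 8, 4, 9, 2, 11, 3, 0, 10, 7, 1, 5],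
   [7, 1, 2, 11, 6, 9, 10, 5, 3, 0, 8, 4],
   [11, 5, 0, 10, 1, 4, 7, 8, 9, 2, 6, 3],
   [0, 3, 9, 7, 5, 8, 1, 6, 4, 10, 11, 2],
   [5, 4, 10, 1, 3, 0, 2, 11, 8, 9, 7, 6],
   [3, 6, 8, 2, 13, 10, 9, 13, 0, 1, 5, 11]]

/-- table NC_DR -/
def tNCdr : List (List ℕ) := [
   [8, 11, 0, 10, 5, 1, 13, 9, 7, 4, 2, 3, 6],
   [5, 10, 2, 3, 7, 11, 13, 6, 8, 9, 1, 0, 4],
   [4, 9, 1, 0, 2, 6, 13, 5, 3, 11, 8, 10, 7],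
   [3, 7, 8, 6, 4, 9, 13, 10, 0, 1, 5, 11, 2],
   [9, 6, 5, 11, 0, 3, 1, 2, 4, 8, 10, 7, 13],
   [13, 3, 10, 1, 6, 4, 5, 7, 11, 2, 9, 8, 0],
   [13, 2, 4, 7, 8, 10, 11, 1, 5, 3, 0, 6, 9],
   [0, 8, 11, 5, 9, 2, 7, 3, 10, 6, 4, 1, 13],
   [2, 1, 6, 8, 10, 0, 13, 4, 9, 7, 11, 5, 3],
   [10, 0, 7, 9, 3, 8, 13, 11, 2, 5, 6, 4, 1],
   [11, 4, 3, 2, 1, 5, 13, 8, 6, 0, 7, 9, 10],
   [6, 5, 9, 4, 11, 7, 13, 0, 1, 10, 3, 2, 8]]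

/-- table NC_AR -/
def tNCar : List (List ℕ) := [
   [6, 5, 2, 11, 8, 7, 13, 4, 0, 10, 3, 9, 1],
   [9, 8, 6, 4, 0, 10, 13, 7, 5, 11, 1, 2, 3],
   [0, 1, 3, 10, 7, 9, 13, 11, 8, 2, 4, 5, 6],
   [10, 2, 11, 1, 3, 5, 13, 6, 4, 9, 8, 7, 0],
   [5, 9, 4, 2, 11, 8, 1, 3, 7, 6, 0, 10, 13],
   [13, 3, 7, 8, 4, 2, 11, 0, 10, 1, 5, 6, 9],
   [13, 10, 1, 6, 9, 0, 5, 2, 3, 7, 11, 8, 4],
   [11, 4, 9, 0, 5, 6, 7, 10, 1, 8, 2, 3, 13],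
   [3, 0, 5, 7, 10, 11, 13, 8, 9, 4, 6, 1, 2],
   [2, 7, 10, 3, 1, 4, 13, 5, 6, 0, 9, 11, 8],
   [4, 6, 8, 9, 2, 3, 13, 1, 11, 5, 7, 0, 10],
   [8, 11, 0, 5, 6, 1, 13, 9, 2, 3, 10, 4, 7]]

/-- table NC_DC -/
def tNCdc : List (List ℕ) := [
   [0, 4, 9, 8, 1, 6, 13, 5, 2, 11, 7, 10, 3],
   [11, 2, 3, 7, 5, 10, 13, 1, 0, 4, 8, 6, 9],
   [8, 7, 5, 10, 3, 0, 13, 2, 9, 6, 11, 4, 1],
   [2, 9, 4, 11, 6, 5, 13, 8, 1, 10, 3, 7, 0],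
   [10, 8, 6, 3, 4, 1, 11, 9, 5, 7, 0, 2, 13],
   [13, 5, 1, 0, 9, 3, 7, 4, 6, 2, 10, 11, 8],
   [13, 11, 7, 4, 10, 2, 1, 0, 8, 3, 9, 5, 6],
   [9, 6, 8, 2, 0, 7, 5, 10, 11, 1, 4, 3, 13],
   [3, 10, 0, 5, 8, 11, 13, 6, 7, 9, 2, 1, 4],
   [6, 1, 11, 9, 2, 4, 13, 3, 10, 8, 5, 0, 7],
   [5, 3, 2, 1, 11, 9, 13, 7, 4, 0, 6, 8, 10],
   [4, 0, 10, 6, 7, 8, 13, 11, 3, 5, 1, 9, 2]]

/-- table NC_AC -/
def tNCac : List (List ℕ) := [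
   [8, 6, 2, 0, 1, 9, 13, 5, 3, 11, 7, 4, 10],
   [11, 3, 10, 7, 5, 4, 13, 1, 8, 6, 0, 9, 2],
   [0, 7, 5, 4, 10, 8, 13, 3, 2, 9, 11, 6, 1],
   [3, 2, 6, 11, 9, 5, 13, 0, 1, 4, 10, 7, 8],
   [4, 0, 9, 10, 6, 1, 11, 2, 5, 7, 8, 3, 13],
   [13, 5, 1, 8, 2, 10, 7, 6, 9, 3, 4, 11, 0],
   [13, 11, 7, 6, 4, 3, 1, 8, 0, 10, 2, 5, 9],
   [2, 9, 0, 3, 8, 7, 5, 4, 11, 1, 6, 10, 13],
   [10, 4, 8, 5, 0, 11, 13, 9, 7, 2, 3, 1, 6],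
   [9, 1, 11, 2, 3, 6, 13, 10, 4, 0, 5, 8, 7],
   [5, 10, 3, 1, 11, 2, 13, 7, 6, 8, 9, 0, 4],
   [6, 8, 4, 9, 7, 0, 13, 11, 10, 5, 1, 2, 3]]

/-- table L1 -/
def tL1 : List (List ℕ) := [
   [11, 1, 0, 6, 9, 2, 7, 3, 8, 10, 5, 4],
   [10, 5, 11, 7, 3, 8, 6, 9, 2, 4, 1, 0],
   [6, 3, 4, 5, 2, 10, 0, 7, 1, 11, 9, 8],
   [4, 0, 1, 3, 7, 6, 8, 2, 9, 5, 10, 11],
   [8, 7, 10, 9, 1, 4, 11, 5, 3, 0, 2, 6],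
   [0, 11, 8, 2, 5, 9, 3, 1, 7, 6, 4, 10],
   [9, 2, 5, 11, 8, 0, 10, 6, 4, 1, 7, 3],
   [5, 4, 3, 0, 6, 7, 2, 8, 10, 9, 11, 1],
   [7, 9, 6, 10, 4, 1, 5, 11, 0, 8, 3, 2],
   [1, 10, 7, 8, 11, 3, 9, 4, 6, 2, 0, 5],
   [3, 8, 2, 4, 10, 5, 1, 0, 11, 7, 6, 9],
   [2, 6, 9, 1, 0, 11, 4, 10, 5, 3, 8, 7]]

/-- table L2 -/
def tL2 : List (List ℕ) := [
   [9, 11, 1, 7, 8, 5, 2, 3, 6, 4, 10, 0],
   [10, 4, 0, 2, 3, 6, 7, 8, 5, 9, 1, 11],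
   [5, 1, 3, 6, 0, 11, 10, 9, 7, 8, 4, 2],
   [6, 9, 8, 10, 2, 4, 1, 5, 11, 3, 0, 7],
   [11, 0, 4, 5, 7, 3, 8, 6, 2, 1, 9, 10],
   [4, 3, 9, 11, 6, 2, 5, 7, 10, 0, 8, 1],
   [7, 10, 2, 8, 1, 9, 0, 4, 3, 5, 11, 6],
   [8, 5, 7, 0, 4, 10, 11, 1, 9, 6, 2, 3],
   [1, 2, 11, 3, 9, 7, 6, 0, 8, 10, 5, 4],
   [0, 6, 10, 1, 5, 8, 3, 2, 4, 11, 7, 9],
   [3, 7, 5, 9, 10, 1, 4, 11, 0, 2, 6, 8],
   [2, 8, 6, 4, 11, 0, 9, 10, 1, 7, 3, 5]]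

/-- table L3 -/
def tL3 : List (List ℕ) := [
   [6, 11, 7, 5, 2, 10, 1, 0, 8, 4, 3, 9],
   [0, 3, 6, 4, 1, 5, 8, 10, 7, 9, 11, 2],
   [5, 1, 0, 3, 9, 4, 7, 6, 11, 2, 10, 8],
   [10, 9, 2, 8, 7, 3, 11, 4, 5, 0, 6, 1],
   [7, 8, 10, 9, 11, 0, 2, 3, 6, 1, 5, 4],
   [4, 2, 11, 6, 8, 1, 10, 5, 9, 3, 0, 7],
   [11, 5, 4, 1, 0, 6, 9, 2, 10, 7, 8, 3],
   [3, 0, 9, 10, 4, 8, 5, 7, 1, 6, 2, 11],
   [9, 10, 5, 0, 3, 7, 4, 11, 2, 8, 1, 6],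
   [2, 6, 8, 7, 10, 11, 3, 1, 4, 5, 9, 0],
   [8, 7, 1, 11, 6, 2, 0, 9, 3, 10, 4, 5],
   [1, 4, 3, 2, 5, 9, 6, 8, 0, 11, 7, 10]]

/-- table L4 -/
def tL4 : List (List ℕ) := [
   [1, 4, 10, 2, 8, 0, 7, 5, 3, 9, 11, 6],
   [0, 3, 9, 4, 1, 5, 8, 6, 11, 10, 2, 7],
   [5, 6, 0, 11, 3, 9, 10, 2, 4, 7, 1, 8],
   [8, 11, 2, 10, 6, 7, 0, 1, 9, 3, 4, 5],
   [7, 10, 4, 3, 5, 1, 6, 8, 2, 11, 9, 0],
   [6, 2, 11, 9, 7, 8, 5, 0, 10, 4, 3, 1],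
   [9, 7, 8, 6, 2, 11, 4, 3, 1, 5, 0, 10],
   [2, 1, 5, 0, 4, 10, 9, 11, 7, 8, 6, 3],
   [11, 8, 7, 1, 9, 2, 3, 10, 6, 0, 5, 4],
   [4, 9, 3, 8, 0, 6, 1, 7, 5, 2, 10, 11],
   [3, 0, 6, 5, 10, 4, 11, 9, 8, 1, 7, 2],
   [10, 5, 1, 7, 11, 3, 2, 4, 0, 6, 8, 9]]

/-- naming table -/
def pWR (t : ℕ) : ℕ := lk [1, 2, 3, 6, 4, 0, 5, 9, 7, 8, 10, 11] t

/-- naming table -/
def xWR (t : ℕ) : ℕ := lk [8, 9, 6, 10, 3, 1, 0, 4, 5, 7, 2, 11] t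

/-- naming table -/
def nWC (t : ℕ) : ℕ := lk [2, 6, 1, 9, 10, 4, 8, 5, 7, 11, 0, 3] t

/-- naming table: `pWC (rinv t)` is the name missing column `R t` in the WC board -/
def pWC (t : ℕ) : ℕ := lk [10, 7, 11, 3, 0, 5, 2, 8, 4, 9, 1, 6] t

/-- `Ml κ σ t` : the class of the plain board that avoids the diagonal index `J κ σ t` (`σ = 2`: central case) -/
def Ml : Kind → ℕ → List ℕ
  | .dr, 0 => [10, 9, 2, 6, 4, 8, 0, 11, 5, 7, 3, 1]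
  | .dr, 1 => [9, 4, 0, 11, 7, 10, 8, 2, 5, 3, 6, 1]
  | .dr, _ => [3, 1, 4, 11, 5, 10, 6, 9, 8, 7, 2, 0]
  | .ar, 0 => [11, 2, 6, 9, 8, 0, 10, 5, 7, 1, 4, 3]
  | .ar, 1 => [1, 11, 0, 2, 5, 9, 4, 6, 10, 7, 3, 8]
  | .ar, _ => [8, 6, 4, 9, 11, 1, 5, 0, 10, 7, 3, 2]
  | .dc, 0 => [9, 8, 7, 3, 0, 11, 2, 10, 6, 4, 1, 5]
  | .dc, 1 => [11, 7, 3, 8, 9, 6, 10, 1, 0, 4, 2, 5]
  | .dc, _ => [1, 3, 7, 8, 6, 9, 5, 10, 11, 4, 0, 2]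
  | .ac, 0 => [0, 6, 2, 4, 9, 1, 7, 8, 5, 3, 10, 11]
  | .ac, 1 => [11, 9, 2, 6, 1, 4, 8, 3, 7, 5, 0, 10]
  | .ac, _ => [8, 6, 4, 9, 11, 1, 5, 0, 10, 7, 3, 2]
  | _, _ => []

/-- inverse of `Ml` -/
def MIl : Kind → ℕ → List ℕ
  | .dr, 0 => [6, 11, 2, 10, 4, 8, 3, 9, 5, 1, 0, 7]
  | .dr, 1 => [2, 11, 7, 9, 1, 8, 10, 4, 6, 0, 5, 3]
  | .dr, _ => [11, 1, 10, 0, 2, 4, 6, 9, 8, 7, 5, 3]
  | .ar, 0 => [5, 9, 1, 11, 10, 7, 2, 8, 4, 3, 6, 0]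
  | .ar, 1 => [2, 0, 3, 10, 6, 4, 7, 9, 11, 5, 8, 1]
  | .ar, _ => [7, 5, 11, 10, 2, 6, 1, 9, 0, 3, 8, 4]
  | .dc, 0 => [4, 10, 6, 3, 9, 11, 8, 2, 1, 0, 7, 5]
  | .dc, 1 => [8, 7, 10, 2, 9, 11, 5, 1, 3, 4, 6, 0]
  | .dc, _ => [10, 0, 11, 1, 9, 6, 4, 2, 3, 5, 7, 8]
  | .ac, 0 => [0, 5, 2, 9, 3, 8, 1, 6, 7, 4, 10, 11]
  | .ac, 1 => [10, 4, 2, 7, 5, 9, 3, 8, 6, 1, 11, 0]
  | .ac, _ => [7, 5, 11, 10, 2, 6, 1, 9, 0, 3, 8, 4]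
  | _, _ => []

/-- the same for the W board -/
def MWl : Kind → ℕ → List ℕ
  | .dr, 0 => [11, 0, 1, 10, 9, 4, 5, 6, 8, 2, 7, 3]
  | .dr, _ => [11, 8, 10, 0, 9, 5, 1, 6, 2, 7, 4, 3]
  | .ar, 0 => [0, 10, 6, 2, 11, 4, 7, 8, 5, 9, 3, 1]
  | .ar, _ => [11, 7, 8, 4, 6, 3, 2, 0, 10, 9, 5, 1]
  | .dc, 0 => [4, 10, 11, 2, 6, 5, 7, 9, 3, 8, 1, 0]
  | .dc, _ => [4, 7, 11, 8, 0, 5, 9, 3, 10, 6, 1, 2]
  | .ac, 0 => [0, 10, 6, 2, 11, 4, 7, 8, 5, 9, 3, 1]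
  | .ac, _ => [11, 7, 8, 4, 6, 3, 2, 0, 10, 9, 5, 1]
  | _, _ => []

/-- class table -/
def Mt (κ : Kind) (σ t : ℕ) : ℕ := lk (Ml κ σ) t

/-- inverse class table -/
def MIt (κ : Kind) (σ t : ℕ) : ℕ := lk (MIl κ σ) t

/-- class table of the W board -/
def MWt (κ : Kind) (σ t : ℕ) : ℕ := lk (MWl κ σ) t

/-- diagonal index of a cell -/
def Ix : Kind → ℕ → ℕ → ℤ
  | .dr, X, Y => (X : ℤ) - Y
  | .dc, X, Y => (X : ℤ) - Y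
  | _, X, Y => (X : ℤ) + Y

/-- forbidden diagonal index for the name of index `t`; `σ = 2` is the central case -/
def J : Kind → ℕ → ℕ → ℤ
  | .dr, σ, t => if σ = 2 then (R t : ℤ) - kap t else (R t : ℤ) - t - σ
  | .ar, σ, t => if σ = 2 then (R t : ℤ) + kap t - 1 else (R t : ℤ) + t - σ
  | .dc, σ, t => if σ = 2 then (kap t : ℤ) - R t else (t : ℤ) - R t + σ
  | .ac, σ, t => if σ = 2 then (kap t : ℤ) + R t - 1 else (t : ℤ) + R t - σ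
  | _, _, _ => 0

/-- the four diagonal kinds -/
def isD : Kind → Prop
  | .dr => True | .ar => True | .dc => True | .ac => True | _ => False

/-- kinds whose group is row-foreign -/
def isFk : Kind → Prop
  | .dr => True | .ar => True | _ => False

instance : DecidablePred isD := fun κ => by cases κ <;> unfold isD <;> infer_instance
instance : DecidablePred isFk := fun κ => by cases κ <;> unfold isFk <;> infer_instance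

/-- sign of the shift -/
def sg : Kind → ℤ
  | .dc => 1 | _ => -1

/-- offset of the board `(a, b)` -/
def bofs : Kind → ℕ → ℕ → ℤ
  | .dr, a, b => (a : ℤ) - b
  | .dc, a, b => (a : ℤ) - b
  | _, a, b => (a : ℤ) + b

/-- offset of the group of index `i` and label `c` -/
noncomputable def gofs (m : ℕ) (U : ℕ → ℕ) : Kind → ℕ → ZMod m → ℤ
  | .dr, i, c => (i : ℤ) - bI m (wU m U) i c
  | .ar, i, c => (i : ℤ) + bI m (wU m U) i c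
  | .dc, i, c => (aI m (wU m U) i c : ℤ) - i
  | .ac, i, c => (aI m (wU m U) i c : ℤ) + i
  | _, _, _ => 0

/-- name of the class `n` of the plain board when the index `i` of kind `κ` and shift `σ` has the default naming -/
def nm (κ : Kind) (σ n : ℕ) : ℕ :=
  match κ with
  | .w => n
  | .dr => MIt .dr σ n
  | .ar => MIt .ar σ n
  | .dc => rinv (MIt .dc σ n)
  | .ac => rinv (MIt .ac σ n)
  | _ => n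

/-- class of the board (plain, or W if `κ1 = w`) given to the index `t` of kind `κ2` -/
def M2 (κ1 κ2 : Kind) (σ2 t : ℕ) : ℕ := if κ1 = .w then MWt κ2 σ2 t else Mt κ2 σ2 t

/-- the naming of the second index of a pair -/
def pVV (κ1 : Kind) (σ1 : ℕ) (κ2 : Kind) (σ2 t : ℕ) : ℕ :=
  if isFk κ2 then nm κ1 σ1 (M2 κ1 κ2 σ2 t) else nm κ1 σ1 (M2 κ1 κ2 σ2 (rho t))

/-- rank of a kind -/
def rk : Kind → ℕ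
  | .rw => 0 | .cl => 1 | .w => 2 | .dr => 3 | .ar => 4 | .dc => 5 | .ac => 6

/-- the shift of kind `κ`, index `i` at the board `(a, b)` is `σ` -/
def shOK (m : ℕ) (U : ℕ → ℕ) (κ : Kind) (σ i a b : ℕ) : Prop :=
  (κ = .w ∧ σ = 0) ∨
    (isD κ ∧ σ < 2 ∧ gofs m U κ i (lab m a b) - bofs κ a b = sg κ * σ * m)

/-- a pair of lines with different indices `i`, `j` of kinds in `w < dr < ar < dc < ac` through a board of label `c`; `π` is the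
naming of `j` -/
def secVV (m r : ℕ) (U : ℕ → ℕ) (j : ℕ) (c : ZMod m) (π : ℕ → ℕ) : Prop :=
  ∃ (i : ℕ) (κ1 κ2 : Kind) (σ1 σ2 a b : ℕ), i < r ∧ i ≠ j ∧ a < m ∧ b < m ∧ lab m a b = c ∧
    2 ≤ rk κ1 ∧ rk κ1 < rk κ2 ∧ ln m U κ1 i a b ∧ ln m U κ2 j a b ∧
    shOK m U κ1 σ1 i a b ∧ shOK m U κ2 σ2 j a b ∧ π = pVV κ1 σ1 κ2 σ2

/-- the row class `j` board of label `c` lies on some `W_i`, `i ≠ j` -/
def secWR (m r : ℕ) (U : ℕ → ℕ) (j : ℕ) (c : ZMod m) (π : ℕ → ℕ) : Prop :=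
  ∃ (i a b : ℕ), i < r ∧ i ≠ j ∧ a < m ∧ b < m ∧ lab m a b = c ∧ ln m U .rw j a b ∧
    ln m U .w i a b ∧ π = pWR

/-- the column class `j` board of label `c` lies on some `W_i`, `i ≠ j` -/
def secWC (m r : ℕ) (U : ℕ → ℕ) (j : ℕ) (c : ZMod m) (π : ℕ → ℕ) : Prop :=
  ∃ (i a b : ℕ), i < r ∧ i ≠ j ∧ a < m ∧ b < m ∧ lab m a b = c ∧ ln m U .cl j a b ∧
    ln m U .w i a b ∧ π = pWC

/-- the naming of index `j` at label `c` is changed to `π` -/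
def Sec (m r : ℕ) (U : ℕ → ℕ) (j : ℕ) (c : ZMod m) (π : ℕ → ℕ) : Prop :=
  secVV m r U j c π ∨ secWR m r U j c π ∨ secWC m r U j c π

open Classical in
/-- the naming permutation of index `j` at label `c` -/
noncomputable def pn (m r : ℕ) (U : ℕ → ℕ) (j : ℕ) (c : ZMod m) : ℕ → ℕ :=
  if h : ∃ π, Sec m r U j c π then Classical.choose h else id

/-- names of the row-foreign cells -/
noncomputable def nu (m r : ℕ) (U : ℕ → ℕ) (j : ℕ) (c : ZMod m) (t : ℕ) : ℕ :=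
  if bI m (wU m U) j c < r ∧ bI m (wU m U) j c ≠ j then nWC t else pn m r U j c t

/-- names of the column-foreign cells -/
noncomputable def xi (m r : ℕ) (U : ℕ → ℕ) (j : ℕ) (c : ZMod m) (t : ℕ) : ℕ :=
  if aI m (wU m U) j c < r ∧ aI m (wU m U) j c ≠ j then xWR t else pn m r U j c (rinv t)

end Pool.Agent.T501Q.D
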