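import Mathlib
import Pool.Agent.T501Q.D.Defs

/-! # The centred construction: further definitions -/

set_option autoImplicit false

namespace Pool.Agent.T501Q.D

/-- the condition that the line `κ_i` through the board `(a, b)` puts on the colouring `H` of this board -/
def Atom (m r : ℕ) (U : ℕ → ℕ) (a b : ℕ) (H : ℕ → ℕ → ℕ) (κ : Kind) (i : ℕ) : Prop :=
  match κ with
  | .rw => ¬ onW m (wU m U) i i (bI m (wU m U) i (lab m a b)) →
      ∀ t, t < 12 → ∀ X Y, Rg m r (wU m U) a b X Y → H X Y = nu m r U i (lab m a b) t → X ≠ R t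
  | .cl => ¬ onW m (wU m U) i (aI m (wU m U) i (lab m a b)) i →
      ∀ t, t < 12 → ∀ X Y, Rg m r (wU m U) a b X Y → H X Y = xi m r U i (lab m a b) t → Y ≠ R t
  | .w =>
      (¬ onW m (wU m U) i i (bI m (wU m U) i (lab m a b)) →
        ∀ t, t < 12 → ∀ X Y, Rg m r (wU m U) a b X Y → H X Y = nu m r U i (lab m a b) t →
          Y ≠ kk r b t) ∧
      (¬ onW m (wU m U) i (aI m (wU m U) i (lab m a b)) i →
        ∀ t, t < 12 → ∀ X Y, Rg m r (wU m U) a b X Y → H X Y = xi m r U i (lab m a b) t →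
          X ≠ kk r a t) ∧
      (∀ p q, p < r → q < r → ∀ X Y, Rg m r (wU m U) a b X Y → H X Y = 12 →
        ¬ Att (m * X + a) (m * Y + b) (m * 6 + p) (m * 6 + q))
  | .dr => ¬ onW m (wU m U) i i (bI m (wU m U) i (lab m a b)) →
      ∀ t, t < 12 → ∀ s : ℤ, gofs m U .dr i (lab m a b) - bofs .dr a b = s * m →
        ∀ X Y, Rg m r (wU m U) a b X Y → H X Y = nu m r U i (lab m a b) t →
          (X : ℤ) - Y ≠ (R t : ℤ) - kk r (bI m (wU m U) i (lab m a b)) t + s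
  | .ar => ¬ onW m (wU m U) i i (bI m (wU m U) i (lab m a b)) →
      ∀ t, t < 12 → ∀ s : ℤ, gofs m U .ar i (lab m a b) - bofs .ar a b = s * m →
        ∀ X Y, Rg m r (wU m U) a b X Y → H X Y = nu m r U i (lab m a b) t →
          (X : ℤ) + Y ≠ (R t : ℤ) + kk r (bI m (wU m U) i (lab m a b)) t + s
  | .dc => ¬ onW m (wU m U) i (aI m (wU m U) i (lab m a b)) i →
      ∀ t, t < 12 → ∀ s : ℤ, gofs m U .dc i (lab m a b) - bofs .dc a b = s * m →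
        ∀ X Y, Rg m r (wU m U) a b X Y → H X Y = xi m r U i (lab m a b) t →
          (X : ℤ) - Y ≠ (kk r (aI m (wU m U) i (lab m a b)) t : ℤ) - R t + s
  | .ac => ¬ onW m (wU m U) i (aI m (wU m U) i (lab m a b)) i →
      ∀ t, t < 12 → ∀ s : ℤ, gofs m U .ac i (lab m a b) - bofs .ac a b = s * m →
        ∀ X Y, Rg m r (wU m U) a b X Y → H X Y = xi m r U i (lab m a b) t →
          (X : ℤ) + Y ≠ (kk r (aI m (wU m U) i (lab m a b)) t : ℤ) + R t + s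

/-- a good board -/
def Good (m r : ℕ) (U : ℕ → ℕ) (a b : ℕ) : Prop :=
  ∃ H, BoardOK m r (wU m U) (nu m r U) (xi m r U) a b H

/-- the only lines through the board `(a, b)` are `κ1_i` and `κ2_j` -/
def Only2 (m r : ℕ) (U : ℕ → ℕ) (a b : ℕ) (κ1 : Kind) (i : ℕ) (κ2 : Kind) (j : ℕ) : Prop :=
  ∀ κ k, k < r → ln m U κ k a b → (κ = κ1 ∧ k = i) ∨ (κ = κ2 ∧ k = j)

/-- the pair `κ1_i1`, `κ2_i2` belongs to the P-cluster `v` -/
def Pc (κ1 κ2 : Kind) (i1 i2 v : ℕ) : Prop :=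
  i2 = v ∧ (κ2 = .w ∨ κ2 = .dr ∨ κ2 = .ar) ∧ (κ1 = .rw ∨ (i1 = v ∧ (κ1 = .w ∨ κ1 = .dr)))

/-- the pair `κ1_i1`, `κ2_i2` belongs to the Q-cluster `v` -/
def Qc (κ1 κ2 : Kind) (i1 i2 v : ℕ) : Prop :=
  i2 = v ∧ (κ2 = .w ∨ κ2 = .dc ∨ κ2 = .ac) ∧ (κ1 = .cl ∨ (i1 = v ∧ (κ1 = .w ∨ κ1 = .dc)))

/-- the exceptional coincidence of labels -/
def Ec (κ1 κ2 κ3 κ4 : Kind) : Prop :=
  (κ1 = .ar ∧ κ2 = .ac ∧ κ3 = .rw ∧ κ4 = .dc) ∨ (κ1 = .rw ∧ κ2 = .dc ∧ κ3 = .ar ∧ κ4 = .ac)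

/-- a table: entries at most `mx` or 13 (foreign), proper away from the foreign cells -/
def TabOK (T : List (List ℕ)) (sX sY mx : ℕ) : Prop :=
  (∀ X, X < sX → ∀ Y, Y < sY → ent T X Y ≠ 13 → ent T X Y ≤ mx) ∧
  (∀ X Y X' Y', X < sX → Y < sY → X' < sX → Y' < sY → ent T X Y ≠ 13 →
    ent T X Y = ent T X' Y' → Att X Y X' Y' → X = X' ∧ Y = Y')

end Pool.Agent.T501Q.D
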