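import Mathlib
import Pool.Agent.T501Q.D.Tab

set_option autoImplicit false

namespace Pool.Agent.T501Q.D


open Filter Topology in
theorem FI_class (S : ℕ → Prop) [DecidablePred S]
    (hd : Tendsto (fun N : ℕ => (((Finset.range N).filter (fun n => ¬ S n)).card : ℝ) / N)
      atTop (𝓝 0)) (ρ : ℕ) (hρ : ρ < 2520) : ∃ r, S r ∧ r % 2520 = ρ := by
  by_contra hcon
  have hno : ∀ r, r % 2520 = ρ → ¬ S r := fun r hr hS => hcon ⟨r, hS, hr⟩
  have h1 : ∀ᶠ N : ℕ in atTop,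
      (((Finset.range N).filter (fun n => ¬ S n)).card : ℝ) / N < 1 / 2520 :=
    hd.eventually (gt_mem_nhds (by norm_num))
  obtain ⟨N₀, hN₀⟩ := eventually_atTop.1 h1
  obtain ⟨N, hN⟩ : ∃ N, N = 2520 * (N₀ + 1) := ⟨_, rfl⟩
  have hNN : N₀ ≤ N := by omega
  have h2 := hN₀ N hNN
  have h3 : N₀ + 1 ≤ ((Finset.range N).filter (fun n => ¬ S n)).card := by
    have h4 : (Finset.range (N₀ + 1)).card ≤
        ((Finset.range N).filter (fun n => ¬ S n)).card := by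
      refine Finset.card_le_card_of_injOn (fun j => 2520 * j + ρ) ?_ ?_
      · intro j hj
        have hj' := Finset.mem_range.1 (Finset.mem_coe.1 hj)
        simp only [Finset.coe_filter, Finset.mem_range, Set.mem_ofPred_eq]
        refine ⟨by omega, hno _ ?_⟩
        omega
      · intro i _ j _ hij
        simp only at hij
        omega
    rwa [Finset.card_range] at h4
  have h5 : ((N₀ + 1 : ℕ) : ℝ) ≤
      (((Finset.range N).filter (fun n => ¬ S n)).card : ℝ) := by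
    exact_mod_cast h3
  have h6 : (N : ℝ) = 2520 * ((N₀ + 1 : ℕ) : ℝ) := by
    rw [hN]
    push_cast
    ring
  have h7 : (0 : ℝ) < ((N₀ + 1 : ℕ) : ℝ) := by positivity
  have h8 : (0 : ℝ) < N := by
    rw [h6]
    positivity
  rw [div_lt_iff₀ h8] at h2
  rw [h6] at h2
  linarith

open Filter Topology in
theorem fin_step (S : ℕ → Prop) [DecidablePred S]
    (hd : Tendsto (fun N : ℕ => (((Finset.range N).filter (fun n => ¬ S n)).card : ℝ) / N)
      atTop (𝓝 0))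
    (hT : ∀ r, S r → ∃ m₀, ∀ m, m₀ ≤ m → m % 210 = 1 → S (12 * m + r)) :
    ∃ n₀, ∀ n, n₀ ≤ n → S n := by
  have h1 : ∀ ρ : ℕ, ∃ r m₀ : ℕ, ρ < 2520 → (S r ∧ r % 2520 = ρ ∧
      ∀ m, m₀ ≤ m → m % 210 = 1 → S (12 * m + r)) := by
    intro ρ
    by_cases hρ : ρ < 2520
    · obtain ⟨r, hr, hr2⟩ := FI_class S hd ρ hρ
      obtain ⟨m₀, hm⟩ := hT r hr
      exact ⟨r, m₀, fun _ => ⟨hr, hr2, hm⟩⟩
    · exact ⟨0, 0, fun h => absurd h hρ⟩
  choose r m₀ h2 using h1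
  refine ⟨∑ ρ ∈ Finset.range 2520, (12 * m₀ ρ + r ρ) + 12, fun n hn => ?_⟩
  have hρ : (n - 12) % 2520 < 2520 := Nat.mod_lt _ (by norm_num)
  obtain ⟨-, h4, h5⟩ := h2 ((n - 12) % 2520) hρ
  have h6 : 12 * m₀ ((n - 12) % 2520) + r ((n - 12) % 2520) ≤
      ∑ ρ ∈ Finset.range 2520, (12 * m₀ ρ + r ρ) :=
    Finset.single_le_sum (f := fun ρ => 12 * m₀ ρ + r ρ) (fun _ _ => Nat.zero_le _)
      (Finset.mem_range.2 hρ)
  generalize hS1 : ∑ ρ ∈ Finset.range 2520, (12 * m₀ ρ + r ρ) = Z at hn h6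
  generalize hm1 : m₀ ((n - 12) % 2520) = M at h5 h6
  generalize hr1 : r ((n - 12) % 2520) = R at h4 h5 h6
  have h7 : 12 * ((n - R) / 12) + R = n := by omega
  rw [← h7]
  apply h5
  · omega
  · omega

end Pool.Agent.T501Q.D
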