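import Mathlib
import Pool.Agent.T501Q.D.Tab
import Pool.Agent.T501Q.D.GT
import Pool.Agent.T501Q.D.TA

set_option autoImplicit false

namespace Pool.Agent.T501Q.D


/-- determinant of two kinds -/
def CLB_D (k k' : Kind) : ℤ := kp k * kq k' - kp k' * kq k

theorem CLB_Dne (k k' : Kind) (h : k ≠ k') : CLB_D k k' ≠ 0 := by
  cases k <;> cases k' <;> first | exact absurd rfl h | decide

theorem CLB_Dle (k k' : Kind) : |CLB_D k k'| ≤ 24 := by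
  cases k <;> cases k' <;> decide

theorem CLB_sne (k : Kind) : kp k + kq k ≠ 0 := by
  cases k <;> decide

theorem CLB_sle (k : Kind) : |kp k + kq k| ≤ 5 := by
  cases k <;> decide

theorem CLB_yle (k : Kind) : |ky k| ≤ 2 := by
  cases k <;> decide

theorem CLB_nz (k1 k2 k3 : Kind) (n12 : k1 ≠ k2) (n13 : k1 ≠ k3) (n23 : k2 ≠ k3)
    (h1 : CLB_D k2 k3 * ky k1 = 0) (h2 : CLB_D k3 k1 * ky k2 = 0) (h3 : CLB_D k1 k2 * ky k3 = 0) :
    False := by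
  have y1 : ky k1 = 0 := (mul_eq_zero.1 h1).resolve_left (CLB_Dne _ _ n23)
  have y2 : ky k2 = 0 := (mul_eq_zero.1 h2).resolve_left (CLB_Dne _ _ (Ne.symm n13))
  have y3 : ky k3 = 0 := (mul_eq_zero.1 h3).resolve_left (CLB_Dne _ _ n12)
  have key : ∀ k : Kind, ky k = 0 → k = .rw ∨ k = .cl := by
    intro k
    cases k <;> decide
  rcases key k1 y1 with h | h <;> rcases key k2 y2 with h' | h' <;>
    rcases key k3 y3 with h'' | h'' <;> subst h <;> subst h' <;> subst h'' <;>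
    first | exact absurd rfl n12 | exact absurd rfl n13 | exact absurd rfl n23

theorem CLB_fin (κ1 κ2 κ3 : Kind) (n12 : κ1 ≠ κ2) (n13 : κ1 ≠ κ3) (n23 : κ2 ≠ κ3)
    (h : CLB_D κ2 κ3 * ky κ1 + CLB_D κ3 κ1 * ky κ2 + CLB_D κ1 κ2 * ky κ3 = 0) :
    ((κ1 ≠ .cl ∧ κ1 ≠ .dc ∧ κ1 ≠ .ac ∧ κ2 ≠ .cl ∧ κ2 ≠ .dc ∧ κ2 ≠ .ac ∧
        κ3 ≠ .cl ∧ κ3 ≠ .dc ∧ κ3 ≠ .ac) ∨
      (κ1 ≠ .rw ∧ κ1 ≠ .dr ∧ κ1 ≠ .ar ∧ κ2 ≠ .rw ∧ κ2 ≠ .dr ∧ κ2 ≠ .ar ∧
        κ3 ≠ .rw ∧ κ3 ≠ .dr ∧ κ3 ≠ .ar)) := by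
  cases κ1 <;> cases κ2 <;>
    first
    | exact absurd rfl n12
    | (cases κ3 <;>
        first
        | exact absurd rfl n13
        | exact absurd rfl n23
        | (exfalso; revert h; decide)
        | decide)

/-- the sum rule for the `s` part -/
theorem CLB_arith (b1 b2 b3 : ℤ) (i j : ℤ) (h0 : b1 + b2 + b3 = 0) (hb : b3 ≠ 0)
    (h : b1 * i + b2 * i + b3 * j = 0) : j = i := by
  have h1 : b3 * (j - i) = 0 := by
    have : b1 + b2 = -b3 := by linarith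
    have h2 : (b1 + b2) * i + b3 * j = 0 := by linarith
    rw [this] at h2
    linarith
  have h2 := (mul_eq_zero.1 h1).resolve_left hb
  linarith

theorem three {m r : ℕ} {U : ℕ → ℕ} (g : Gen m r U) {κ1 κ2 κ3 : Kind} {i1 i2 i3 a b : ℕ}
    (hi1 : i1 < r) (hi2 : i2 < r) (hi3 : i3 < r) (h1 : ln m U κ1 i1 a b)
    (h2 : ln m U κ2 i2 a b) (h3 : ln m U κ3 i3 a b) (n12 : κ1 ≠ κ2) (n13 : κ1 ≠ κ3)
    (n23 : κ2 ≠ κ3) :
    i1 = i2 ∧ i1 = i3 ∧
    ((κ1 ≠ .cl ∧ κ1 ≠ .dc ∧ κ1 ≠ .ac ∧ κ2 ≠ .cl ∧ κ2 ≠ .dc ∧ κ2 ≠ .ac ∧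
        κ3 ≠ .cl ∧ κ3 ≠ .dc ∧ κ3 ≠ .ac) ∨
      (κ1 ≠ .rw ∧ κ1 ≠ .dr ∧ κ1 ≠ .ar ∧ κ2 ≠ .rw ∧ κ2 ≠ .dr ∧ κ2 ≠ .ar ∧
        κ3 ≠ .rw ∧ κ3 ≠ .dr ∧ κ3 ≠ .ar)) := by
  classical
  set d1 : ℤ := CLB_D κ2 κ3 with hd1
  set d2 : ℤ := CLB_D κ3 κ1 with hd2
  set d3 : ℤ := CLB_D κ1 κ2 with hd3
  have d1ne : d1 ≠ 0 := CLB_Dne _ _ n23
  have d2ne : d2 ≠ 0 := CLB_Dne _ _ (Ne.symm n13)
  have d3ne : d3 ≠ 0 := CLB_Dne _ _ n12
  have hp0 : d1 * kp κ1 + d2 * kp κ2 + d3 * kp κ3 = 0 := by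
    rw [hd1, hd2, hd3]; unfold CLB_D; ring
  have hq0 : d1 * kq κ1 + d2 * kq κ2 + d3 * kq κ3 = 0 := by
    rw [hd1, hd2, hd3]; unfold CLB_D; ring
  set b1 : ℤ := d1 * (kp κ1 + kq κ1) with hb1
  set b2 : ℤ := d2 * (kp κ2 + kq κ2) with hb2
  set b3 : ℤ := d3 * (kp κ3 + kq κ3) with hb3
  have hb0 : b1 + b2 + b3 = 0 := by rw [hb1, hb2, hb3]; linarith
  have b1ne : b1 ≠ 0 := mul_ne_zero d1ne (CLB_sne _)
  have b2ne : b2 ≠ 0 := mul_ne_zero d2ne (CLB_sne _)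
  have b3ne : b3 ≠ 0 := mul_ne_zero d3ne (CLB_sne _)
  have ble : ∀ (d : ℤ) (k : Kind), |d| ≤ 24 → |d * (kp k + kq k)| ≤ 120 := by
    intro d k hd
    rw [abs_mul]
    calc |d| * |kp k + kq k| ≤ 24 * 5 :=
          mul_le_mul hd (CLB_sle k) (abs_nonneg _) (by norm_num)
      _ = 120 := by norm_num
  have ale : ∀ (d : ℤ) (k : Kind), |d| ≤ 24 → |d * ky k| ≤ 1000 := by
    intro d k hd
    rw [abs_mul]
    calc |d| * |ky k| ≤ 24 * 2 :=
          mul_le_mul hd (CLB_yle k) (abs_nonneg _) (by norm_num)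
      _ ≤ 1000 := by norm_num
  have hd1le : |d1| ≤ 24 := CLB_Dle _ _
  have hd2le : |d2| ≤ 24 := CLB_Dle _ _
  have hd3le : |d3| ≤ 24 := CLB_Dle _ _
  have sle : ∀ (b : ℤ) (i : ℕ), |b| ≤ 120 → i < r → |b * (i : ℤ)| ≤ 120 * (r : ℤ) := by
    intro b i hb hi
    rw [abs_mul, Nat.abs_cast]
    exact mul_le_mul hb (by exact_mod_cast hi.le) (by positivity) (by norm_num)
  set s : ℤ := -(b1 * i1 + b2 * i2 + b3 * i3) with hs
  have hsle : |s| ≤ 5000 * ((r : ℤ) + 1) := by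
    rw [hs, abs_neg]
    have t1 := sle b1 i1 (ble d1 κ1 hd1le) hi1
    have t2 := sle b2 i2 (ble d2 κ2 hd2le) hi2
    have t3 := sle b3 i3 (ble d3 κ3 hd3le) hi3
    have t4 := abs_add_le (b1 * (i1 : ℤ) + b2 * i2) (b3 * i3)
    have t5 := abs_add_le (b1 * (i1 : ℤ)) (b2 * i2)
    have t6 : (0 : ℤ) ≤ r := by positivity
    linarith
  have hZ : ((d1 * ky κ1 * (U i1 : ℤ) + d2 * ky κ2 * (U i2 : ℤ) + d3 * ky κ3 * (U i3 : ℤ) + s : ℤ)
      : ZMod m) = 0 := by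
    have p0 : (d1 : ZMod m) * (kp κ1 : ZMod m) + d2 * (kp κ2 : ZMod m) + d3 * (kp κ3 : ZMod m)
        = 0 := by exact_mod_cast congrArg (Int.cast : ℤ → ZMod m) hp0
    have q0 : (d1 : ZMod m) * (kq κ1 : ZMod m) + d2 * (kq κ2 : ZMod m) + d3 * (kq κ3 : ZMod m)
        = 0 := by exact_mod_cast congrArg (Int.cast : ℤ → ZMod m) hq0
    unfold ln at h1 h2 h3
    rw [hs, hb1, hb2, hb3]
    push_cast
    linear_combination (d1 : ZMod m) * h1 + (d2 : ZMod m) * h2 + (d3 : ZMod m) * h3 -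
      (a : ZMod m) * p0 - (b : ZMod m) * q0
  obtain ⟨hk, hs0⟩ := gen_mod g ![d1 * ky κ1, d2 * ky κ2, d3 * ky κ3, 0] ![i1, i2, i3, i1] s
    (by intro l; fin_cases l <;> simp [hi1, hi2, hi3])
    (by
      intro l
      fin_cases l
      · exact ale d1 κ1 hd1le
      · exact ale d2 κ2 hd2le
      · exact ale d3 κ3 hd3le
      · simp)
    hsle
    (by
      rw [Fin.sum_univ_four]
      simp only [Matrix.cons_val_zero, Matrix.cons_val_one, Matrix.cons_val]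
      rw [← hZ]
      congr 1
      ring)
  have hsum : b1 * (i1 : ℤ) + b2 * i2 + b3 * i3 = 0 := by
    have := hs0
    rw [hs] at this
    linarith
  have hk' : ∀ k, (if i1 = k then d1 * ky κ1 else 0) + (if i2 = k then d2 * ky κ2 else 0) +
      (if i3 = k then d3 * ky κ3 else 0) = 0 := by
    intro k
    have h := hk k
    rw [Fin.sum_univ_four] at h
    simp only [Matrix.cons_val_zero, Matrix.cons_val_one, Matrix.cons_val] at h
    by_cases hik : i1 = k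
    · simp only [hik, if_true, add_zero] at h ⊢
      exact h
    · simp only [hik, if_false, add_zero] at h ⊢
      exact h
  have hcase : i1 = i2 ∧ i1 = i3 := by
    by_cases e12 : i1 = i2
    · refine ⟨e12, ?_⟩
      subst e12
      have := CLB_arith b1 b2 b3 i1 i3 hb0 b3ne hsum
      exact_mod_cast this.symm
    · exfalso
      by_cases e13 : i1 = i3
      · subst e13
        have := CLB_arith b1 b3 b2 i1 i2 (by linarith) b2ne (by linarith)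
        exact e12 (by exact_mod_cast this.symm)
      · by_cases e23 : i2 = i3
        · subst e23
          have := CLB_arith b2 b3 b1 i2 i1 (by linarith) b1ne (by linarith)
          exact e12 (by exact_mod_cast this)
        · have k1 := hk' i1
          have k2 := hk' i2
          have k3 := hk' i3
          rw [if_pos rfl, if_neg (Ne.symm e12), if_neg (Ne.symm e13), add_zero, add_zero] at k1
          rw [if_neg e12, if_pos rfl, if_neg (Ne.symm e23), add_zero, zero_add] at k2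
          rw [if_neg e13, if_neg e23, if_pos rfl, add_zero, zero_add] at k3
          exact CLB_nz κ1 κ2 κ3 n12 n13 n23 k1 k2 k3
  obtain ⟨e12, e13⟩ := hcase
  refine ⟨e12, e13, ?_⟩
  have k1 := hk' i1
  rw [if_pos rfl, if_pos e12.symm, if_pos e13.symm] at k1
  exact CLB_fin κ1 κ2 κ3 n12 n13 n23 k1

end Pool.Agent.T501Q.D
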