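import Mathlib
import Pool.Agent.T501Q.D.Tab
import Pool.Agent.T501Q.D.CLA
import Pool.Agent.T501Q.D.CLB
import Pool.Agent.T501Q.D.GT
import Pool.Agent.T501Q.D.PP

set_option autoImplicit false

namespace Pool.Agent.T501Q.D


/-- the shift is determined -/
theorem SU_sh {m : ℕ} {U : ℕ → ℕ} (hm : 0 < m) {κ : Kind} {σ σ' i a b : ℕ}
    (h : shOK m U κ σ i a b) (h' : shOK m U κ σ' i a b) : σ = σ' := by
  rcases h with ⟨h1, h2⟩ | ⟨h1, h2, h3⟩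
  · rcases h' with ⟨_, h2'⟩ | ⟨h1', _, _⟩
    · rw [h2, h2']
    · rw [h1] at h1'
      exact absurd h1' (by simp [isD])
  · rcases h' with ⟨h1', _⟩ | ⟨_, _, h3'⟩
    · rw [h1'] at h1
      exact absurd h1 (by simp [isD])
    · have e : sg κ * (σ : ℤ) * (m : ℤ) = sg κ * (σ' : ℤ) * (m : ℤ) := by rw [← h3, ← h3']
      have hm' : (m : ℤ) ≠ 0 := by exact_mod_cast hm.ne'
      have e2 := mul_right_cancel₀ hm' e
      have hs : sg κ ≠ 0 := by cases κ <;> simp [sg]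
      exact_mod_cast mul_left_cancel₀ hs e2

theorem SU_noP {κ1 κ2 : Kind} {i j v : ℕ} (hr : 2 ≤ rk κ1) (hij : i ≠ j) (h : Pc κ1 κ2 i j v) :
    False := by
  obtain ⟨h1, _, h3 | ⟨h3, _⟩⟩ := h
  · rw [h3] at hr
    simp [rk] at hr
  · exact hij (h3.trans h1.symm)

theorem SU_noQ {κ1 κ2 : Kind} {i j v : ℕ} (hr : 2 ≤ rk κ1) (hij : i ≠ j) (h : Qc κ1 κ2 i j v) :
    False := by
  obtain ⟨h1, _, h3 | ⟨h3, _⟩⟩ := h
  · rw [h3] at hr
    simp [rk] at hr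
  · exact hij (h3.trans h1.symm)

theorem SU_VV {m r : ℕ} {U : ℕ → ℕ} (g : Gen m r U) {j : ℕ} (hj : j < r) {c : ZMod m}
    {π π' : ℕ → ℕ} (h : secVV m r U j c π) (h' : secVV m r U j c π') : π = π' := by
  obtain ⟨i, κ1, κ2, σ1, σ2, a, b, hi, hij, ha, hb, hc, hr1, hr2, hl1, hl2, hs1, hs2, hπ⟩ := h
  obtain ⟨i', κ1', κ2', σ1', σ2', a', b', hi', hij', ha', hb', hc', hr1', hr2', hl1', hl2', hs1',
    hs2', hπ'⟩ := h'
  rcases pairs g hi hj hi' hj hl1 hl2 hl1' hl2' hr2 hr2' (hc.trans hc'.symm) with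
    ⟨e1, e2, e3, _⟩ | ⟨e1, _⟩ | ⟨v, e1, _⟩ | ⟨v, e1, _⟩ | ⟨e1, _⟩
  · subst e1 e2 e3
    have hne : κ1 ≠ κ2 := by
      rintro rfl
      exact lt_irrefl _ hr2
    obtain ⟨e4, e5⟩ := meet_unique g hne ha hb ha' hb' hl1 hl2 hl1' hl2'
    subst e4 e5
    rw [hπ, hπ', SU_sh g.mpos hs1 hs1', SU_sh g.mpos hs2 hs2']
  · rw [e1] at hr1
    simp [rk] at hr1
  · exact (SU_noP hr1 hij e1).elim
  · exact (SU_noQ hr1 hij e1).elim
  · exact absurd e1 hij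

/-- a `VV` description excludes a description with a line of small rank -/
theorem SU_VVsmall {m r : ℕ} {U : ℕ → ℕ} (g : Gen m r U) {j : ℕ} (hj : j < r) {c : ZMod m}
    {π : ℕ → ℕ} (h : secVV m r U j c π) {κ3 κ4 : Kind} {i3 i4 a' b' : ℕ} (h3 : i3 < r)
    (h4 : i4 < r) (hl3 : ln m U κ3 i3 a' b') (hl4 : ln m U κ4 i4 a' b') (hr3 : rk κ3 < 2)
    (hr4 : rk κ3 < rk κ4) (hc' : lab m a' b' = c) : False := by
  obtain ⟨i, κ1, κ2, σ1, σ2, a, b, hi, hij, ha, hb, hc, hr1, hr2, hl1, hl2, hs1, hs2, hπ⟩ := h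
  rcases pairs g hi hj h3 h4 hl1 hl2 hl3 hl4 hr2 hr4 (hc.trans hc'.symm) with
    ⟨e1, _⟩ | ⟨e1, _⟩ | ⟨v, e1, _⟩ | ⟨v, e1, _⟩ | ⟨e1, _⟩
  · rw [e1] at hr1
    omega
  · rw [e1] at hr1
    simp [rk] at hr1
  · exact SU_noP hr1 hij e1
  · exact SU_noQ hr1 hij e1
  · exact hij e1

theorem SU_VVWR {m r : ℕ} {U : ℕ → ℕ} (g : Gen m r U) {j : ℕ} (hj : j < r) {c : ZMod m}
    {π π' : ℕ → ℕ} (h : secVV m r U j c π) (h' : secWR m r U j c π') : False := by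
  obtain ⟨i', a', b', hi', hij', _, _, hc', hl3, hl4, _⟩ := h'
  exact SU_VVsmall g hj h hj hi' hl3 hl4 (by simp [rk]) (by simp [rk]) hc'

theorem SU_VVWC {m r : ℕ} {U : ℕ → ℕ} (g : Gen m r U) {j : ℕ} (hj : j < r) {c : ZMod m}
    {π π' : ℕ → ℕ} (h : secVV m r U j c π) (h' : secWC m r U j c π') : False := by
  obtain ⟨i', a', b', hi', hij', _, _, hc', hl3, hl4, _⟩ := h'
  exact SU_VVsmall g hj h hj hi' hl3 hl4 (by simp [rk]) (by simp [rk]) hc'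

theorem SU_WRWC {m r : ℕ} {U : ℕ → ℕ} (g : Gen m r U) {j : ℕ} (hj : j < r) {c : ZMod m}
    {π π' : ℕ → ℕ} (h : secWR m r U j c π) (h' : secWC m r U j c π') : False := by
  obtain ⟨i, a, b, hi, hij, _, _, hc, hl1, hl2, _⟩ := h
  obtain ⟨i', a', b', hi', hij', _, _, hc', hl3, hl4, _⟩ := h'
  rcases pairs g hj hi hj hi' hl1 hl2 hl3 hl4 (by simp [rk]) (by simp [rk])
    (hc.trans hc'.symm) with
    ⟨e1, _⟩ | ⟨_, e1, _⟩ | ⟨v, _, e1⟩ | ⟨v, e1, _⟩ | ⟨e1, _⟩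
  · exact absurd e1 (by simp)
  · exact absurd e1 (by simp)
  · obtain ⟨_, _, e3 | ⟨_, e3 | e3⟩⟩ := e1
    · exact absurd e3 (by simp)
    · exact absurd e3 (by simp)
    · exact absurd e3 (by simp)
  · obtain ⟨_, _, e3 | ⟨_, e3 | e3⟩⟩ := e1
    · exact absurd e3 (by simp)
    · exact absurd e3 (by simp)
    · exact absurd e3 (by simp)
  · exact hij e1.symm

theorem Sec_unique {m r : ℕ} {U : ℕ → ℕ} (g : Gen m r U) {j : ℕ} (hj : j < r) {c : ZMod m}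
    {π π' : ℕ → ℕ} (h : Sec m r U j c π) (h' : Sec m r U j c π') : π = π' := by
  rcases h with h | h | h
  · rcases h' with h' | h' | h'
    · exact SU_VV g hj h h'
    · exact (SU_VVWR g hj h h').elim
    · exact (SU_VVWC g hj h h').elim
  · rcases h' with h' | h' | h'
    · exact (SU_VVWR g hj h' h).elim
    · obtain ⟨_, _, _, _, _, _, _, _, _, _, e⟩ := h
      obtain ⟨_, _, _, _, _, _, _, _, _, _, e'⟩ := h'
      rw [e, e']
    · exact (SU_WRWC g hj h h').elim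
  · rcases h' with h' | h' | h'
    · exact (SU_VVWC g hj h' h).elim
    · exact (SU_WRWC g hj h' h).elim
    · obtain ⟨_, _, _, _, _, _, _, _, _, _, e⟩ := h
      obtain ⟨_, _, _, _, _, _, _, _, _, _, e'⟩ := h'
      rw [e, e']

theorem pn_eq_of_Sec {m r : ℕ} {U : ℕ → ℕ} (g : Gen m r U) {j : ℕ} (hj : j < r) {c : ZMod m}
    {π : ℕ → ℕ} (h : Sec m r U j c π) : pn m r U j c = π := by
  have hex : ∃ π, Sec m r U j c π := ⟨π, h⟩
  unfold pn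
  rw [dif_pos hex]
  exact Sec_unique g hj (Classical.choose_spec hex) h

theorem pn_eq_id {m r : ℕ} {U : ℕ → ℕ} {j : ℕ} {c : ZMod m}
    (h : ∀ π, ¬ Sec m r U j c π) : pn m r U j c = id := by
  have hex : ¬ ∃ π, Sec m r U j c π := fun ⟨π, hπ⟩ => h π hπ
  unfold pn
  rw [dif_neg hex]

end Pool.Agent.T501Q.D
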