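import Mathlib
import Pool.Agent.T501Q.D.Tab
import Pool.Agent.T501Q.D.CLA
import Pool.Agent.T501Q.D.CLB
import Pool.Agent.T501Q.D.GT
import Pool.Agent.T501Q.D.PP
import Pool.Agent.T501Q.D.PR
import Pool.Agent.T501Q.D.SU
import Pool.Agent.T501Q.D.TA
import Pool.Agent.T501Q.D.TB

set_option autoImplicit false

namespace Pool.Agent.T501Q.D


theorem NFE_no_Sec {m r : ℕ} {U : ℕ → ℕ} {j : ℕ} {c : ZMod m}
    (hVV : ∀ (i : ℕ) (κ1 κ2 : Kind) (a b : ℕ), i < r → i ≠ j → lab m a b = c → 2 ≤ rk κ1 →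
      rk κ1 < rk κ2 → ln m U κ1 i a b → ln m U κ2 j a b → False)
    (hWR : ∀ i a b : ℕ, i < r → i ≠ j → lab m a b = c → ln m U .rw j a b → ln m U .w i a b → False)
    (hWC : ∀ i a b : ℕ, i < r → i ≠ j → lab m a b = c → ln m U .cl j a b → ln m U .w i a b → False) :
    pn m r U j c = id := by
  apply pn_eq_id
  intro π h
  rcases h with h | h | h
  · obtain ⟨i, κ1, κ2, σ1, σ2, a, b, hi, hij, _, _, hl, h2, h12, l1, l2, _⟩ := h
    exact hVV i κ1 κ2 a b hi hij hl h2 h12 l1 l2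
  · obtain ⟨i, a, b, hi, hij, _, _, hl, l1, l2, _⟩ := h
    exact hWR i a b hi hij hl l1 l2
  · obtain ⟨i, a, b, hi, hij, _, _, hl, l1, l2, _⟩ := h
    exact hWC i a b hi hij hl l1 l2

theorem NFE_B {m r : ℕ} {U : ℕ → ℕ} (g : Gen m r U) {j : ℕ} {c : ZMod m} :
    ∃ a b : ℕ, lab m a b = c ∧ ln m U .cl (bI m (wU m U) j c) a b ∧ ln m U .w j a b :=
  ⟨aI m (wU m U) j c, bI m (wU m U) j c, lab_AB g.cop6 _ _ _,
    (ln_cl_iff (bI_lt g.mpos _ _ _) (bI_lt g.mpos _ _ _)).2 rfl, ln_w_iff.2 (onW_AB g.cop6 _ _ _)⟩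

theorem NFE_A {m r : ℕ} {U : ℕ → ℕ} (g : Gen m r U) {j : ℕ} {c : ZMod m} :
    ∃ a b : ℕ, lab m a b = c ∧ ln m U .rw (aI m (wU m U) j c) a b ∧ ln m U .w j a b :=
  ⟨aI m (wU m U) j c, bI m (wU m U) j c, lab_AB g.cop6 _ _ _,
    (ln_rw_iff (aI_lt g.mpos _ _ _) (aI_lt g.mpos _ _ _)).2 rfl, ln_w_iff.2 (onW_AB g.cop6 _ _ _)⟩

theorem NF_link {m r : ℕ} {U : ℕ → ℕ} (g : Gen m r U) {i a b : ℕ} {κ κ' : Kind} (hi : i < r)
    (ha : a < m) (hb : b < m) (hκ : κ = .dr ∨ κ = .ar) (hκ' : κ' = .dc ∨ κ' = .ac)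
    (h1 : ln m U κ i a b) (h2 : ln m U κ' i a b) :
    (∀ t, nu m r U i (lab m a b) t = t) ∧ (∀ t, xi m r U i (lab m a b) t = rinv t) ∧
    r ≤ aI m (wU m U) i (lab m a b) ∧ r ≤ bI m (wU m U) i (lab m a b) := by
  have hrk : rk κ < rk κ' := by
    rcases hκ with rfl | rfl <;> rcases hκ' with rfl | rfl <;> decide
  have hPc : ∀ i1 i2 v, ¬ Pc κ κ' i1 i2 v := by
    intro i1 i2 v h
    rcases hκ' with rfl | rfl <;> simp [Pc] at h
  have hQc : ∀ i1 i2 v, ¬ Qc κ κ' i1 i2 v := by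
    intro i1 i2 v h
    rcases hκ with rfl | rfl <;> simp [Qc] at h
  have hA : r ≤ aI m (wU m U) i (lab m a b) := by
    by_contra hcon
    rw [not_le] at hcon
    obtain ⟨a', b', hl, l1, l2⟩ := NFE_A g (j := i) (c := lab m a b)
    rcases pairs g hi hi hcon hi h1 h2 l1 l2 hrk (by decide) hl.symm with h | h | ⟨v, h, _⟩ | ⟨v, h, _⟩ | h
    · rcases hκ with rfl | rfl <;> simp at h
    · rcases hκ with rfl | rfl <;> simp at h
    · exact hPc _ _ _ h
    · exact hQc _ _ _ h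
    · have h5 := h.2.2.2
      rcases hκ with rfl | rfl <;> simp [Ec] at h5
  have hB : r ≤ bI m (wU m U) i (lab m a b) := by
    by_contra hcon
    rw [not_le] at hcon
    obtain ⟨a', b', hl, l1, l2⟩ := NFE_B g (j := i) (c := lab m a b)
    rcases pairs g hi hi hcon hi h1 h2 l1 l2 hrk (by decide) hl.symm with h | h | ⟨v, h, _⟩ | ⟨v, h, _⟩ | h
    · rcases hκ with rfl | rfl <;> simp at h
    · rcases hκ with rfl | rfl <;> simp at h
    · exact hPc _ _ _ h
    · exact hQc _ _ _ h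
    · have h5 := h.2.2.2
      rcases hκ with rfl | rfl <;> simp [Ec] at h5
  have hid : pn m r U i (lab m a b) = id := by
    apply NFE_no_Sec
    · intro i' κ1 κ2 a' b' hi' hne hl h3 h4 l1 l2
      rcases pairs g hi hi hi' hi h1 h2 l1 l2 hrk h4 hl.symm with h | h | ⟨v, h, _⟩ | ⟨v, h, _⟩ | h
      · exact hne h.2.2.1.symm
      · rcases hκ with rfl | rfl <;> simp at h
      · exact hPc _ _ _ h
      · exact hQc _ _ _ h
      · exact hne h.2.1
    · intro i' a' b' hi' hne hl l1 l2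
      rcases pairs g hi hi hi hi' h1 h2 l1 l2 hrk (by decide) hl.symm with h | h | ⟨v, h, _⟩ | ⟨v, h, _⟩ | h
      · exact hne h.2.2.2.symm
      · rcases hκ with rfl | rfl <;> simp at h
      · exact hPc _ _ _ h
      · exact hQc _ _ _ h
      · exact hne h.2.1.symm
    · intro i' a' b' hi' hne hl l1 l2
      rcases pairs g hi hi hi hi' h1 h2 l1 l2 hrk (by decide) hl.symm with h | h | ⟨v, h, _⟩ | ⟨v, h, _⟩ | h
      · exact hne h.2.2.2.symm
      · rcases hκ with rfl | rfl <;> simp at h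
      · exact hPc _ _ _ h
      · exact hQc _ _ _ h
      · exact hne h.2.1.symm
  refine ⟨fun t => ?_, fun t => ?_, hA, hB⟩
  · unfold nu
    rw [if_neg (fun h => absurd h.1 (not_lt.2 hB)), hid]
    rfl
  · unfold xi
    rw [if_neg (fun h => absurd h.1 (not_lt.2 hA)), hid]
    rfl

theorem NF_PQ {m r : ℕ} {U : ℕ → ℕ} (g : Gen m r U) {p q : ℕ} (hp : p < r) (hq : q < r) :
    (∀ t, nu m r U p (lab m p q) t = t) ∧ (∀ t, xi m r U q (lab m p q) t = rinv t) := by
  have h1 : ln m U .rw p p q := (ln_rw_iff (g.lt_m hp) (g.lt_m hp)).2 rfl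
  have h2 : ln m U .cl q p q := (ln_cl_iff (g.lt_m hq) (g.lt_m hq)).2 rfl
  have hrk : rk .rw < rk .cl := by decide
  have hPc : ∀ i1 i2 v, ¬ Pc .rw .cl i1 i2 v := by
    intro i1 i2 v h
    simp [Pc] at h
  have hQc : ∀ i1 i2 v, ¬ Qc .rw .cl i1 i2 v := by
    intro i1 i2 v h
    simp [Qc] at h
  have hA : r ≤ aI m (wU m U) q (lab m p q) := by
    by_contra hcon
    rw [not_le] at hcon
    obtain ⟨a', b', hl, l1, l2⟩ := NFE_A g (j := q) (c := lab m p q)
    rcases pairs g hp hq hcon hq h1 h2 l1 l2 hrk (by decide) hl.symm with h | h | ⟨v, h, _⟩ | ⟨v, h, _⟩ | h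
    · simp at h
    · simp at h
    · exact hPc _ _ _ h
    · exact hQc _ _ _ h
    · have h5 := h.2.2.2
      simp [Ec] at h5
  have hB : r ≤ bI m (wU m U) p (lab m p q) := by
    by_contra hcon
    rw [not_le] at hcon
    obtain ⟨a', b', hl, l1, l2⟩ := NFE_B g (j := p) (c := lab m p q)
    rcases pairs g hp hq hcon hp h1 h2 l1 l2 hrk (by decide) hl.symm with h | h | ⟨v, h, _⟩ | ⟨v, h, _⟩ | h
    · simp at h
    · simp at h
    · exact hPc _ _ _ h
    · exact hQc _ _ _ h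
    · have h5 := h.2.2.2
      simp [Ec] at h5
  have hid : ∀ j, j < r → pn m r U j (lab m p q) = id := by
    intro j hj
    apply NFE_no_Sec
    · intro i' κ1 κ2 a' b' hi' hne hl h3 h4 l1 l2
      rcases pairs g hp hq hi' hj h1 h2 l1 l2 hrk h4 hl.symm with h | h | ⟨v, h, _⟩ | ⟨v, h, _⟩ | h
      · rw [← h.1] at h3
        simp [rk] at h3
      · rw [h.2.2.1] at h3
        simp [rk] at h3
      · exact hPc _ _ _ h
      · exact hQc _ _ _ h
      · exact hne h.2.1
    · intro i' a' b' hi' hne hl l1 l2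
      rcases pairs g hp hq hj hi' h1 h2 l1 l2 hrk (by decide) hl.symm with h | h | ⟨v, h, _⟩ | ⟨v, h, _⟩ | h
      · simp at h
      · simp at h
      · exact hPc _ _ _ h
      · exact hQc _ _ _ h
      · exact hne h.2.1.symm
    · intro i' a' b' hi' hne hl l1 l2
      rcases pairs g hp hq hj hi' h1 h2 l1 l2 hrk (by decide) hl.symm with h | h | ⟨v, h, _⟩ | ⟨v, h, _⟩ | h
      · simp at h
      · simp at h
      · exact hPc _ _ _ h
      · exact hQc _ _ _ h
      · exact hne h.2.1.symm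
  refine ⟨fun t => ?_, fun t => ?_⟩
  · unfold nu
    rw [if_neg (fun h => absurd h.1 (not_lt.2 hB)), hid p hp]
    rfl
  · unfold xi
    rw [if_neg (fun h => absurd h.1 (not_lt.2 hA)), hid q hq]
    rfl

theorem NF_P {m r : ℕ} {U : ℕ → ℕ} (g : Gen m r U) {i b : ℕ} (hi : i < r) (hb : b < m)
    (h : onW m (wU m U) i i b) : ∀ t, xi m r U i (lab m i b) t = rinv t := by
  have h1 : ln m U .rw i i b := (ln_rw_iff (g.lt_m hi) (g.lt_m hi)).2 rfl
  have h2 : ln m U .w i i b := ln_w_iff.2 h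
  have hrk : rk .rw < rk .w := by decide
  have hai : aI m (wU m U) i (lab m i b) = i := onW_a g.cop6 _ (g.lt_m hi) h
  have hid : pn m r U i (lab m i b) = id := by
    apply NFE_no_Sec
    · intro i' κ1 κ2 a' b' hi' hne hl h3 h4 l1 l2
      rcases pairs g hi hi hi' hi h1 h2 l1 l2 hrk h4 hl.symm with h | h | ⟨v, h, h'⟩ | ⟨v, h, _⟩ | h
      · exact hne h.2.2.1.symm
      · simp at h
      · have e1 := h.1
        rcases h'.2.2 with h5 | h5
        · rw [h5] at h3
          simp [rk] at h3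
        · exact hne (h5.1.trans e1.symm)
      · simp [Qc] at h
      · exact hne h.2.1
    · intro i' a' b' hi' hne hl l1 l2
      rcases pairs g hi hi hi hi' h1 h2 l1 l2 hrk (by decide) hl.symm with h | h | ⟨v, h, h'⟩ | ⟨v, h, _⟩ | h
      · exact hne h.2.2.2.symm
      · simp at h
      · exact hne (h'.1.trans h.1.symm)
      · simp [Qc] at h
      · exact hne h.2.1.symm
    · intro i' a' b' hi' hne hl l1 l2
      rcases pairs g hi hi hi hi' h1 h2 l1 l2 hrk (by decide) hl.symm with h | h | ⟨v, h, h'⟩ | ⟨v, h, _⟩ | h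
      · simp at h
      · simp at h
      · simp [Pc] at h'
      · simp [Qc] at h
      · exact hne h.2.1.symm
  intro t
  unfold xi
  rw [if_neg (fun h => h.2 hai), hid]
  rfl

theorem NF_Q {m r : ℕ} {U : ℕ → ℕ} (g : Gen m r U) {i a : ℕ} (hi : i < r) (ha : a < m)
    (h : onW m (wU m U) i a i) : ∀ t, nu m r U i (lab m a i) t = t := by
  have h1 : ln m U .cl i a i := (ln_cl_iff (g.lt_m hi) (g.lt_m hi)).2 rfl
  have h2 : ln m U .w i a i := ln_w_iff.2 h
  have hrk : rk .cl < rk .w := by decide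
  have hbi : bI m (wU m U) i (lab m a i) = i := onW_b g.cop6 _ (g.lt_m hi) h
  have hid : pn m r U i (lab m a i) = id := by
    apply NFE_no_Sec
    · intro i' κ1 κ2 a' b' hi' hne hl h3 h4 l1 l2
      rcases pairs g hi hi hi' hi h1 h2 l1 l2 hrk h4 hl.symm with h | h | ⟨v, h, _⟩ | ⟨v, h, h'⟩ | h
      · exact hne h.2.2.1.symm
      · simp at h
      · simp [Pc] at h
      · have e1 := h.1
        rcases h'.2.2 with h5 | h5
        · rw [h5] at h3
          simp [rk] at h3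
        · exact hne (h5.1.trans e1.symm)
      · exact hne h.2.1
    · intro i' a' b' hi' hne hl l1 l2
      rcases pairs g hi hi hi hi' h1 h2 l1 l2 hrk (by decide) hl.symm with h | h | ⟨v, h, _⟩ | ⟨v, h, h'⟩ | h
      · simp at h
      · simp at h
      · simp [Pc] at h
      · simp [Qc] at h'
      · exact hne h.2.1.symm
    · intro i' a' b' hi' hne hl l1 l2
      rcases pairs g hi hi hi hi' h1 h2 l1 l2 hrk (by decide) hl.symm with h | h | ⟨v, h, _⟩ | ⟨v, h, h'⟩ | h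
      · exact hne h.2.2.2.symm
      · simp at h
      · simp [Pc] at h
      · exact hne (h'.1.trans h.1.symm)
      · exact hne h.2.1.symm
  intro t
  unfold nu
  rw [if_neg (fun h => h.2 hbi), hid]
  rfl

end Pool.Agent.T501Q.D
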