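import Mathlib
import Pool.Agent.T501Q.D.Tab
import Pool.Agent.T501Q.D.GT
import Pool.Agent.T501Q.D.TA
import Pool.Agent.T501Q.D.TB

set_option autoImplicit false

namespace Pool.Agent.T501Q.D


theorem SC_castm {m i x : ℕ} (h : x ≤ m + i) :
    ((m + i - x : ℕ) : ZMod m) = (i : ZMod m) - (x : ZMod m) := by
  rw [Nat.cast_sub h]
  push_cast
  simp

theorem SC_eq {m k a v : ℕ} (hk : Nat.Coprime m k) (ha : a < m) (hv : v < m)
    (h : (k : ZMod m) * (a : ZMod m) = (k : ZMod m) * (v : ZMod m)) : a = v :=
  cast_eq ha hv (cancel hk h)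

theorem SC_cop {m : ℕ} (h : Nat.Coprime m 210) :
    Nat.Coprime m 3 ∧ Nat.Coprime m 9 ∧ Nat.Coprime m 21 ∧ Nat.Coprime m 6 := by
  have h3 : Nat.Coprime m 3 := Nat.Coprime.coprime_dvd_right (by norm_num) h
  refine ⟨h3, ?_, Nat.Coprime.coprime_dvd_right (by norm_num) h,
    Nat.Coprime.coprime_dvd_right (by norm_num) h⟩
  have : Nat.Coprime m (3 * 3) := Nat.Coprime.mul_right h3 h3
  exact this

theorem sh_link {m r : ℕ} {U : ℕ → ℕ} (g : Gen m r U) {i a b : ℕ} {κ κ' : Kind} (hi : i < r)
    (ha : a < m) (hb : b < m) (hκ : κ = .dr ∨ κ = .ar) (hκ' : κ' = .dc ∨ κ' = .ac)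
    (h1 : ln m U κ i a b) (h2 : ln m U κ' i a b) :
    gofs m U κ i (lab m a b) - bofs κ a b = (if κ = .dr ∧ κ' = .ac then -(m : ℤ) else 0) ∧
    gofs m U κ' i (lab m a b) - bofs κ' a b = (if κ = .dr ∧ κ' = .dc then (m : ℤ) else 0) := by
  have hm := g.mpos
  obtain ⟨c3, c9, c21, c6⟩ := SC_cop g.cop
  obtain ⟨V, hV⟩ := g.dvd i hi
  have hbig := g.big i hi
  have hlt := g.lt i hi
  rw [hV] at hbig hlt
  have hUc : (U i : ZMod m) = 210 * (V : ZMod m) := by
    rw [hV]; push_cast; ring
  have hB := bI_eq c6 (wU m U) i (lab m a b)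
  have hA := aI_eq c6 (wU m U) i (lab m a b)
  have hBl := bI_lt hm (wU m U) i (lab m a b)
  have hAl := aI_lt hm (wU m U) i (lab m a b)
  have hw : wU m U i = -(i : ZMod m) - 210 * (V : ZMod m) := by
    unfold wU; rw [hUc]
  have hl : lab m a b = 2 * (b : ZMod m) - 4 * (a : ZMod m) := rfl
  rw [hw, hl] at hA hB
  rw [hl] at hBl hAl ⊢
  have hbig' : i + 1 < V * 100 := by omega
  rcases hκ with rfl | rfl <;> rcases hκ' with rfl | rfl
  · have e1 : (5 : ZMod m) * ((a : ZMod m) - i) + (-4) * ((b : ZMod m) - i)
        = -2 * (210 * (V : ZMod m)) := by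
      rw [← hUc]
      have := h1
      unfold ln at this
      simpa [kp, kq, ky] using this
    have e2 : ((a : ZMod m) - i) + ((b : ZMod m) - i) = -(210 * (V : ZMod m)) := by
      rw [← hUc]
      have := h2
      unfold ln at this
      simpa [kp, kq, ky] using this
    have ea : a = m + i - 140 * V := by
      refine SC_eq c9 ha (by omega) ?_
      rw [SC_castm (by omega)]
      push_cast
      linear_combination e1 + 4 * e2
    have eb : b = m + i - 70 * V := by
      refine SC_eq c9 hb (by omega) ?_
      rw [SC_castm (by omega)]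
      push_cast
      linear_combination 5 * e2 - e1
    have ca : (a : ZMod m) = i - 140 * V := by
      rw [ea, SC_castm (by omega)]; push_cast; ring
    have cb : (b : ZMod m) = i - 70 * V := by
      rw [eb, SC_castm (by omega)]; push_cast; ring
    have eB : bI m (wU m U) i (2 * (b : ZMod m) - 4 * (a : ZMod m)) = i + 70 * V := by
      refine SC_eq c6 hBl (by omega) ?_
      push_cast
      rw [hB, ca, cb]
      ring
    have eA : aI m (wU m U) i (2 * (b : ZMod m) - 4 * (a : ZMod m)) = m + i - 70 * V := by
      refine SC_eq c3 hAl (by omega) ?_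
      rw [SC_castm (by omega)]
      push_cast
      rw [hA, ca, cb]
      ring
    have t1 : ¬ ((Kind.dr = .dr) ∧ (Kind.dc = .ac)) := by simp
    have t2 : ((Kind.dr = .dr) ∧ (Kind.dc = .dc)) := by simp
    rw [if_neg t1, if_pos t2]
    unfold gofs bofs
    simp only []
    rw [eA, eB]
    constructor <;> omega
  · have e1 : (5 : ZMod m) * ((a : ZMod m) - i) + (-4) * ((b : ZMod m) - i)
        = -2 * (210 * (V : ZMod m)) := by
      rw [← hUc]
      have := h1
      unfold ln at this
      simpa [kp, kq, ky] using this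
    have e2 : ((a : ZMod m) - i) + (-5) * ((b : ZMod m) - i) = -(210 * (V : ZMod m)) := by
      rw [← hUc]
      have := h2
      unfold ln at this
      simpa [kp, kq, ky] using this
    have ea : a = m + i - 60 * V := by
      refine SC_eq c21 ha (by omega) ?_
      rw [SC_castm (by omega)]
      push_cast
      linear_combination 5 * e1 - 4 * e2
    have eb : b = i + 30 * V := by
      refine SC_eq c21 hb (by omega) ?_
      push_cast
      linear_combination e1 - 5 * e2
    have ca : (a : ZMod m) = i - 60 * V := by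
      rw [ea, SC_castm (by omega)]; push_cast; ring
    have cb : (b : ZMod m) = i + 30 * V := by
      rw [eb]; push_cast; ring
    have eB : bI m (wU m U) i (2 * (b : ZMod m) - 4 * (a : ZMod m)) = i + 90 * V := by
      refine SC_eq c6 hBl (by omega) ?_
      push_cast
      rw [hB, ca, cb]
      ring
    have eA : aI m (wU m U) i (2 * (b : ZMod m) - 4 * (a : ZMod m)) = m + i - 30 * V := by
      refine SC_eq c3 hAl (by omega) ?_
      rw [SC_castm (by omega)]
      push_cast
      rw [hA, ca, cb]
      ring
    have t1 : ((Kind.dr = .dr) ∧ (Kind.ac = .ac)) := by simp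
    have t2 : ¬ ((Kind.dr = .dr) ∧ (Kind.ac = .dc)) := by simp
    rw [if_pos t1, if_neg t2]
    unfold gofs bofs
    simp only []
    rw [eA, eB]
    constructor <;> omega
  · have e1 : ((a : ZMod m) - i) + 4 * ((b : ZMod m) - i)
        = 2 * (210 * (V : ZMod m)) := by
      rw [← hUc]
      have := h1
      unfold ln at this
      simpa [kp, kq, ky] using this
    have e2 : ((a : ZMod m) - i) + ((b : ZMod m) - i) = -(210 * (V : ZMod m)) := by
      rw [← hUc]
      have := h2
      unfold ln at this
      simpa [kp, kq, ky] using this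
    have ea : a = m + i - 420 * V := by
      refine SC_eq c3 ha (by omega) ?_
      rw [SC_castm (by omega)]
      push_cast
      linear_combination 4 * e2 - e1
    have eb : b = i + 210 * V := by
      refine SC_eq c3 hb (by omega) ?_
      push_cast
      linear_combination e1 - e2
    have ca : (a : ZMod m) = i - 420 * V := by
      rw [ea, SC_castm (by omega)]; push_cast; ring
    have cb : (b : ZMod m) = i + 210 * V := by
      rw [eb]; push_cast; ring
    have eB : bI m (wU m U) i (2 * (b : ZMod m) - 4 * (a : ZMod m)) = m + i - 210 * V := by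
      refine SC_eq c6 hBl (by omega) ?_
      rw [SC_castm (by omega)]
      push_cast
      rw [hB, ca, cb]
      ring
    have eA : aI m (wU m U) i (2 * (b : ZMod m) - 4 * (a : ZMod m)) = m + i - 630 * V := by
      refine SC_eq c3 hAl (by omega) ?_
      rw [SC_castm (by omega)]
      push_cast
      rw [hA, ca, cb]
      ring
    have t1 : ¬ ((Kind.ar = .dr) ∧ (Kind.dc = .ac)) := by simp
    have t2 : ¬ ((Kind.ar = .dr) ∧ (Kind.dc = .dc)) := by simp
    rw [if_neg t1, if_neg t2]
    unfold gofs bofs
    simp only []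
    rw [eA, eB]
    constructor <;> omega
  · have e1 : ((a : ZMod m) - i) + 4 * ((b : ZMod m) - i)
        = 2 * (210 * (V : ZMod m)) := by
      rw [← hUc]
      have := h1
      unfold ln at this
      simpa [kp, kq, ky] using this
    have e2 : ((a : ZMod m) - i) + (-5) * ((b : ZMod m) - i) = -(210 * (V : ZMod m)) := by
      rw [← hUc]
      have := h2
      unfold ln at this
      simpa [kp, kq, ky] using this
    have ea : a = i + 140 * V := by
      refine SC_eq c9 ha (by omega) ?_
      push_cast
      linear_combination 5 * e1 + 4 * e2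
    have eb : b = i + 70 * V := by
      refine SC_eq c9 hb (by omega) ?_
      push_cast
      linear_combination e1 - e2
    have ca : (a : ZMod m) = i + 140 * V := by
      rw [ea]; push_cast; ring
    have cb : (b : ZMod m) = i + 70 * V := by
      rw [eb]; push_cast; ring
    have eB : bI m (wU m U) i (2 * (b : ZMod m) - 4 * (a : ZMod m)) = i + 210 * V := by
      refine SC_eq c6 hBl (by omega) ?_
      push_cast
      rw [hB, ca, cb]
      ring
    have eA : aI m (wU m U) i (2 * (b : ZMod m) - 4 * (a : ZMod m)) = i + 210 * V := by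
      refine SC_eq c3 hAl (by omega) ?_
      push_cast
      rw [hA, ca, cb]
      ring
    have t1 : ¬ ((Kind.ar = .dr) ∧ (Kind.ac = .ac)) := by simp
    have t2 : ¬ ((Kind.ar = .dr) ∧ (Kind.ac = .dc)) := by simp
    rw [if_neg t1, if_neg t2]
    unfold gofs bofs
    simp only []
    rw [eA, eB]
    constructor <;> omega

end Pool.Agent.T501Q.D
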