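import Mathlib
import Pool.Agent.T501Q.D.Tab
import Pool.Agent.T501Q.D.GT
import Pool.Agent.T501Q.D.TA
import Pool.Agent.T501Q.D.TB

set_option autoImplicit false

namespace Pool.Agent.T501Q.D


theorem SE_s {m : ℕ} (s x : ℤ) (hx : x = s * m) (h1 : -2 * (m : ℤ) < x) (h2 : x < m) (hm : 0 < m) :
    s = 0 ∨ s = -1 := by
  have hm' : (0 : ℤ) < m := by exact_mod_cast hm
  have h3 : s < 1 := by
    by_contra hc
    push Not at hc
    nlinarith
  have h4 : -2 < s := by
    by_contra hc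
    push Not at hc
    nlinarith
  omega

theorem SE_p {m : ℕ} (s x : ℤ) (hx : x = s * m) (h1 : -(m : ℤ) < x) (h2 : x < 2 * m) (hm : 0 < m) :
    s = 0 ∨ s = 1 := by
  have hm' : (0 : ℤ) < m := by exact_mod_cast hm
  have h3 : s < 2 := by
    by_contra hc
    push Not at hc
    nlinarith
  have h4 : -1 < s := by
    by_contra hc
    push Not at hc
    nlinarith
  omega

theorem sh_reg {m r : ℕ} {U : ℕ → ℕ} (g : Gen m r U) {i a b : ℕ} {κ : Kind} (hi : i < r)
    (ha : a < m) (hb : b < m) (hκ : isD κ) (h : ln m U κ i a b)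
    (hF : isFk κ → r ≤ bI m (wU m U) i (lab m a b))
    (hG : ¬ isFk κ → r ≤ aI m (wU m U) i (lab m a b)) (hab : r ≤ a ∨ r ≤ b) :
    ∃ σ, σ < 2 ∧ gofs m U κ i (lab m a b) - bofs κ a b = sg κ * σ * m := by
  have hm : 0 < m := g.mpos
  have hB := bI_lt hm (wU m U) i (lab m a b)
  have hA := aI_lt hm (wU m U) i (lab m a b)
  obtain ⟨s, hs⟩ := (ln_D_iff g.cop6 hκ).1 h
  cases κ with
  | rw => exact absurd hκ (by simp [isD])
  | cl => exact absurd hκ (by simp [isD])
  | w => exact absurd hκ (by simp [isD])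
  | dr =>
    have hF' := hF trivial
    simp only [gofs, bofs, sg] at hs ⊢
    rcases SE_s s _ hs (by omega) (by omega) hm with h0 | h0
    · subst h0
      exact ⟨0, by norm_num, by rw [hs]; push_cast; ring⟩
    · subst h0
      exact ⟨1, by norm_num, by rw [hs]; push_cast; ring⟩
  | ar =>
    have hF' := hF trivial
    simp only [gofs, bofs, sg] at hs ⊢
    rcases SE_s s _ hs (by omega) (by omega) hm with h0 | h0
    · subst h0
      exact ⟨0, by norm_num, by rw [hs]; push_cast; ring⟩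
    · subst h0
      exact ⟨1, by norm_num, by rw [hs]; push_cast; ring⟩
  | dc =>
    have hG' := hG (by simp [isFk])
    simp only [gofs, bofs, sg] at hs ⊢
    rcases SE_p s _ hs (by omega) (by omega) hm with h0 | h0
    · subst h0
      exact ⟨0, by norm_num, by rw [hs]; push_cast; ring⟩
    · subst h0
      exact ⟨1, by norm_num, by rw [hs]; push_cast; ring⟩
  | ac =>
    have hG' := hG (by simp [isFk])
    simp only [gofs, bofs, sg] at hs ⊢
    rcases SE_s s _ hs (by omega) (by omega) hm with h0 | h0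
    · subst h0
      exact ⟨0, by norm_num, by rw [hs]; push_cast; ring⟩
    · subst h0
      exact ⟨1, by norm_num, by rw [hs]; push_cast; ring⟩

theorem sh_drdc {m r : ℕ} {U : ℕ → ℕ} (g : Gen m r U) {i j a b σ1 σ2 : ℕ} (hi : i < r)
    (hj : j < r) (ha : a < m) (hb : b < m) (h1 : shOK m U .dr σ1 i a b)
    (h2 : shOK m U .dc σ2 j a b) (hB : r ≤ bI m (wU m U) i (lab m a b))
    (hA : r ≤ aI m (wU m U) j (lab m a b)) : σ1 + σ2 = 1 := by
  have hm : 0 < m := g.mpos
  have hB' := bI_lt hm (wU m U) i (lab m a b)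
  have hA' := aI_lt hm (wU m U) j (lab m a b)
  rcases h1 with ⟨h1, _⟩ | ⟨_, h1, h1'⟩
  · exact absurd h1 (by simp)
  rcases h2 with ⟨h2, _⟩ | ⟨_, h2, h2'⟩
  · exact absurd h2 (by simp)
  simp only [gofs, bofs, sg] at h1' h2'
  interval_cases σ1 <;> interval_cases σ2 <;> push_cast at h1' h2' <;> omega

theorem sh_arac {m r : ℕ} {U : ℕ → ℕ} (g : Gen m r U) {i j a b σ1 σ2 : ℕ} (hi : i < r)
    (hj : j < r) (ha : a < m) (hb : b < m) (h1 : shOK m U .ar σ1 i a b)
    (h2 : shOK m U .ac σ2 j a b) (hB : r ≤ bI m (wU m U) i (lab m a b))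
    (hA : r ≤ aI m (wU m U) j (lab m a b)) : σ1 = σ2 := by
  have hm : 0 < m := g.mpos
  have hB' := bI_lt hm (wU m U) i (lab m a b)
  have hA' := aI_lt hm (wU m U) j (lab m a b)
  rcases h1 with ⟨h1, _⟩ | ⟨_, h1, h1'⟩
  · exact absurd h1 (by simp)
  rcases h2 with ⟨h2, _⟩ | ⟨_, h2, h2'⟩
  · exact absurd h2 (by simp)
  simp only [gofs, bofs, sg] at h1' h2'
  interval_cases σ1 <;> interval_cases σ2 <;> push_cast at h1' h2' <;> omega

end Pool.Agent.T501Q.D
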