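import Mathlib
import Pool.Agent.T501Q.D.Tab
import Pool.Agent.T501Q.D.GT
import Pool.Agent.T501Q.D.TA
import Pool.Agent.T501Q.D.TB

set_option autoImplicit false

namespace Pool.Agent.T501Q.D


theorem board_of_atoms {m r : ℕ} {U : ℕ → ℕ} (g : Gen m r U) {a b : ℕ} (ha : a < m) (hb : b < m)
    (H : ℕ → ℕ → ℕ) (hle : ∀ X Y, Rg m r (wU m U) a b X Y → H X Y ≤ 12)
    (hinf : ∀ X Y, Rg m r (wU m U) a b X Y → H X Y = 12 → ∃ i, i < r ∧ onW m (wU m U) i a b)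
    (hprop : ∀ X Y X' Y', Rg m r (wU m U) a b X Y → Rg m r (wU m U) a b X' Y' →
      H X Y = H X' Y' → Att X Y X' Y' → X = X' ∧ Y = Y')
    (hat : ∀ κ i, i < r → ln m U κ i a b → Atom m r U a b H κ i) :
    BoardOK m r (wU m U) (nu m r U) (xi m r U) a b H := by
  have h6 := g.cop6
  have hm := g.mpos
  refine ⟨hle, hinf, hprop, ?_, ?_, ?_⟩
  · intro i t hi ht hne X Y hRg hH hAtt
    rcases att_split ha hb (g.lt_m hi) (bI_lt hm _ _ _) hAtt with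
      ⟨h1, h2⟩ | ⟨h1, h2⟩ | ⟨s, h1, h2⟩ | ⟨s, h1, h2⟩
    · have hA : Atom m r U a b H .rw i := hat .rw i hi ((ln_rw_iff (g.lt_m hi) ha).2 h1)
      exact hA hne t ht X Y hRg hH h2
    · have hA : Atom m r U a b H .w i := hat .w i hi (ln_w_iff.2 (onW_of_b h6 _ h1.symm))
      refine hA.1 hne t ht X Y hRg hH ?_
      rw [h2, ← h1]
    · have hA : Atom m r U a b H .dr i := hat .dr i hi ((ln_D_iff h6 (κ := .dr) trivial).2 ⟨s, h1⟩)
      exact hA hne t ht s h1 X Y hRg hH h2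
    · have hA : Atom m r U a b H .ar i := hat .ar i hi ((ln_D_iff h6 (κ := .ar) trivial).2 ⟨s, h1⟩)
      exact hA hne t ht s h1 X Y hRg hH h2
  · intro j t hj ht hne X Y hRg hH hAtt
    rcases att_split ha hb (aI_lt hm _ _ _) (g.lt_m hj) hAtt with
      ⟨h1, h2⟩ | ⟨h1, h2⟩ | ⟨s, h1, h2⟩ | ⟨s, h1, h2⟩
    · have hA : Atom m r U a b H .w j := hat .w j hj (ln_w_iff.2 (onW_of_a h6 _ h1.symm))
      refine hA.2.1 hne t ht X Y hRg hH ?_
      rw [h2, ← h1]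
    · have hA : Atom m r U a b H .cl j := hat .cl j hj ((ln_cl_iff (g.lt_m hj) hb).2 h1)
      exact hA hne t ht X Y hRg hH h2
    · have hA : Atom m r U a b H .dc j := hat .dc j hj ((ln_D_iff h6 (κ := .dc) trivial).2 ⟨s, h1⟩)
      exact hA hne t ht s h1 X Y hRg hH h2
    · have hA : Atom m r U a b H .ac j := hat .ac j hj ((ln_D_iff h6 (κ := .ac) trivial).2 ⟨s, h1⟩)
      exact hA hne t ht s h1 X Y hRg hH h2
  · intro i p q hi hp hq hon X Y hRg hH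
    have hA : Atom m r U a b H .w i := hat .w i hi (ln_w_iff.2 hon)
    exact hA.2.2 p q hp hq X Y hRg hH

theorem leaf_table {m r : ℕ} {U : ℕ → ℕ} (g : Gen m r U) {a b : ℕ} (ha : a < m) (hb : b < m)
    (T : List (List ℕ)) {sX sY mx : ℕ} (hT : TabOK T sX sY mx) (f : ℕ → ℕ)
    (hf : ∀ x, x ≤ mx → f x ≤ 12) (hf' : ∀ x y, x ≤ mx → y ≤ mx → f x = f y → x = y)
    (hreg : ∀ X Y, Rg m r (wU m U) a b X Y → X < sX ∧ Y < sY ∧ ent T X Y ≠ 13)
    (hinf : ∀ x, x ≤ mx → f x = 12 → ∃ i, i < r ∧ onW m (wU m U) i a b)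
    (hat : ∀ κ i, i < r → ln m U κ i a b →
      Atom m r U a b (fun X Y => f (ent T X Y)) κ i) : Good m r U a b := by
  refine ⟨fun X Y => f (ent T X Y), board_of_atoms g ha hb _ ?_ ?_ ?_ hat⟩
  · intro X Y hRg
    obtain ⟨h1, h2, h3⟩ := hreg X Y hRg
    exact hf _ (hT.1 X h1 Y h2 h3)
  · intro X Y hRg hH
    obtain ⟨h1, h2, h3⟩ := hreg X Y hRg
    exact hinf _ (hT.1 X h1 Y h2 h3) hH
  · intro X Y X' Y' hRg hRg' hH hAtt
    obtain ⟨h1, h2, h3⟩ := hreg X Y hRg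
    obtain ⟨h1', h2', h3'⟩ := hreg X' Y' hRg'
    have h4 := hf' _ _ (hT.1 X h1 Y h2 h3) (hT.1 X' h1' Y' h2' h3') hH
    exact hT.2 X Y X' Y' h1 h2 h1' h2' h3 h4 hAtt

end Pool.Agent.T501Q.D

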