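import Mathlib
import Pool.Agent.T501Q.D.Tab

set_option autoImplicit false

namespace Pool.Agent.T501Q.D


/-- the finite check for one pair of kinds -/
def NA_Ok (π : ℕ → ℕ) : Prop :=
  (∀ t < 12, π t < 12) ∧ (∀ t < 12, ∀ t' < 12, π t = π t' → t = t')

instance NA_dec (π : ℕ → ℕ) : Decidable (NA_Ok π) := by
  unfold NA_Ok
  infer_instance

theorem NA_w_dr : ∀ s2 < 2, NA_Ok (pVV .w 0 .dr s2) := by decide +kernel
theorem NA_w_ar : ∀ s2 < 2, NA_Ok (pVV .w 0 .ar s2) := by decide +kernel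
theorem NA_w_dc : ∀ s2 < 2, NA_Ok (pVV .w 0 .dc s2) := by decide +kernel
theorem NA_w_ac : ∀ s2 < 2, NA_Ok (pVV .w 0 .ac s2) := by decide +kernel
theorem NA_dr_ar : ∀ s1 < 2, ∀ s2 < 2, NA_Ok (pVV .dr s1 .ar s2) := by decide +kernel
theorem NA_dr_dc : ∀ s1 < 2, ∀ s2 < 2, NA_Ok (pVV .dr s1 .dc s2) := by decide +kernel
theorem NA_dr_ac : ∀ s1 < 2, ∀ s2 < 2, NA_Ok (pVV .dr s1 .ac s2) := by decide +kernel
theorem NA_ar_dc : ∀ s1 < 2, ∀ s2 < 2, NA_Ok (pVV .ar s1 .dc s2) := by decide +kernel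
theorem NA_ar_ac : ∀ s1 < 2, ∀ s2 < 2, NA_Ok (pVV .ar s1 .ac s2) := by decide +kernel
theorem NA_dc_ac : ∀ s1 < 2, ∀ s2 < 2, NA_Ok (pVV .dc s1 .ac s2) := by decide +kernel

theorem NA_sec {m r : ℕ} {U : ℕ → ℕ} {j : ℕ} {c : ZMod m} {π : ℕ → ℕ}
    (h : Sec m r U j c π) : NA_Ok π := by
  rcases h with h | h | h
  · obtain ⟨i, κ1, κ2, σ1, σ2, a, b, -, -, -, -, -, h2, h3, -, -, h4, h5, rfl⟩ := h
    rcases h5 with ⟨rfl, -⟩ | ⟨hd2, hs2, -⟩
    · exfalso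
      simp only [rk] at h2 h3
      omega
    · rcases h4 with ⟨rfl, rfl⟩ | ⟨hd1, hs1, -⟩
      · cases κ2 with
        | rw => exact False.elim hd2
        | cl => exact False.elim hd2
        | w => exact False.elim hd2
        | dr => exact NA_w_dr σ2 hs2
        | ar => exact NA_w_ar σ2 hs2
        | dc => exact NA_w_dc σ2 hs2
        | ac => exact NA_w_ac σ2 hs2
      · cases κ1 <;> cases κ2 <;>
          first
            | exact False.elim hd1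
            | exact False.elim hd2
            | exact absurd h3 (by decide)
            | exact NA_dr_ar σ1 hs1 σ2 hs2
            | exact NA_dr_dc σ1 hs1 σ2 hs2
            | exact NA_dr_ac σ1 hs1 σ2 hs2
            | exact NA_ar_dc σ1 hs1 σ2 hs2
            | exact NA_ar_ac σ1 hs1 σ2 hs2
            | exact NA_dc_ac σ1 hs1 σ2 hs2
  · obtain ⟨i, a, b, -, -, -, -, -, -, -, rfl⟩ := h
    exact ⟨pWR_lt, pWR_inj⟩
  · obtain ⟨i, a, b, -, -, -, -, -, -, -, rfl⟩ := h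
    exact ⟨pWC_lt, pWC_inj⟩

theorem NA_pn {m r : ℕ} {U : ℕ → ℕ} (j : ℕ) (c : ZMod m) : NA_Ok (pn m r U j c) := by
  unfold pn
  split_ifs with h
  · exact NA_sec (Classical.choose_spec h)
  · exact ⟨fun t ht => ht, fun t _ t' _ h => h⟩

theorem pn_lt {m r : ℕ} {U : ℕ → ℕ} (j : ℕ) (c : ZMod m) {t : ℕ} (ht : t < 12) :
    pn m r U j c t < 12 :=
  (NA_pn j c).1 t ht

theorem pn_inj {m r : ℕ} {U : ℕ → ℕ} (j : ℕ) (c : ZMod m) {t t' : ℕ} (ht : t < 12)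
    (ht' : t' < 12) (h : pn m r U j c t = pn m r U j c t') : t = t' :=
  (NA_pn j c).2 t ht t' ht' h

theorem nu_lt {m r : ℕ} {U : ℕ → ℕ} (j : ℕ) (c : ZMod m) {t : ℕ} (ht : t < 12) :
    nu m r U j c t < 12 := by
  unfold nu
  split_ifs
  · exact nWC_lt t ht
  · exact pn_lt j c ht

theorem nu_inj {m r : ℕ} {U : ℕ → ℕ} (j : ℕ) (c : ZMod m) {t t' : ℕ} (ht : t < 12)
    (ht' : t' < 12) (h : nu m r U j c t = nu m r U j c t') : t = t' := by
  unfold nu at h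
  split_ifs at h
  · exact nWC_inj t ht t' ht' h
  · exact pn_inj j c ht ht' h

theorem xi_lt {m r : ℕ} {U : ℕ → ℕ} (j : ℕ) (c : ZMod m) {t : ℕ} (ht : t < 12) :
    xi m r U j c t < 12 := by
  unfold xi
  split_ifs
  · exact xWR_lt t ht
  · exact pn_lt j c (rinv_lt t ht)

theorem xi_inj {m r : ℕ} {U : ℕ → ℕ} (j : ℕ) (c : ZMod m) {t t' : ℕ} (ht : t < 12)
    (ht' : t' < 12) (h : xi m r U j c t = xi m r U j c t') : t = t' := by
  unfold xi at h
  split_ifs at h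
  · exact xWR_inj t ht t' ht' h
  · have h1 := pn_inj j c (rinv_lt t ht) (rinv_lt t' ht') h
    have h2 := rho_rinv t ht
    have h3 := rho_rinv t' ht'
    rw [← h2, ← h3, h1]

end Pool.Agent.T501Q.D
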