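import Mathlib
import Pool.Agent.T501Q.D.Tab

/-! # Regular cells of the boards -/

set_option autoImplicit false

namespace Pool.Agent.T501Q.D

theorem Rg_PL {m r : ℕ} {w : ℕ → ZMod m} {a b X Y : ℕ} (ha : r ≤ a) (hb : r ≤ b)
    (h : Rg m r w a b X Y) : X < 12 ∧ Y < 12 := by
  obtain ⟨h1, h2, -⟩ := h
  unfold sz at h1 h2
  rw [if_neg (by omega)] at h1 h2
  exact ⟨h1, h2⟩

theorem Rg_P {m r : ℕ} {w : ℕ → ZMod m} {a b X Y : ℕ} (ha : a < r) (hb : r ≤ b)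
    (h : Rg m r w a b X Y) : X < 13 ∧ Y < 12 := by
  obtain ⟨h1, h2, -⟩ := h
  unfold sz at h1 h2
  rw [if_pos ha] at h1
  rw [if_neg (by omega)] at h2
  exact ⟨h1, h2⟩

theorem Rg_Q {m r : ℕ} {w : ℕ → ZMod m} {a b X Y : ℕ} (ha : r ≤ a) (hb : b < r)
    (h : Rg m r w a b X Y) : X < 12 ∧ Y < 13 := by
  obtain ⟨h1, h2, -⟩ := h
  unfold sz at h1 h2
  rw [if_neg (by omega)] at h1
  rw [if_pos hb] at h2
  exact ⟨h1, h2⟩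

theorem Rg_NR {m r : ℕ} {w : ℕ → ZMod m} {a b X Y : ℕ} (ha : a < r) (hb : r ≤ b)
    (hw : ¬ onW m w a a b) (h : Rg m r w a b X Y) : X < 13 ∧ Y < 12 ∧ X ≠ R Y := by
  obtain ⟨h1, h2⟩ := Rg_P ha hb h
  refine ⟨h1, h2, ?_⟩
  intro h3
  obtain ⟨-, -, h4, h5, -⟩ := h
  apply h5
  refine ⟨ha, ?_, hw, h4⟩
  unfold RF
  rw [if_neg (by omega)]
  exact h3

theorem Rg_NC {m r : ℕ} {w : ℕ → ZMod m} {a b X Y : ℕ} (ha : r ≤ a) (hb : b < r)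
    (hw : ¬ onW m w b a b) (h : Rg m r w a b X Y) : X < 12 ∧ Y < 13 ∧ Y ≠ R X := by
  obtain ⟨h1, h2⟩ := Rg_Q ha hb h
  refine ⟨h1, h2, ?_⟩
  intro h3
  obtain ⟨-, -, h4, -, h5⟩ := h
  apply h5
  refine ⟨hb, ?_, hw, h4⟩
  unfold RF
  rw [if_neg (by omega)]
  exact h3

theorem Rg_PQ {m r : ℕ} {w : ℕ → ZMod m} {a b X Y : ℕ} (ha : a < r) (hb : b < r)
    (hwa : ¬ onW m w a a b) (hwb : ¬ onW m w b a b) (h : Rg m r w a b X Y) :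
    X < 13 ∧ Y < 13 ∧ ¬ (X = 6 ∧ Y = 6) ∧ X ≠ Rc Y ∧ Y ≠ Rc X := by
  obtain ⟨h1, h2, h3, h4, h5⟩ := h
  unfold sz at h1 h2
  rw [if_pos ha] at h1
  rw [if_pos hb] at h2
  refine ⟨h1, h2, fun h6 => h3 ⟨ha, hb, h6.1, h6.2⟩, fun h6 => h4 ⟨ha, ?_, hwa, h3⟩,
    fun h6 => h5 ⟨hb, ?_, hwb, h3⟩⟩
  · unfold RF
    rw [if_pos hb]
    exact h6
  · unfold RF
    rw [if_pos ha]
    exact h6

end Pool.Agent.T501Q.D
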