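import Mathlib
import Pool.Agent.T501Q.D.Tab
import Pool.Agent.T501Q.D.AT
import Pool.Agent.T501Q.D.CLA
import Pool.Agent.T501Q.D.CLB
import Pool.Agent.T501Q.D.GT
import Pool.Agent.T501Q.D.NA
import Pool.Agent.T501Q.D.Rg
import Pool.Agent.T501Q.D.TA
import Pool.Agent.T501Q.D.TB

set_option autoImplicit false

namespace Pool.Agent.T501Q.D


theorem leaf0 {m r : ℕ} {U : ℕ → ℕ} (g : Gen m r U) {a b : ℕ} (ha : a < m) (hb : b < m)
    (ho : ∀ κ k, k < r → ¬ ln m U κ k a b) : Good m r U a b := by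
  have har : r ≤ a := by
    by_contra h
    exact ho .rw a (by omega) ((ln_rw_iff ha ha).2 rfl)
  have hbr : r ≤ b := by
    by_contra h
    exact ho .cl b (by omega) ((ln_cl_iff hb hb).2 rfl)
  refine leaf_table g ha hb tPL tPL_ok (fun n => n) ?_ ?_ ?_ ?_ ?_
  · intro x hx
    show x ≤ 12
    omega
  · intro x y _ _ h
    exact h
  · intro X Y h
    obtain ⟨h1, h2⟩ := Rg_PL har hbr h
    exact ⟨h1, h2, tPL_full X h1 Y h2⟩
  · intro x hx h
    exact absurd (show x = 12 from h) (by omega)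
  · intro κ i hi h
    exact absurd h (ho κ i hi)

theorem leaf_rw {m r : ℕ} {U : ℕ → ℕ} (g : Gen m r U) {a b e : ℕ} (ha : a < m) (hb : b < m)
    (he : e < r) (h1 : ln m U .rw e a b) (ho : Only2 m r U a b .rw e .rw e) :
    Good m r U a b := by
  have hae : a = e := (ln_rw_iff (g.lt_m he) ha).1 h1
  subst hae
  have hbr : r ≤ b := by
    by_contra h
    rcases ho .cl b (by omega) ((ln_cl_iff hb hb).2 rfl) with h2 | h2
    · exact absurd h2.1 (by decide)
    · exact absurd h2.1 (by decide)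
  have hw : ¬ onW m (wU m U) a a b := by
    intro h
    rcases ho .w a he (ln_w_iff.2 h) with h2 | h2
    · exact absurd h2.1 (by decide)
    · exact absurd h2.1 (by decide)
  refine leaf_table g ha hb tNR tNR_ok (nu m r U a (lab m a b)) ?_ ?_ ?_ ?_ ?_
  · intro x hx
    have := nu_lt (m := m) (r := r) (U := U) a (lab m a b) (t := x) (by omega)
    omega
  · intro x y hx hy h
    exact nu_inj a (lab m a b) (by omega) (by omega) h
  · intro X Y h
    obtain ⟨h2, h3, h4⟩ := Rg_NR he hbr hw h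
    exact ⟨h2, h3, fun h5 => h4 ((tNR_for X h2 Y h3).1 h5)⟩
  · intro x hx h
    have := nu_lt (m := m) (r := r) (U := U) a (lab m a b) (t := x) (by omega)
    omega
  · intro κ i hi h
    have hκ : κ = .rw ∧ i = a := by
      rcases ho κ i hi h with h2 | h2
      · exact h2
      · exact h2
    obtain ⟨rfl, rfl⟩ := hκ
    intro _ t ht X Y hR hH
    obtain ⟨h2, h3, h4⟩ := Rg_NR he hbr hw hR
    have h5 : ent tNR X Y ≠ 13 := fun h5 => h4 ((tNR_for X h2 Y h3).1 h5)
    have h6 := tNR_ok.1 X h2 Y h3 h5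
    have h7 : ent tNR X Y = t := nu_inj i (lab m i b) (by omega) ht hH
    have h8 := tNR_row X h2 Y h3 h5
    rwa [h7] at h8

theorem leaf_cl {m r : ℕ} {U : ℕ → ℕ} (g : Gen m r U) {a b q : ℕ} (ha : a < m) (hb : b < m)
    (hq : q < r) (h1 : ln m U .cl q a b) (ho : Only2 m r U a b .cl q .cl q) :
    Good m r U a b := by
  have hbq : b = q := (ln_cl_iff (g.lt_m hq) hb).1 h1
  subst hbq
  have har : r ≤ a := by
    by_contra h
    rcases ho .rw a (by omega) ((ln_rw_iff ha ha).2 rfl) with h2 | h2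
    · exact absurd h2.1 (by decide)
    · exact absurd h2.1 (by decide)
  have hw : ¬ onW m (wU m U) b a b := by
    intro h
    rcases ho .w b hq (ln_w_iff.2 h) with h2 | h2
    · exact absurd h2.1 (by decide)
    · exact absurd h2.1 (by decide)
  refine leaf_table g ha hb tNC tNC_ok (fun n => xi m r U b (lab m a b) (rho n)) ?_ ?_ ?_ ?_ ?_
  · intro x hx
    have := xi_lt (m := m) (r := r) (U := U) b (lab m a b) (rho_lt x (by omega))
    show xi m r U b (lab m a b) (rho x) ≤ 12
    omega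
  · intro x y hx hy h
    have h2 := xi_inj b (lab m a b) (rho_lt x (by omega)) (rho_lt y (by omega)) h
    rw [← rinv_rho x (by omega), ← rinv_rho y (by omega), h2]
  · intro X Y h
    obtain ⟨h2, h3, h4⟩ := Rg_NC har hq hw h
    exact ⟨h2, h3, fun h5 => h4 ((tNC_for X h2 Y h3).1 h5)⟩
  · intro x hx h
    have := xi_lt (m := m) (r := r) (U := U) b (lab m a b) (rho_lt x (by omega))
    have h2 : xi m r U b (lab m a b) (rho x) = 12 := h
    omega
  · intro κ i hi h
    have hκ : κ = .cl ∧ i = b := by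
      rcases ho κ i hi h with h2 | h2
      · exact h2
      · exact h2
    obtain ⟨rfl, rfl⟩ := hκ
    intro _ t ht X Y hR hH
    obtain ⟨h2, h3, h4⟩ := Rg_NC har hq hw hR
    have h5 : ent tNC X Y ≠ 13 := fun h5 => h4 ((tNC_for X h2 Y h3).1 h5)
    have h6 := tNC_ok.1 X h2 Y h3 h5
    have h7 : rho (ent tNC X Y) = t :=
      xi_inj i (lab m a i) (rho_lt _ (by omega)) ht hH
    have h8 := tNC_col X h2 Y h3 h5
    rwa [h7] at h8

end Pool.Agent.T501Q.D
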