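import Mathlib
import Pool.Agent.T501Q.D.Tab
import Pool.Agent.T501Q.D.CLA
import Pool.Agent.T501Q.D.CLB
import Pool.Agent.T501Q.D.GT
import Pool.Agent.T501Q.D.PP
import Pool.Agent.T501Q.D.PR
import Pool.Agent.T501Q.D.SU
import Pool.Agent.T501Q.D.TA
import Pool.Agent.T501Q.D.TB

set_option autoImplicit false

namespace Pool.Agent.T501Q.D


theorem NFD_aI {m r : ℕ} {U : ℕ → ℕ} (g : Gen m r U) {q j k a b : ℕ} {κ : Kind} (hq : q < r)
    (hj : j < r) (hk : k < r) (hκ : 3 ≤ rk κ)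
    (h1 : ln m U .cl q a b) (h2 : ln m U κ j a b) :
    r ≤ aI m (wU m U) k (lab m a b) := by
  by_contra hlt
  have hA : aI m (wU m U) k (lab m a b) < r := by omega
  have e1 : ln m U .rw (aI m (wU m U) k (lab m a b)) (aI m (wU m U) k (lab m a b))
      (bI m (wU m U) k (lab m a b)) :=
    (ln_rw_iff (g.lt_m hA) (g.lt_m hA)).2 rfl
  have e2 : ln m U .w k (aI m (wU m U) k (lab m a b)) (bI m (wU m U) k (lab m a b)) :=
    ln_w_iff.2 (onW_AB g.cop6 (wU m U) k (lab m a b))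
  have e3 : lab m (aI m (wU m U) k (lab m a b)) (bI m (wU m U) k (lab m a b)) = lab m a b :=
    lab_AB g.cop6 (wU m U) k (lab m a b)
  have e4 : rk Kind.cl < rk κ := lt_of_lt_of_le (by decide) hκ
  rcases pairs g hA hk hq hj e1 e2 h1 h2 (by decide) e4 e3 with h | h | ⟨v, h, h'⟩ | ⟨v, h, h'⟩ | h
  · exact absurd h.1 (by decide)
  · exact absurd h.2.1 (by decide)
  · rcases h'.2.2 with h3 | ⟨_, h3 | h3⟩ <;> exact absurd h3 (by decide)
  · rcases h.2.2 with h3 | ⟨_, h3 | h3⟩ <;> exact absurd h3 (by decide)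
  · rcases h.2.2.2 with h3 | h3
    · exact absurd h3.1 (by decide)
    · exact absurd h3.2.1 (by decide)

theorem NFD_bI {m r : ℕ} {U : ℕ → ℕ} (g : Gen m r U) {q j k a b : ℕ} {κ : Kind} (hq : q < r)
    (hj : j < r) (hk : k < r) (hκ : κ = .dr ∨ κ = .ar)
    (h1 : ln m U .cl q a b) (h2 : ln m U κ j a b) :
    r ≤ bI m (wU m U) k (lab m a b) := by
  by_contra hlt
  have hB : bI m (wU m U) k (lab m a b) < r := by omega
  have e1 : ln m U .cl (bI m (wU m U) k (lab m a b)) (aI m (wU m U) k (lab m a b))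
      (bI m (wU m U) k (lab m a b)) :=
    (ln_cl_iff (g.lt_m hB) (g.lt_m hB)).2 rfl
  have e2 : ln m U .w k (aI m (wU m U) k (lab m a b)) (bI m (wU m U) k (lab m a b)) :=
    ln_w_iff.2 (onW_AB g.cop6 (wU m U) k (lab m a b))
  have e3 : lab m (aI m (wU m U) k (lab m a b)) (bI m (wU m U) k (lab m a b)) = lab m a b :=
    lab_AB g.cop6 (wU m U) k (lab m a b)
  have e4 : rk Kind.cl < rk κ := by rcases hκ with h | h <;> subst h <;> decide
  rcases pairs g hB hk hq hj e1 e2 h1 h2 (by decide) e4 e3 with h | h | ⟨v, h, h'⟩ | ⟨v, h, h'⟩ | h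
  · have h3 := h.2.1
    rcases hκ with h4 | h4 <;> rw [h4] at h3 <;> exact absurd h3 (by decide)
  · exact absurd h.1 (by decide)
  · rcases h.2.2 with h3 | ⟨_, h3 | h3⟩ <;> exact absurd h3 (by decide)
  · have h3 := h'.2.1
    rcases hκ with h4 | h4 <;> rw [h4] at h3 <;> exact absurd h3 (by decide)
  · rcases h.2.2.2 with h3 | h3 <;> exact absurd h3.1 (by decide)

theorem NFD_noSec {m r : ℕ} {U : ℕ → ℕ} (g : Gen m r U) {q j k a b : ℕ} {κ : Kind} (hq : q < r)
    (hj : j < r) (hk : k < r) (hκ : κ = .dr ∨ κ = .ar ∨ κ = .dc ∨ κ = .ac)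
    (hk2 : k = q ∨ k = j) (hne : κ = .dc ∨ κ = .ac → q ≠ j)
    (h1 : ln m U .cl q a b) (h2 : ln m U κ j a b) :
    ∀ π, ¬ Sec m r U k (lab m a b) π := by
  have e4 : rk Kind.cl < rk κ := by rcases hκ with h | h | h | h <;> subst h <;> decide
  have hw : κ ≠ .w := by rcases hκ with h | h | h | h <;> subst h <;> decide
  intro π hS
  rcases hS with hS | hS | hS
  · obtain ⟨i, κ1, κ2, σ1, σ2, a', b', hi, hik, ha', hb', hl, hr1, hr2, l1, l2, -, -, -⟩ := hS
    have hr3 : κ1 ≠ .cl := fun h => by rw [h] at hr1; exact absurd hr1 (by decide)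
    have hr4 : κ1 ≠ .rw := fun h => by rw [h] at hr1; exact absurd hr1 (by decide)
    rcases pairs g hi hk hq hj l1 l2 h1 h2 hr2 e4 hl with h | h | ⟨v, h, h'⟩ | ⟨v, h, h'⟩ | h
    · exact hr3 h.1
    · exact hr4 h.1
    · rcases h'.2.2 with h3 | ⟨_, h3 | h3⟩ <;> exact absurd h3 (by decide)
    · rcases h.2.2 with h3 | ⟨h3, _⟩
      · exact hr3 h3
      · exact hik (h3.trans h.1.symm)
    · exact hik h.1
  · obtain ⟨i, a', b', hi, hik, ha', hb', hl, l1, l2, -⟩ := hS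
    rcases pairs g hk hi hq hj l1 l2 h1 h2 (by decide) e4 hl with h | h | ⟨v, h, h'⟩ | ⟨v, h, h'⟩ | h
    · exact absurd h.1 (by decide)
    · exact absurd h.2.1 (by decide)
    · rcases h'.2.2 with h3 | ⟨_, h3 | h3⟩ <;> exact absurd h3 (by decide)
    · rcases h.2.2 with h3 | ⟨_, h3 | h3⟩ <;> exact absurd h3 (by decide)
    · exact hik h.1.symm
  · obtain ⟨i, a', b', hi, hik, ha', hb', hl, l1, l2, -⟩ := hS
    rcases pairs g hk hi hq hj l1 l2 h1 h2 (by decide) e4 hl with h | h | ⟨v, h, h'⟩ | ⟨v, h, h'⟩ | h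
    · exact hw h.2.1.symm
    · exact absurd h.1 (by decide)
    · rcases h'.2.2 with h3 | ⟨_, h3 | h3⟩ <;> exact absurd h3 (by decide)
    · have hij : i = j := h.1.trans h'.1.symm
      have hkj : k ≠ j := fun h3 => hik (hij.trans h3.symm)
      have hkq : k = q := hk2.resolve_right hkj
      subst hkq
      subst hij
      have h3 := (pairs_rel g hk hi hq hj l1 l2 h1 h2 hl).2
      rcases h'.2.1 with h4 | h4 | h4
      · exact hw h4
      · subst h4
        simp only [kX] at h3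
        apply hkj
        omega
      · subst h4
        simp only [kX] at h3
        apply hkj
        omega
    · exact hik h.1.symm

theorem NF_clG {m r : ℕ} {U : ℕ → ℕ} (g : Gen m r U) {q j a b : ℕ} {κ : Kind} (hq : q < r)
    (hj : j < r) (hne : q ≠ j) (ha : a < m) (hb : b < m) (hκ : κ = .dc ∨ κ = .ac)
    (h1 : ln m U .cl q a b) (h2 : ln m U κ j a b) :
    (∀ t, xi m r U q (lab m a b) t = rinv t) ∧ (∀ t, xi m r U j (lab m a b) t = rinv t) ∧
    r ≤ aI m (wU m U) q (lab m a b) ∧ r ≤ aI m (wU m U) j (lab m a b) := by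
  have e3 : 3 ≤ rk κ := by rcases hκ with h | h <;> subst h <;> decide
  have hκ4 : κ = .dr ∨ κ = .ar ∨ κ = .dc ∨ κ = .ac := Or.inr (Or.inr hκ)
  have a1 := NFD_aI g hq hj hq e3 h1 h2
  have a2 := NFD_aI g hq hj hj e3 h1 h2
  have s1 := NFD_noSec g hq hj hq hκ4 (Or.inl rfl) (fun _ => hne) h1 h2
  have s2 := NFD_noSec g hq hj hj hκ4 (Or.inr rfl) (fun _ => hne) h1 h2
  refine ⟨fun t => ?_, fun t => ?_, a1, a2⟩
  · unfold xi
    rw [if_neg (fun h => absurd h.1 (by omega)), pn_eq_id s1]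
    rfl
  · unfold xi
    rw [if_neg (fun h => absurd h.1 (by omega)), pn_eq_id s2]
    rfl

theorem NF_clF {m r : ℕ} {U : ℕ → ℕ} (g : Gen m r U) {q j a b : ℕ} {κ : Kind} (hq : q < r)
    (hj : j < r) (ha : a < m) (hb : b < m) (hκ : κ = .dr ∨ κ = .ar)
    (h1 : ln m U .cl q a b) (h2 : ln m U κ j a b) :
    (∀ t, xi m r U q (lab m a b) t = rinv t) ∧ (∀ t, nu m r U j (lab m a b) t = t) ∧
    r ≤ aI m (wU m U) q (lab m a b) ∧ r ≤ bI m (wU m U) j (lab m a b) := by
  have e3 : 3 ≤ rk κ := by rcases hκ with h | h <;> subst h <;> decide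
  have hκ4 : κ = .dr ∨ κ = .ar ∨ κ = .dc ∨ κ = .ac := by
    rcases hκ with h | h
    · exact Or.inl h
    · exact Or.inr (Or.inl h)
  have hn : κ = .dc ∨ κ = .ac → q ≠ j := by
    intro h
    rcases hκ with h3 | h3 <;> rw [h3] at h <;> exact absurd h (by decide)
  have a1 := NFD_aI g hq hj hq e3 h1 h2
  have a2 := NFD_bI g hq hj hj hκ h1 h2
  have s1 := NFD_noSec g hq hj hq hκ4 (Or.inl rfl) hn h1 h2
  have s2 := NFD_noSec g hq hj hj hκ4 (Or.inr rfl) hn h1 h2
  refine ⟨fun t => ?_, fun t => ?_, a1, a2⟩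
  · unfold xi
    rw [if_neg (fun h => absurd h.1 (by omega)), pn_eq_id s1]
    rfl
  · unfold nu
    rw [if_neg (fun h => absurd h.1 (by omega)), pn_eq_id s2]
    rfl

end Pool.Agent.T501Q.D
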