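import Mathlib
import Pool.Agent.T501Q.D.Tab
import Pool.Agent.T501Q.D.GT
import Pool.Agent.T501Q.D.TA
import Pool.Agent.T501Q.D.TB

set_option autoImplicit false

namespace Pool.Agent.T501Q.D

theorem SA_int {m : ℕ} {x s : ℤ} (hm : 0 < m) (h1 : 0 < x) (h2 : x < 2 * (m : ℤ))
    (hs : x = s * m) : s = 1 := by
  have hm0 : (0 : ℤ) < m := by exact_mod_cast hm
  have a1 : 0 < s := by
    by_contra hc
    have hc : s ≤ 0 := by omega
    nlinarith
  have a2 : s < 2 := by
    by_contra hc
    have hc : 2 ≤ s := by omega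
    nlinarith
  omega

theorem SA_int0 {m : ℕ} {x s : ℤ} (hm : 0 < m) (h1 : -(m : ℤ) < x) (h2 : x < m)
    (hs : x = s * m) : s = 0 := by
  have hm0 : (0 : ℤ) < m := by exact_mod_cast hm
  have a1 : -1 < s := by
    by_contra hc
    have hc : s ≤ -1 := by omega
    nlinarith
  have a2 : s < 1 := by
    by_contra hc
    have hc : 1 ≤ s := by omega
    nlinarith
  omega

theorem SA_pos {m r : ℕ} {U : ℕ → ℕ} (g : Gen m r U) {b j a : ℕ} {κ : Kind} (hq : a < r)
    (hj : j < r) (hb : b < m) (hκ : isD κ) (h2 : ln m U κ j a b) :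
    2 * r ≤ b ∧ b + 2 * r ≤ m := by
  have hq' : (a : ℤ) < r := by exact_mod_cast hq
  have hj' : (j : ℤ) < r := by exact_mod_cast hj
  cases κ with
  | rw => exact absurd hκ id
  | cl => exact absurd hκ id
  | w => exact absurd hκ id
  | dr =>
    refine pos_of g (q := 4) (α := 2) (s := 5 * a - j) hb hj (by norm_num) (by norm_num)
      (by norm_num) (by norm_num) (by rw [abs_le]; constructor <;> omega) ?_
    simp only [ln, kp, kq, ky] at h2
    push_cast at h2 ⊢
    linear_combination -h2
  | ar =>
    refine pos_of g (q := 4) (α := 2) (s := 5 * j - a) hb hj (by norm_num) (by norm_num)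
      (by norm_num) (by norm_num) (by rw [abs_le]; constructor <;> omega) ?_
    simp only [ln, kp, kq, ky] at h2
    push_cast at h2 ⊢
    linear_combination h2
  | dc =>
    refine pos_of g (q := 1) (α := -1) (s := 2 * j - a) hb hj (by norm_num) (by norm_num)
      (by norm_num) (by norm_num) (by rw [abs_le]; constructor <;> omega) ?_
    simp only [ln, kp, kq, ky] at h2
    push_cast at h2 ⊢
    linear_combination h2
  | ac =>
    refine pos_of g (q := 5) (α := 1) (s := a + 4 * j) hb hj (by norm_num) (by norm_num)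
      (by norm_num) (by norm_num) (by rw [abs_le]; constructor <;> omega) ?_
    simp only [ln, kp, kq, ky] at h2
    push_cast at h2 ⊢
    linear_combination -h2

theorem sh_rw {m r : ℕ} {U : ℕ → ℕ} (g : Gen m r U) {e j a b : ℕ} {κ : Kind} (he : e < r)
    (hj : j < r) (ha : a < m) (hb : b < m) (hκ : isD κ) (h1 : ln m U .rw e a b)
    (h2 : ln m U κ j a b) :
    gofs m U κ j (lab m a b) - bofs κ a b = if κ = .dc then (m : ℤ) else 0 := by
  have hbq : a = e := (ln_rw_iff (g.lt_m he) ha).mp h1
  subst hbq
  have hm0 : (0 : ℤ) < m := by exact_mod_cast g.mpos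
  have hB : bI m (wU m U) j (lab m a b) < m := bI_lt g.mpos _ _ _
  have hA : aI m (wU m U) j (lab m a b) < m := aI_lt g.mpos _ _ _
  have hq' : (a : ℤ) < r := by exact_mod_cast he
  have hj' : (j : ℤ) < r := by exact_mod_cast hj
  have hpos : 2 * r ≤ b ∧ b + 2 * r ≤ m := SA_pos g he hj hb hκ h2
  obtain ⟨s, hs⟩ := (ln_D_iff g.cop6 hκ).mp h2
  rw [hs]
  cases κ with
  | rw => exact absurd hκ id
  | cl => exact absurd hκ id
  | w => exact absurd hκ id
  | dr =>
    simp only [gofs, bofs] at hs
    have : s = 0 := SA_int0 (m := m) (by omega) (by omega) (by omega) hs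
    subst this
    simp
  | ar =>
    simp only [gofs, bofs] at hs
    have : s = 0 := SA_int0 (m := m) (by omega) (by omega) (by omega) hs
    subst this
    simp
  | dc =>
    simp only [gofs, bofs] at hs
    have : s = 1 := SA_int (m := m) (by omega) (by omega) (by omega) hs
    subst this
    simp
  | ac =>
    simp only [gofs, bofs] at hs
    have : s = 0 := SA_int0 (m := m) (by omega) (by omega) (by omega) hs
    subst this
    simp

end Pool.Agent.T501Q.D
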