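import Mathlib
import Pool.Agent.T501Q.D.Tab
import Pool.Agent.T501Q.D.AT
import Pool.Agent.T501Q.D.CLA
import Pool.Agent.T501Q.D.CLB
import Pool.Agent.T501Q.D.GT
import Pool.Agent.T501Q.D.NA
import Pool.Agent.T501Q.D.NFD
import Pool.Agent.T501Q.D.Rg
import Pool.Agent.T501Q.D.SA
import Pool.Agent.T501Q.D.SB
import Pool.Agent.T501Q.D.SC
import Pool.Agent.T501Q.D.TA
import Pool.Agent.T501Q.D.TB

set_option autoImplicit false

namespace Pool.Agent.T501Q.D


theorem LCD_s {m : ℕ} (hm : 0 < m) {x s y : ℤ} (h : x = y * m) (h' : x = s * m) : s = y := by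
  have hm' : (m : ℤ) ≠ 0 := by exact_mod_cast hm.ne'
  exact mul_right_cancel₀ hm' (h'.symm.trans h)

theorem LCD_rho {t : ℕ} (ht : t < 12) : rho (rinv t) = t := rho_rinv t ht

theorem LCD_kk {r c t : ℕ} (h : r ≤ c) : kk r c t = t := by
  unfold kk
  rw [if_neg (by omega)]

theorem leaf_clD {m r : ℕ} {U : ℕ → ℕ} (g : Gen m r U) {a b q j : ℕ} {κ : Kind} (ha : a < m)
    (hb : b < m) (hq : q < r) (hj : j < r) (hκ : isD κ) (hne : ¬ isFk κ → q ≠ j)
    (h1 : ln m U .cl q a b) (h2 : ln m U κ j a b) (ho : Only2 m r U a b .cl q κ j) :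
    Good m r U a b := by
  have hm := g.mpos
  have hbq : b = q := (ln_cl_iff (g.lt_m hq) hb).1 h1
  have hbr : b < r := by omega
  have hra : r ≤ a := by
    by_contra hc
    have har : a < r := by omega
    have hl : ln m U .rw a a b := (ln_rw_iff (g.lt_m har) ha).2 rfl
    rcases ho .rw a har hl with ⟨h, _⟩ | ⟨h, _⟩
    · exact absurd h (by decide)
    · rw [← h] at hκ; exact hκ
  have hW : ∀ i, i < r → ¬ onW m (wU m U) i a b := by
    intro i hi hon
    rcases ho .w i hi (ln_w_iff.2 hon) with ⟨h, _⟩ | ⟨h, _⟩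
    · exact absurd h (by decide)
    · rw [← h] at hκ; exact hκ
  have hreg0 : ∀ X Y, Rg m r (wU m U) a b X Y → X < 12 ∧ Y < 13 ∧ Y ≠ R X :=
    fun X Y h => Rg_NC hra hbr (hW b hbr) h
  -- general assembly
  have main : ∀ (T : List (List ℕ)), TabOK T 12 13 11 →
      (∀ X < (12 : ℕ), ∀ Y < (13 : ℕ), (ent T X Y = 13 ↔ Y = R X)) →
      (∀ X Y, X < 12 → Y < 13 → ent T X Y ≠ 13 → Y ≠ R (rho (ent T X Y))) →
      (∀ t, xi m r U q (lab m a b) t = rinv t) →
      Atom m r U a b (fun X Y => (fun x : ℕ => x) (ent T X Y)) κ j → Good m r U a b := by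
    intro T hT hfor hcol hxi hAt
    refine leaf_table g ha hb T hT (fun x => x) (fun x hx => by omega) (fun x y _ _ h => h)
      ?_ ?_ ?_
    · intro X Y h
      obtain ⟨hX, hY, hn⟩ := hreg0 X Y h
      exact ⟨hX, hY, fun h13 => hn ((hfor X hX Y hY).1 h13)⟩
    · intro x hx h12
      exact absurd h12 (by omega)
    · intro κ' i hi hl
      rcases ho κ' i hi hl with ⟨h, h'⟩ | ⟨h, h'⟩
      · subst h
        subst h'
        show ¬ onW m (wU m U) i (aI m (wU m U) i (lab m a b)) i →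
          ∀ t, t < 12 → ∀ X Y, Rg m r (wU m U) a b X Y →
            (fun X Y => (fun x : ℕ => x) (ent T X Y)) X Y = xi m r U i (lab m a b) t → Y ≠ R t
        intro _ t ht X Y hR hH
        obtain ⟨hX, hY, hn⟩ := hreg0 X Y hR
        have h13 : ent T X Y ≠ 13 := fun h13 => hn ((hfor X hX Y hY).1 h13)
        have h3 := hcol X Y hX hY h13
        have hH' : ent T X Y = rinv t := by rw [← hxi t]; exact hH
        rw [hH', rho_rinv t ht] at h3
        exact h3
      · subst h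
        subst h'
        exact hAt
  have h13 : ∀ (T : List (List ℕ)), (∀ X < (12 : ℕ), ∀ Y < (13 : ℕ), (ent T X Y = 13 ↔ Y = R X)) →
      ∀ X Y, Rg m r (wU m U) a b X Y → ent T X Y ≠ 13 := by
    intro T hfor X Y h h13
    obtain ⟨hX, hY, hn⟩ := hreg0 X Y h
    exact hn ((hfor X hX Y hY).1 h13)
  have hsh := sh_cl g hq hj ha hb hκ h1 h2
  match κ, hκ, hne, h2, ho, main, hsh with
  | .dr, hκ, hne, h2, ho, main, hsh =>
    obtain ⟨hxi, hnu, _, hbI⟩ := NF_clF g hq hj ha hb (Or.inl rfl) h1 h2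
    refine main tNCdr tNCdr_ok tNCdr_for (fun X Y hX hY h => tNCdr_col X hX Y hY h) hxi ?_
    show ¬ onW m (wU m U) j j (bI m (wU m U) j (lab m a b)) →
      ∀ t, t < 12 → ∀ s : ℤ, gofs m U .dr j (lab m a b) - bofs .dr a b = s * m →
        ∀ X Y, Rg m r (wU m U) a b X Y → (fun X Y => (fun x : ℕ => x) (ent tNCdr X Y)) X Y =
          nu m r U j (lab m a b) t →
          (X : ℤ) - Y ≠ (R t : ℤ) - kk r (bI m (wU m U) j (lab m a b)) t + s
    intro _ t ht s hs X Y hR hH
    obtain ⟨hX, hY, hn⟩ := hreg0 X Y hR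
    have hH' : ent tNCdr X Y = t := by rw [← hnu t]; exact hH
    have h3 := tNCdr_av X hX Y hY (h13 tNCdr tNCdr_for X Y hR)
    rw [hH'] at h3
    have hs' : s = -1 := by
      rw [if_pos rfl] at hsh
      exact LCD_s hm (by rw [hsh]; ring) hs
    rw [LCD_kk hbI, hs']
    have hJ : J .dr 1 t = (R t : ℤ) - t + -1 := by
      show (if (1 : ℕ) = 2 then (R t : ℤ) - kap t else (R t : ℤ) - t - (1 : ℕ)) = _
      rw [if_neg (by decide)]
      push_cast
      ring
    rw [← hJ]
    exact h3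
  | .ar, hκ, hne, h2, ho, main, hsh =>
    obtain ⟨hxi, hnu, _, hbI⟩ := NF_clF g hq hj ha hb (Or.inr rfl) h1 h2
    refine main tNCar tNCar_ok tNCar_for (fun X Y hX hY h => tNCar_col X hX Y hY h) hxi ?_
    show ¬ onW m (wU m U) j j (bI m (wU m U) j (lab m a b)) →
      ∀ t, t < 12 → ∀ s : ℤ, gofs m U .ar j (lab m a b) - bofs .ar a b = s * m →
        ∀ X Y, Rg m r (wU m U) a b X Y → (fun X Y => (fun x : ℕ => x) (ent tNCar X Y)) X Y =
          nu m r U j (lab m a b) t →
          (X : ℤ) + Y ≠ (R t : ℤ) + kk r (bI m (wU m U) j (lab m a b)) t + s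
    intro _ t ht s hs X Y hR hH
    obtain ⟨hX, hY, hn⟩ := hreg0 X Y hR
    have hH' : ent tNCar X Y = t := by rw [← hnu t]; exact hH
    have h3 := tNCar_av X hX Y hY (h13 tNCar tNCar_for X Y hR)
    rw [hH'] at h3
    have hs' : s = 0 := by
      rw [if_neg (by decide)] at hsh
      exact LCD_s hm (by rw [hsh]; ring) hs
    rw [LCD_kk hbI, hs']
    have hJ : J .ar 0 t = (R t : ℤ) + t + 0 := by
      show (if (0 : ℕ) = 2 then (R t : ℤ) + kap t - 1 else (R t : ℤ) + t - (0 : ℕ)) = _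
      rw [if_neg (by decide)]
      push_cast
      ring
    rw [← hJ]
    exact h3
  | .dc, hκ, hne, h2, ho, main, hsh =>
    obtain ⟨hxi, hxj, _, haI⟩ := NF_clG g hq hj (hne (by unfold isFk; exact id)) ha hb
      (Or.inl rfl) h1 h2
    refine main tNCdc tNCdc_ok tNCdc_for (fun X Y hX hY h => tNCdc_col X hX Y hY h) hxi ?_
    show ¬ onW m (wU m U) j (aI m (wU m U) j (lab m a b)) j →
      ∀ t, t < 12 → ∀ s : ℤ, gofs m U .dc j (lab m a b) - bofs .dc a b = s * m →
        ∀ X Y, Rg m r (wU m U) a b X Y → (fun X Y => (fun x : ℕ => x) (ent tNCdc X Y)) X Y =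
          xi m r U j (lab m a b) t →
          (X : ℤ) - Y ≠ (kk r (aI m (wU m U) j (lab m a b)) t : ℤ) - R t + s
    intro _ t ht s hs X Y hR hH
    obtain ⟨hX, hY, hn⟩ := hreg0 X Y hR
    have hH' : ent tNCdc X Y = rinv t := by rw [← hxj t]; exact hH
    have h3 := tNCdc_av X hX Y hY (h13 tNCdc tNCdc_for X Y hR)
    rw [hH', rho_rinv t ht] at h3
    have hs' : s = 0 := by
      rw [if_neg (by decide)] at hsh
      exact LCD_s hm (by rw [hsh]; ring) hs
    rw [LCD_kk haI, hs']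
    have hJ : J .dc 0 t = (t : ℤ) - R t + 0 := by
      show (if (0 : ℕ) = 2 then (kap t : ℤ) - R t else (t : ℤ) - R t + (0 : ℕ)) = _
      rw [if_neg (by decide)]
      push_cast
      ring
    rw [← hJ]
    exact h3
  | .ac, hκ, hne, h2, ho, main, hsh =>
    obtain ⟨hxi, hxj, _, haI⟩ := NF_clG g hq hj (hne (by unfold isFk; exact id)) ha hb
      (Or.inr rfl) h1 h2
    refine main tNCac tNCac_ok tNCac_for (fun X Y hX hY h => tNCac_col X hX Y hY h) hxi ?_
    show ¬ onW m (wU m U) j (aI m (wU m U) j (lab m a b)) j →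
      ∀ t, t < 12 → ∀ s : ℤ, gofs m U .ac j (lab m a b) - bofs .ac a b = s * m →
        ∀ X Y, Rg m r (wU m U) a b X Y → (fun X Y => (fun x : ℕ => x) (ent tNCac X Y)) X Y =
          xi m r U j (lab m a b) t →
          (X : ℤ) + Y ≠ (kk r (aI m (wU m U) j (lab m a b)) t : ℤ) + R t + s
    intro _ t ht s hs X Y hR hH
    obtain ⟨hX, hY, hn⟩ := hreg0 X Y hR
    have hH' : ent tNCac X Y = rinv t := by rw [← hxj t]; exact hH
    have h3 := tNCac_av X hX Y hY (h13 tNCac tNCac_for X Y hR)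
    rw [hH', rho_rinv t ht] at h3
    have hs' : s = 0 := by
      rw [if_neg (by decide)] at hsh
      exact LCD_s hm (by rw [hsh]; ring) hs
    rw [LCD_kk haI, hs']
    have hJ : J .ac 0 t = (t : ℤ) + R t + 0 := by
      show (if (0 : ℕ) = 2 then (kap t : ℤ) + R t - 1 else (t : ℤ) + R t - (0 : ℕ)) = _
      rw [if_neg (by decide)]
      push_cast
      ring
    rw [← hJ]
    exact h3
  | .rw, hκ, _, _, _, _, _ => exact absurd hκ (by unfold isD; exact id)
  | .cl, hκ, _, _, _, _, _ => exact absurd hκ (by unfold isD; exact id)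
  | .w, hκ, _, _, _, _, _ => exact absurd hκ (by unfold isD; exact id)

end Pool.Agent.T501Q.D
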