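import Mathlib
import Pool.Agent.T501Q.D.Tab
import Pool.Agent.T501Q.D.AT
import Pool.Agent.T501Q.D.CLA
import Pool.Agent.T501Q.D.CLB
import Pool.Agent.T501Q.D.GT
import Pool.Agent.T501Q.D.NA
import Pool.Agent.T501Q.D.Rg
import Pool.Agent.T501Q.D.SD
import Pool.Agent.T501Q.D.SE
import Pool.Agent.T501Q.D.SF
import Pool.Agent.T501Q.D.TA
import Pool.Agent.T501Q.D.TB

set_option autoImplicit false

namespace Pool.Agent.T501Q.D


theorem LDC_region {m r : ℕ} {U : ℕ → ℕ} {a b i : ℕ} {κ : Kind} (ha : a < m)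
    (hb : b < m) (hκ : isD κ) (ho : Only2 m r U a b κ i κ i) : r ≤ a ∧ r ≤ b := by
  constructor
  · by_contra h
    push Not at h
    rcases ho .rw a h ((ln_rw_iff ha ha).2 rfl) with h1 | h1
    · rw [← h1.1] at hκ
      exact hκ
    · rw [← h1.1] at hκ
      exact hκ
  · by_contra h
    push Not at h
    rcases ho .cl b h ((ln_cl_iff hb hb).2 rfl) with h1 | h1
    · rw [← h1.1] at hκ
      exact hκ
    · rw [← h1.1] at hκ
      exact hκ

theorem LDC_s0 {m : ℕ} (hm : 0 < m) {s : ℤ} (h : (0 : ℤ) = s * m) : s = 0 := by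
  have h1 : (m : ℤ) ≠ 0 := by exact_mod_cast hm.ne'
  exact (mul_eq_zero.1 h.symm).resolve_right h1

theorem LDC_s1 {m : ℕ} (hm : 0 < m) {s : ℤ} (h : -(m : ℤ) = s * m) : s = -1 := by
  have h1 : (m : ℤ) ≠ 0 := by exact_mod_cast hm.ne'
  have h2 : (s + 1) * (m : ℤ) = 0 := by linarith
  have h3 := (mul_eq_zero.1 h2).resolve_right h1
  linarith

theorem LDC_ent {X Y : ℕ} (hX : X < 12) (hY : Y < 12) : ent tPL X Y < 12 := by
  have h := tPL_ok.1 X hX Y hY (tPL_full X hX Y hY)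
  omega

/-- the general scheme -/
theorem LDC_gen {m r : ℕ} {U : ℕ → ℕ} (g : Gen m r U) {a b i : ℕ} {κ : Kind} (ha : a < m)
    (hb : b < m) (hκ : isD κ) (ho : Only2 m r U a b κ i κ i) (F : ℕ → ℕ)
    (hFlt : ∀ t, t < 12 → F t < 12) (hFinj : ∀ t t', t < 12 → t' < 12 → F t = F t' → t = t')
    (hM : ∀ t < 12, MIt κ 2 t < 12) (hMinv : ∀ t < 12, Mt κ 2 (MIt κ 2 t) = t)
    (hat : Atom m r U a b (fun X Y => F (MIt κ 2 (ent tPL X Y))) κ i) : Good m r U a b := by
  obtain ⟨hra, hrb⟩ := LDC_region ha hb hκ ho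
  refine leaf_table g ha hb tPL tPL_ok (fun x => F (MIt κ 2 x)) ?_ ?_ ?_ ?_ ?_
  · intro x hx
    exact (hFlt _ (hM x (by omega))).le
  · intro x y hx hy hxy
    have h1 := hFinj _ _ (hM x (by omega)) (hM y (by omega)) hxy
    rw [← hMinv x (by omega), h1, hMinv y (by omega)]
  · intro X Y h
    obtain ⟨hX, hY⟩ := Rg_PL hra hrb h
    exact ⟨hX, hY, tPL_full X hX Y hY⟩
  · intro x hx hx2
    have h1 := hFlt _ (hM x (by omega))
    have h2 : F (MIt κ 2 x) = 12 := hx2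
    omega
  · intro κ' k hk hln
    have h3 : κ' = κ ∧ k = i := by
      rcases ho κ' k hk hln with h1 | h1
      · exact h1
      · exact h1
    obtain ⟨rfl, rfl⟩ := h3
    exact hat

theorem leaf_Dcen {m r : ℕ} {U : ℕ → ℕ} (g : Gen m r U) {a b i : ℕ} {κ : Kind} (ha : a < m)
    (hb : b < m) (hi : i < r) (hκ : isD κ) (h1 : ln m U κ i a b)
    (ho : Only2 m r U a b κ i κ i) (hF : isFk κ → bI m (wU m U) i (lab m a b) < r)
    (hG : ¬ isFk κ → aI m (wU m U) i (lab m a b) < r) : Good m r U a b := by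
  obtain ⟨hra, hrb⟩ := LDC_region ha hb hκ ho
  have hm := g.mpos
  cases κ with
  | rw => exact absurd hκ (by simp [isD])
  | cl => exact absurd hκ (by simp [isD])
  | w => exact absurd hκ (by simp [isD])
  | dr =>
    have hB : bI m (wU m U) i (lab m a b) < r := hF (by simp [isFk])
    refine LDC_gen g ha hb hκ ho (fun t => nu m r U i (lab m a b) t) (fun t ht => nu_lt _ _ ht)
      (fun t t' ht ht' h => nu_inj _ _ ht ht' h) (fun t ht => (MIt_lt 2 (by norm_num) t ht).1)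
      (fun t ht => (Mt_MIt 2 (by norm_num) t ht).1) ?_
    intro _ t ht s hs X Y hR hH
    obtain ⟨hX, hY⟩ := Rg_PL hra hrb hR
    have h2 := sh_cenF g hi ha hb (Or.inl rfl) h1 hB
    rw [hs, if_neg (by simp)] at h2
    have h3 := LDC_s0 hm h2.symm
    have h4 := nu_inj _ _ ((MIt_lt 2 (by norm_num) _ (LDC_ent hX hY)).1) ht hH
    have h5 := tPL_dr 2 (by norm_num) X hX Y hY
    rw [h4] at h5
    simp only [J, if_true] at h5
    rw [h3, add_zero, kk, if_pos hB]
    exact h5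
  | ar =>
    have hB : bI m (wU m U) i (lab m a b) < r := hF (by simp [isFk])
    refine LDC_gen g ha hb hκ ho (fun t => nu m r U i (lab m a b) t) (fun t ht => nu_lt _ _ ht)
      (fun t t' ht ht' h => nu_inj _ _ ht ht' h) (fun t ht => (MIt_lt 2 (by norm_num) t ht).2.1)
      (fun t ht => (Mt_MIt 2 (by norm_num) t ht).2.1) ?_
    intro _ t ht s hs X Y hR hH
    obtain ⟨hX, hY⟩ := Rg_PL hra hrb hR
    have h2 := sh_cenF g hi ha hb (Or.inr rfl) h1 hB
    rw [hs, if_pos rfl] at h2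
    have h3 := LDC_s1 hm h2.symm
    have h4 := nu_inj _ _ ((MIt_lt 2 (by norm_num) _ (LDC_ent hX hY)).2.1) ht hH
    have h5 := tPL_ar 2 (by norm_num) X hX Y hY
    rw [h4] at h5
    simp only [J, if_true] at h5
    rw [h3, kk, if_pos hB, ← sub_eq_add_neg]
    exact h5
  | dc =>
    have hA : aI m (wU m U) i (lab m a b) < r := hG (by simp [isFk])
    refine LDC_gen g ha hb hκ ho (fun t => xi m r U i (lab m a b) t) (fun t ht => xi_lt _ _ ht)
      (fun t t' ht ht' h => xi_inj _ _ ht ht' h) (fun t ht => (MIt_lt 2 (by norm_num) t ht).2.2.1)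
      (fun t ht => (Mt_MIt 2 (by norm_num) t ht).2.2.1) ?_
    intro _ t ht s hs X Y hR hH
    obtain ⟨hX, hY⟩ := Rg_PL hra hrb hR
    have h2 := sh_cenG g hi ha hb (Or.inl rfl) h1 hA
    rw [hs, if_neg (by simp)] at h2
    have h3 := LDC_s0 hm h2.symm
    have h4 := xi_inj _ _ ((MIt_lt 2 (by norm_num) _ (LDC_ent hX hY)).2.2.1) ht hH
    have h5 := tPL_dc 2 (by norm_num) X hX Y hY
    rw [h4] at h5
    simp only [J, if_true] at h5
    rw [h3, add_zero, kk, if_pos hA]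
    exact h5
  | ac =>
    have hA : aI m (wU m U) i (lab m a b) < r := hG (by simp [isFk])
    refine LDC_gen g ha hb hκ ho (fun t => xi m r U i (lab m a b) t) (fun t ht => xi_lt _ _ ht)
      (fun t t' ht ht' h => xi_inj _ _ ht ht' h) (fun t ht => (MIt_lt 2 (by norm_num) t ht).2.2.2)
      (fun t ht => (Mt_MIt 2 (by norm_num) t ht).2.2.2) ?_
    intro _ t ht s hs X Y hR hH
    obtain ⟨hX, hY⟩ := Rg_PL hra hrb hR
    have h2 := sh_cenG g hi ha hb (Or.inr rfl) h1 hA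
    rw [hs, if_pos rfl] at h2
    have h3 := LDC_s1 hm h2.symm
    have h4 := xi_inj _ _ ((MIt_lt 2 (by norm_num) _ (LDC_ent hX hY)).2.2.2) ht hH
    have h5 := tPL_ac 2 (by norm_num) X hX Y hY
    rw [h4] at h5
    simp only [J, if_true] at h5
    rw [h3, kk, if_pos hA, ← sub_eq_add_neg]
    exact h5

end Pool.Agent.T501Q.D
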