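import Mathlib
import Pool.Agent.T501Q.D.Tab
import Pool.Agent.T501Q.D.AT
import Pool.Agent.T501Q.D.CLA
import Pool.Agent.T501Q.D.CLB
import Pool.Agent.T501Q.D.GT
import Pool.Agent.T501Q.D.NA
import Pool.Agent.T501Q.D.NFE
import Pool.Agent.T501Q.D.Rg
import Pool.Agent.T501Q.D.SA
import Pool.Agent.T501Q.D.SB
import Pool.Agent.T501Q.D.SC
import Pool.Agent.T501Q.D.TA
import Pool.Agent.T501Q.D.TB

set_option autoImplicit false

namespace Pool.Agent.T501Q.D


theorem LLK_kk {r b t : ℕ} (h : r ≤ b) : kk r b t = t := by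
  unfold kk
  rw [if_neg (not_lt.mpr h)]

theorem LLK_s {m : ℕ} (hm : 0 < m) {s σ : ℤ} (h : σ * (m : ℤ) = s * m) : s = σ := by
  have hm' : (m : ℤ) ≠ 0 := by exact_mod_cast hm.ne'
  exact (mul_right_cancel₀ hm' h).symm

theorem LLK_dr {m r : ℕ} {U : ℕ → ℕ} {a b i : ℕ} (hm : 0 < m) (ha : r ≤ a) (hb : r ≤ b)
    (T : List (List ℕ)) (σ : ℤ)
    (hnu : ∀ t, nu m r U i (lab m a b) t = t) (hB : r ≤ bI m (wU m U) i (lab m a b))
    (hsh : gofs m U .dr i (lab m a b) - bofs .dr a b = -σ * m)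
    (hav : ∀ X < (12 : ℕ), ∀ Y < (12 : ℕ), (X : ℤ) - Y ≠ (R (ent T X Y) : ℤ) - ent T X Y - σ) :
    Atom m r U a b (fun X Y => id (ent T X Y)) .dr i := by
  intro _ t ht s hs X Y hR hH
  obtain ⟨hX, hY⟩ := Rg_PL ha hb hR
  rw [hsh] at hs
  have hs' := LLK_s hm hs
  rw [hnu t] at hH
  simp only [id] at hH
  rw [LLK_kk hB, hs', ← hH]
  have := hav X hX Y hY
  intro h
  apply this
  rw [h]
  ring

theorem LLK_ar {m r : ℕ} {U : ℕ → ℕ} {a b i : ℕ} (hm : 0 < m) (ha : r ≤ a) (hb : r ≤ b)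
    (T : List (List ℕ)) (σ : ℤ)
    (hnu : ∀ t, nu m r U i (lab m a b) t = t) (hB : r ≤ bI m (wU m U) i (lab m a b))
    (hsh : gofs m U .ar i (lab m a b) - bofs .ar a b = -σ * m)
    (hav : ∀ X < (12 : ℕ), ∀ Y < (12 : ℕ), (X : ℤ) + Y ≠ (R (ent T X Y) : ℤ) + ent T X Y - σ) :
    Atom m r U a b (fun X Y => id (ent T X Y)) .ar i := by
  intro _ t ht s hs X Y hR hH
  obtain ⟨hX, hY⟩ := Rg_PL ha hb hR
  rw [hsh] at hs
  have hs' := LLK_s hm hs
  rw [hnu t] at hH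
  simp only [id] at hH
  rw [LLK_kk hB, hs', ← hH]
  have := hav X hX Y hY
  intro h
  apply this
  rw [h]
  ring

theorem LLK_dc {m r : ℕ} {U : ℕ → ℕ} {a b i : ℕ} (hm : 0 < m) (ha : r ≤ a) (hb : r ≤ b)
    (T : List (List ℕ)) (σ : ℤ)
    (hxi : ∀ t, xi m r U i (lab m a b) t = rinv t) (hA : r ≤ aI m (wU m U) i (lab m a b))
    (hsh : gofs m U .dc i (lab m a b) - bofs .dc a b = σ * m)
    (hav : ∀ X < (12 : ℕ), ∀ Y < (12 : ℕ),
      (X : ℤ) - Y ≠ (rho (ent T X Y) : ℤ) - R (rho (ent T X Y)) + σ) :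
    Atom m r U a b (fun X Y => id (ent T X Y)) .dc i := by
  intro _ t ht s hs X Y hR hH
  obtain ⟨hX, hY⟩ := Rg_PL ha hb hR
  rw [hsh] at hs
  have hs' := LLK_s hm hs
  rw [hxi t] at hH
  simp only [id] at hH
  have h2 : rho (ent T X Y) = t := by rw [hH]; exact rho_rinv t ht
  rw [LLK_kk hA, hs']
  have h3 := hav X hX Y hY
  rw [h2] at h3
  exact h3

theorem LLK_ac {m r : ℕ} {U : ℕ → ℕ} {a b i : ℕ} (hm : 0 < m) (ha : r ≤ a) (hb : r ≤ b)
    (T : List (List ℕ)) (σ : ℤ)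
    (hxi : ∀ t, xi m r U i (lab m a b) t = rinv t) (hA : r ≤ aI m (wU m U) i (lab m a b))
    (hsh : gofs m U .ac i (lab m a b) - bofs .ac a b = -σ * m)
    (hav : ∀ X < (12 : ℕ), ∀ Y < (12 : ℕ),
      (X : ℤ) + Y ≠ (rho (ent T X Y) : ℤ) + R (rho (ent T X Y)) - σ) :
    Atom m r U a b (fun X Y => id (ent T X Y)) .ac i := by
  intro _ t ht s hs X Y hR hH
  obtain ⟨hX, hY⟩ := Rg_PL ha hb hR
  rw [hsh] at hs
  have hs' := LLK_s hm hs
  rw [hxi t] at hH
  simp only [id] at hH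
  have h2 : rho (ent T X Y) = t := by rw [hH]; exact rho_rinv t ht
  rw [LLK_kk hA, hs']
  have h3 := hav X hX Y hY
  rw [h2] at h3
  intro h
  apply h3
  rw [h]
  ring

theorem LLK_core {m r : ℕ} {U : ℕ → ℕ} (g : Gen m r U) {a b i : ℕ} {κ κ' : Kind} (ha : a < m)
    (hb : b < m) (hra : r ≤ a) (hrb : r ≤ b) (ho : Only2 m r U a b κ i κ' i)
    (T : List (List ℕ)) (hT : TabOK T 12 12 11)
    (hfull : ∀ X < (12 : ℕ), ∀ Y < (12 : ℕ), ent T X Y ≠ 13)
    (h1 : Atom m r U a b (fun X Y => id (ent T X Y)) κ i)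
    (h2 : Atom m r U a b (fun X Y => id (ent T X Y)) κ' i) :
    Good m r U a b := by
  refine leaf_table g ha hb T hT id (fun x hx => ?_) (fun x y _ _ h => h) (fun X Y hR => ?_)
    (fun x hx h => ?_) (fun κ0 k hk hl => ?_)
  · show x ≤ 12
    omega
  · obtain ⟨hX, hY⟩ := Rg_PL hra hrb hR
    exact ⟨hX, hY, hfull X hX Y hY⟩
  · exfalso
    have : x = 12 := h
    omega
  · rcases ho κ0 k hk hl with ⟨e1, e2⟩ | ⟨e1, e2⟩
    · subst e1; subst e2; exact h1
    · subst e1; subst e2; exact h2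

theorem leaf_link {m r : ℕ} {U : ℕ → ℕ} (g : Gen m r U) {a b i : ℕ} {κ κ' : Kind} (ha : a < m)
    (hb : b < m) (hi : i < r) (hκ : κ = .dr ∨ κ = .ar) (hκ' : κ' = .dc ∨ κ' = .ac)
    (h1 : ln m U κ i a b) (h2 : ln m U κ' i a b) (ho : Only2 m r U a b κ i κ' i) :
    Good m r U a b := by
  have hra : r ≤ a := by
    by_contra h
    have h' : a < r := not_le.mp h
    have hl : ln m U .rw a a b := (ln_rw_iff (g.lt_m h') ha).mpr rfl
    rcases ho .rw a h' hl with ⟨e, _⟩ | ⟨e, _⟩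
    · rcases hκ with hk | hk <;> rw [hk] at e <;> exact absurd e (by decide)
    · rcases hκ' with hk | hk <;> rw [hk] at e <;> exact absurd e (by decide)
  have hrb : r ≤ b := by
    by_contra h
    have h' : b < r := not_le.mp h
    have hl : ln m U .cl b a b := (ln_cl_iff (g.lt_m h') hb).mpr rfl
    rcases ho .cl b h' hl with ⟨e, _⟩ | ⟨e, _⟩
    · rcases hκ with hk | hk <;> rw [hk] at e <;> exact absurd e (by decide)
    · rcases hκ' with hk | hk <;> rw [hk] at e <;> exact absurd e (by decide)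
  obtain ⟨hnu, hxi, hA, hB⟩ := NF_link g hi ha hb hκ hκ' h1 h2
  obtain ⟨s1, s2⟩ := sh_link g hi ha hb hκ hκ' h1 h2
  have hm := g.mpos
  rcases hκ with rfl | rfl <;> rcases hκ' with rfl | rfl
  · rw [if_neg (by decide)] at s1
    rw [if_pos (by decide)] at s2
    refine LLK_core g ha hb hra hrb ho tL1 tL1_ok tL1_full
      (LLK_dr hm hra hrb tL1 0 hnu hB (by rw [s1]; ring) (fun X hX Y hY => ?_))
      (LLK_dc hm hra hrb tL1 1 hxi hA (by rw [s2]; ring) (fun X hX Y hY => ?_))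
    · have h := (tL1_av X hX Y hY).1
      simpa [J] using h
    · have h := (tL1_av X hX Y hY).2
      simpa [J] using h
  · rw [if_pos (by decide)] at s1
    rw [if_neg (by decide)] at s2
    refine LLK_core g ha hb hra hrb ho tL2 tL2_ok tL2_full
      (LLK_dr hm hra hrb tL2 1 hnu hB (by rw [s1]; ring) (fun X hX Y hY => ?_))
      (LLK_ac hm hra hrb tL2 0 hxi hA (by rw [s2]; ring) (fun X hX Y hY => ?_))
    · have h := (tL2_av X hX Y hY).1
      simpa [J] using h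
    · have h := (tL2_av X hX Y hY).2
      simpa [J] using h
  · rw [if_neg (by decide)] at s1
    rw [if_neg (by decide)] at s2
    refine LLK_core g ha hb hra hrb ho tL3 tL3_ok tL3_full
      (LLK_ar hm hra hrb tL3 0 hnu hB (by rw [s1]; ring) (fun X hX Y hY => ?_))
      (LLK_dc hm hra hrb tL3 0 hxi hA (by rw [s2]; ring) (fun X hX Y hY => ?_))
    · have h := (tL3_av X hX Y hY).1
      simpa [J] using h
    · have h := (tL3_av X hX Y hY).2
      simpa [J] using h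
  · rw [if_neg (by decide)] at s1
    rw [if_neg (by decide)] at s2
    refine LLK_core g ha hb hra hrb ho tL4 tL4_ok tL4_full
      (LLK_ar hm hra hrb tL4 0 hnu hB (by rw [s1]; ring) (fun X hX Y hY => ?_))
      (LLK_ac hm hra hrb tL4 0 hxi hA (by rw [s2]; ring) (fun X hX Y hY => ?_))
    · have h := (tL4_av X hX Y hY).1
      simpa [J] using h
    · have h := (tL4_av X hX Y hY).2
      simpa [J] using h

end Pool.Agent.T501Q.D
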