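import Mathlib
import Pool.Agent.T501Q.D.Tab
import Pool.Agent.T501Q.D.AT
import Pool.Agent.T501Q.D.CLA
import Pool.Agent.T501Q.D.CLB
import Pool.Agent.T501Q.D.GT
import Pool.Agent.T501Q.D.NA
import Pool.Agent.T501Q.D.NFE
import Pool.Agent.T501Q.D.Rg
import Pool.Agent.T501Q.D.TA
import Pool.Agent.T501Q.D.TB

set_option autoImplicit false

namespace Pool.Agent.T501Q.D


theorem leaf_PQ {m r : ℕ} {U : ℕ → ℕ} (g : Gen m r U) {a b p q : ℕ} (ha : a < m) (hb : b < m)
    (hp : p < r) (hq : q < r) (h1 : ln m U .rw p a b) (h2 : ln m U .cl q a b)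
    (ho : Only2 m r U a b .rw p .cl q) : Good m r U a b := by
  have hap : a = p := (ln_rw_iff (g.lt_m hp) ha).1 h1
  have hbq : b = q := (ln_cl_iff (g.lt_m hq) hb).1 h2
  subst hap
  subst hbq
  have hreg : ∀ X Y, Rg m r (wU m U) a b X Y → X < 13 ∧ Y < 13 ∧ ent tPQ X Y ≠ 13 := by
    intro X Y hR
    obtain ⟨hX, hY, n1, n2, n3⟩ := Rg_PQ hp hq (small_not_W g hp hp hq) (small_not_W g hq hp hq) hR
    refine ⟨hX, hY, ?_⟩
    intro h13
    rcases (tPQ_for X hX Y hY).1 h13 with h | h | h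
    · exact n1 h
    · exact n2 h
    · exact n3 h
  obtain ⟨hnu, hxi⟩ := NF_PQ g hp hq
  refine leaf_table g ha hb tPQ tPQ_ok (fun x => x) (fun x hx => by omega)
    (fun x y _ _ h => h) hreg (fun x hx h => by omega) ?_
  intro κ i hi hln
  rcases ho κ i hi hln with ⟨hk, hi'⟩ | ⟨hk, hi'⟩
  · subst hk
    subst hi'
    intro _ t ht X Y hR hH
    obtain ⟨hX, hY, h13⟩ := hreg X Y hR
    have h3 : ent tPQ X Y = t := by
      have h4 := hnu t
      rw [h4] at hH
      exact hH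
    have h5 := tPQ_row X hX Y hY h13
    rw [h3] at h5
    exact h5
  · subst hk
    subst hi'
    intro _ t ht X Y hR hH
    obtain ⟨hX, hY, h13⟩ := hreg X Y hR
    have h3 : ent tPQ X Y = rinv t := by
      have h4 := hxi t
      rw [h4] at hH
      exact hH
    have h5 := tPQ_col X hX Y hY h13
    rw [h3, rho_rinv t ht] at h5
    exact h5

end Pool.Agent.T501Q.D

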