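import Mathlib
import Pool.Agent.T501Q.D.Tab
import Pool.Agent.T501Q.D.AT
import Pool.Agent.T501Q.D.CLA
import Pool.Agent.T501Q.D.CLB
import Pool.Agent.T501Q.D.GT
import Pool.Agent.T501Q.D.NA
import Pool.Agent.T501Q.D.NFB
import Pool.Agent.T501Q.D.Rg
import Pool.Agent.T501Q.D.SD
import Pool.Agent.T501Q.D.SE
import Pool.Agent.T501Q.D.SF
import Pool.Agent.T501Q.D.TA
import Pool.Agent.T501Q.D.TB

set_option autoImplicit false

namespace Pool.Agent.T501Q.D


theorem leaf_WC {m r : ℕ} {U : ℕ → ℕ} (g : Gen m r U) {a b q i : ℕ} (ha : a < m) (hb : b < m)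
    (hq : q < r) (hi : i < r) (hne : q ≠ i) (h1 : ln m U .cl q a b) (h2 : ln m U .w i a b)
    (ho : Only2 m r U a b .cl q .w i) : Good m r U a b := by
  have hbq : b = q := (ln_cl_iff (g.lt_m hq) hb).mp h1
  obtain ⟨hxq, hnu, hxi, hra⟩ := NF_WC g hq hi hne ha hb h1 h2
  have hbr : b < r := by omega
  have hnw : ¬ onW m (wU m U) b a b := by
    intro hw
    rw [hbq] at hw
    have hw' : ln m U .w q a b := by
      rw [hbq]
      exact ln_w_iff.mpr hw
    exact hne (par g hq hi hw' h2)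
  have hreg : ∀ X Y, Rg m r (wU m U) a b X Y → X < 12 ∧ Y < 13 ∧ ent tWC X Y ≠ 13 := by
    intro X Y h
    obtain ⟨hX, hY, hR⟩ := Rg_NC hra hbr hnw h
    exact ⟨hX, hY, fun h13 => hR ((tWC_for X hX Y hY).mp h13)⟩
  refine leaf_table g ha hb tWC tWC_ok (fun x => x) (fun x hx => hx) (fun x y _ _ h => h) hreg
    (fun x _ _ => ⟨i, hi, ln_w_iff.mp h2⟩) ?_
  intro κ k hk hln
  rcases ho κ k hk hln with ⟨h3, h4⟩ | ⟨h3, h4⟩
  · subst h3
    subst h4
    show ¬ onW m (wU m U) k (aI m (wU m U) k (lab m a b)) k →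
      ∀ t, t < 12 → ∀ X Y, Rg m r (wU m U) a b X Y → ent tWC X Y = xi m r U k (lab m a b) t →
        Y ≠ R t
    intro _ t ht X Y hR he
    obtain ⟨hX, hY, _⟩ := hreg X Y hR
    rw [hxq t] at he
    exact tWC_p t ht X hX Y hY he
  · subst h3
    subst h4
    show (¬ onW m (wU m U) k k (bI m (wU m U) k (lab m a b)) →
        ∀ t, t < 12 → ∀ X Y, Rg m r (wU m U) a b X Y → ent tWC X Y = nu m r U k (lab m a b) t →
          Y ≠ kk r b t) ∧
      (¬ onW m (wU m U) k (aI m (wU m U) k (lab m a b)) k →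
        ∀ t, t < 12 → ∀ X Y, Rg m r (wU m U) a b X Y → ent tWC X Y = xi m r U k (lab m a b) t →
          X ≠ kk r a t) ∧
      (∀ p q', p < r → q' < r → ∀ X Y, Rg m r (wU m U) a b X Y → ent tWC X Y = 12 →
        ¬ Att (m * X + a) (m * Y + b) (m * 6 + p) (m * 6 + q'))
    refine ⟨?_, ?_, ?_⟩
    · intro _ t ht X Y hR he
      obtain ⟨hX, hY, _⟩ := hreg X Y hR
      rw [hnu t] at he
      have hkk : kk r b t = kap t := by
        unfold kk
        rw [if_pos hbr]
      rw [hkk]
      exact tWC_n t ht X hX Y hY he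
    · intro _ t ht X Y hR he
      obtain ⟨hX, hY, _⟩ := hreg X Y hR
      rw [hxi t] at he
      have hkk : kk r a t = t := by
        unfold kk
        rw [if_neg (by omega)]
      rw [hkk]
      have h5 : ent tWC X Y < 12 := by
        rw [he]
        exact rinv_lt t ht
      have h6 := tWC_row X hX Y hY h5
      rw [he, rho_rinv t ht] at h6
      exact h6
    · intro p q' hp hq' X Y hR he hatt
      obtain ⟨hX, hY, _⟩ := hreg X Y hR
      have hpm : p < m := g.lt_m hp
      have hqm : q' < m := g.lt_m hq'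
      have hole := sh_hole g hi hp hq' ha hb (ln_w_iff.mp h2)
      rcases att_split ha hb hpm hqm hatt with h7 | h7 | ⟨s, h7, _⟩ | ⟨s, h7, _⟩
      · omega
      · exact tWC_inf X hX Y hY he h7.2
      · have := hole.1 s h7
        omega
      · have := hole.2 s h7
        omega

end Pool.Agent.T501Q.D

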