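import Mathlib
import Pool.Agent.T501Q.D.Tab
import Pool.Agent.T501Q.D.CLA
import Pool.Agent.T501Q.D.CLB
import Pool.Agent.T501Q.D.GT
import Pool.Agent.T501Q.D.L0
import Pool.Agent.T501Q.D.LCD
import Pool.Agent.T501Q.D.LD
import Pool.Agent.T501Q.D.LDC
import Pool.Agent.T501Q.D.LDD
import Pool.Agent.T501Q.D.LLK
import Pool.Agent.T501Q.D.LP
import Pool.Agent.T501Q.D.LPQ
import Pool.Agent.T501Q.D.LRD
import Pool.Agent.T501Q.D.LW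
import Pool.Agent.T501Q.D.LWC
import Pool.Agent.T501Q.D.LWD
import Pool.Agent.T501Q.D.LWR
import Pool.Agent.T501Q.D.TA
import Pool.Agent.T501Q.D.TB

set_option autoImplicit false

namespace Pool.Agent.T501Q.D


theorem GL_rk_inj {κ1 κ2 : Kind} (h : rk κ1 = rk κ2) : κ1 = κ2 := by
  cases κ1 <;> cases κ2 <;> simp_all [rk]

theorem GL_one {m r : ℕ} {U : ℕ → ℕ} (g : Gen m r U) {a b i : ℕ} {κ : Kind} (ha : a < m)
    (hb : b < m) (hi : i < r) (h1 : ln m U κ i a b) (ho : Only2 m r U a b κ i κ i) :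
    Good m r U a b := by
  by_cases hD : isD κ
  · by_cases hF : isFk κ
    · by_cases hlt : bI m (wU m U) i (lab m a b) < r
      · exact leaf_Dcen g ha hb hi hD h1 ho (fun _ => hlt) (fun h => absurd hF h)
      · exact leaf_Dreg g ha hb hi hD h1 ho (fun _ => not_lt.mp hlt) (fun h => absurd hF h)
    · by_cases hlt : aI m (wU m U) i (lab m a b) < r
      · exact leaf_Dcen g ha hb hi hD h1 ho (fun h => absurd h hF) (fun _ => hlt)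
      · exact leaf_Dreg g ha hb hi hD h1 ho (fun h => absurd h hF) (fun _ => not_lt.mp hlt)
  · cases κ
    · exact leaf_rw g ha hb hi h1 ho
    · exact leaf_cl g ha hb hi h1 ho
    · exact leaf_w g ha hb hi h1 ho
    all_goals exact absurd trivial hD

/-- both lines in the P set -/
theorem GL_P {m r : ℕ} {U : ℕ → ℕ} (g : Gen m r U) {a b i : ℕ} {κ1 κ2 : Kind} (ha : a < m)
    (hb : b < m) (hi : i < r) (h1 : ln m U κ1 i a b) (h2 : ln m U κ2 i a b) (n12 : κ1 ≠ κ2)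
    (hP1 : κ1 ≠ .cl ∧ κ1 ≠ .dc ∧ κ1 ≠ .ac) (hP2 : κ2 ≠ .cl ∧ κ2 ≠ .dc ∧ κ2 ≠ .ac)
    (ho : ∀ κ k, k < r → ln m U κ k a b → k = i ∧ κ ≠ .cl ∧ κ ≠ .dc ∧ κ ≠ .ac) :
    Good m r U a b := by
  obtain ⟨h3, h4, -, -⟩ := twoP g h1 h2 n12 hP1 hP2
  exact leaf_P g ha hb hi h3 h4 ho

/-- both lines in the Q set -/
theorem GL_Q {m r : ℕ} {U : ℕ → ℕ} (g : Gen m r U) {a b i : ℕ} {κ1 κ2 : Kind} (ha : a < m)
    (hb : b < m) (hi : i < r) (h1 : ln m U κ1 i a b) (h2 : ln m U κ2 i a b) (n12 : κ1 ≠ κ2)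
    (hP1 : κ1 ≠ .rw ∧ κ1 ≠ .dr ∧ κ1 ≠ .ar) (hP2 : κ2 ≠ .rw ∧ κ2 ≠ .dr ∧ κ2 ≠ .ar)
    (ho : ∀ κ k, k < r → ln m U κ k a b → k = i ∧ κ ≠ .rw ∧ κ ≠ .dr ∧ κ ≠ .ar) :
    Good m r U a b := by
  obtain ⟨h3, h4, -, -⟩ := twoQ g h1 h2 n12 hP1 hP2
  exact leaf_Q g ha hb hi h3 h4 ho

theorem GL_P2 {m r : ℕ} {U : ℕ → ℕ} (g : Gen m r U) {a b i : ℕ} {κ1 κ2 : Kind} (ha : a < m)
    (hb : b < m) (hi : i < r) (h1 : ln m U κ1 i a b) (h2 : ln m U κ2 i a b) (n12 : κ1 ≠ κ2)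
    (hP1 : κ1 ≠ .cl ∧ κ1 ≠ .dc ∧ κ1 ≠ .ac) (hP2 : κ2 ≠ .cl ∧ κ2 ≠ .dc ∧ κ2 ≠ .ac)
    (ho : Only2 m r U a b κ1 i κ2 i) :
    Good m r U a b := by
  refine GL_P g ha hb hi h1 h2 n12 hP1 hP2 ?_
  intro κ k hk hln
  rcases ho κ k hk hln with ⟨h3, h4⟩ | ⟨h3, h4⟩
  · subst h3; exact ⟨h4, hP1⟩
  · subst h3; exact ⟨h4, hP2⟩

theorem GL_Q2 {m r : ℕ} {U : ℕ → ℕ} (g : Gen m r U) {a b i : ℕ} {κ1 κ2 : Kind} (ha : a < m)
    (hb : b < m) (hi : i < r) (h1 : ln m U κ1 i a b) (h2 : ln m U κ2 i a b) (n12 : κ1 ≠ κ2)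
    (hP1 : κ1 ≠ .rw ∧ κ1 ≠ .dr ∧ κ1 ≠ .ar) (hP2 : κ2 ≠ .rw ∧ κ2 ≠ .dr ∧ κ2 ≠ .ar)
    (ho : Only2 m r U a b κ1 i κ2 i) :
    Good m r U a b := by
  refine GL_Q g ha hb hi h1 h2 n12 hP1 hP2 ?_
  intro κ k hk hln
  rcases ho κ k hk hln with ⟨h3, h4⟩ | ⟨h3, h4⟩
  · subst h3; exact ⟨h4, hP1⟩
  · subst h3; exact ⟨h4, hP2⟩

/-- exactly two lines, ordered by rank -/
theorem GL_two {m r : ℕ} {U : ℕ → ℕ} (g : Gen m r U) {a b i j : ℕ} {κ1 κ2 : Kind} (ha : a < m)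
    (hb : b < m) (hi : i < r) (hj : j < r) (h1 : ln m U κ1 i a b) (h2 : ln m U κ2 j a b)
    (hlt : rk κ1 < rk κ2) (ho : Only2 m r U a b κ1 i κ2 j) : Good m r U a b := by
  have n12 : κ1 ≠ κ2 := by
    rintro rfl
    exact lt_irrefl _ hlt
  -- the P case
  by_cases hP : i = j ∧ (κ1 ≠ .cl ∧ κ1 ≠ .dc ∧ κ1 ≠ .ac) ∧ (κ2 ≠ .cl ∧ κ2 ≠ .dc ∧ κ2 ≠ .ac)
  · obtain ⟨h3, h4, h5⟩ := hP
    subst h3
    exact GL_P2 g ha hb hi h1 h2 n12 h4 h5 ho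
  by_cases hQ : i = j ∧ (κ1 ≠ .rw ∧ κ1 ≠ .dr ∧ κ1 ≠ .ar) ∧ (κ2 ≠ .rw ∧ κ2 ≠ .dr ∧ κ2 ≠ .ar)
  · obtain ⟨h3, h4, h5⟩ := hQ
    subst h3
    exact GL_Q2 g ha hb hi h1 h2 n12 h4 h5 ho
  by_cases hD2 : isD κ2
  · by_cases hD1 : isD κ1
    · by_cases hij : i = j
      · subst hij
        refine leaf_link g ha hb hi ?_ ?_ h1 h2 ho
        · cases κ1 <;> cases κ2 <;> simp_all [rk, isD]
        · cases κ1 <;> cases κ2 <;> simp_all [rk, isD]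
      · exact leaf_DD g ha hb hi hj hij hD1 hD2 hlt h1 h2 ho
    · -- `κ1` is `rw`, `cl` or `w`
      have hc : κ1 = .rw ∨ κ1 = .cl ∨ κ1 = .w := by
        cases κ1 <;> simp_all [isD]
      rcases hc with rfl | rfl | rfl
      · refine leaf_rwD g ha hb hi hj hD2 ?_ h1 h2 ho
        intro hF hij
        apply hP
        refine ⟨hij, by decide, ?_⟩
        cases κ2 <;> simp_all [isFk]
      · refine leaf_clD g ha hb hi hj hD2 ?_ h1 h2 ho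
        intro hF hij
        apply hQ
        refine ⟨hij, by decide, ?_⟩
        cases κ2 <;> simp_all [isFk, isD]
      · refine leaf_WD g ha hb hi hj ?_ hD2 h1 h2 ho
        intro hij
        cases κ2
        · exact hD2
        · exact hD2
        · exact hD2
        · exact hP ⟨hij, by decide, by decide⟩
        · exact hP ⟨hij, by decide, by decide⟩
        · exact hQ ⟨hij, by decide, by decide⟩
        · exact hQ ⟨hij, by decide, by decide⟩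
  · have hc : (κ1 = .rw ∧ κ2 = .cl) ∨ (κ1 = .rw ∧ κ2 = .w) ∨ (κ1 = .cl ∧ κ2 = .w) := by
      cases κ1 <;> cases κ2 <;> simp_all [isD, rk]
    rcases hc with ⟨rfl, rfl⟩ | ⟨rfl, rfl⟩ | ⟨rfl, rfl⟩
    · exact leaf_PQ g ha hb hi hj h1 h2 ho
    · refine leaf_WR g ha hb hi hj ?_ h1 h2 ho
      intro hij
      exact hP ⟨hij, by decide, by decide⟩
    · refine leaf_WC g ha hb hi hj ?_ h1 h2 ho
      intro hij
      exact hQ ⟨hij, by decide, by decide⟩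

theorem GL_swap {m r : ℕ} {U : ℕ → ℕ} {a b i j : ℕ} {κ1 κ2 : Kind}
    (ho : Only2 m r U a b κ1 i κ2 j) : Only2 m r U a b κ2 j κ1 i :=
  fun κ k hk h => (ho κ k hk h).symm

theorem all_good {m r : ℕ} {U : ℕ → ℕ} (g : Gen m r U) {a b : ℕ} (ha : a < m) (hb : b < m) :
    Good m r U a b := by
  by_cases h0 : ∀ κ k, k < r → ¬ ln m U κ k a b
  · exact leaf0 g ha hb h0
  push Not at h0
  obtain ⟨κ1, i, hi, h1⟩ := h0
  by_cases ho1 : Only2 m r U a b κ1 i κ1 i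
  · exact GL_one g ha hb hi h1 ho1
  unfold Only2 at ho1
  push Not at ho1
  obtain ⟨κ2, j, hj, h2, hne, -⟩ := ho1
  have n12 : κ1 ≠ κ2 := by
    rintro rfl
    exact hne rfl (par g hj hi h2 h1)
  by_cases ho2 : Only2 m r U a b κ1 i κ2 j
  · rcases lt_trichotomy (rk κ1) (rk κ2) with hlt | heq | hgt
    · exact GL_two g ha hb hi hj h1 h2 hlt ho2
    · exact absurd (GL_rk_inj heq) n12
    · exact GL_two g ha hb hj hi h2 h1 hgt (GL_swap ho2)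
  unfold Only2 at ho2
  push Not at ho2
  obtain ⟨κ3, l, hl, h3, hne1, hne2⟩ := ho2
  have n13 : κ1 ≠ κ3 := by
    rintro rfl
    exact hne1 rfl (par g hl hi h3 h1)
  have n23 : κ2 ≠ κ3 := by
    rintro rfl
    exact hne2 rfl (par g hl hj h3 h2)
  obtain ⟨hij, hil, hc⟩ := three g hi hj hl h1 h2 h3 n12 n13 n23
  subst hij
  subst hil
  rcases hc with ⟨p1, p2, p3, p4, p5, p6, -⟩ | ⟨p1, p2, p3, p4, p5, p6, -⟩
  · refine GL_P g ha hb hi h1 h2 n12 ⟨p1, p2, p3⟩ ⟨p4, p5, p6⟩ ?_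
    intro κ k hk hln
    by_cases e1 : κ1 = κ
    · subst e1
      exact ⟨par g hk hi hln h1, p1, p2, p3⟩
    by_cases e2 : κ2 = κ
    · subst e2
      exact ⟨par g hk hi hln h2, p4, p5, p6⟩
    obtain ⟨-, hik, hc⟩ := three g hi hi hk h1 h2 hln n12 e1 e2
    refine ⟨hik.symm, ?_⟩
    rcases hc with hc | ⟨q1, q2, q3, q4, q5, q6, -⟩
    · exact hc.2.2.2.2.2.2
    · exfalso
      apply n12
      cases κ1 <;> cases κ2 <;> simp_all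
  · refine GL_Q g ha hb hi h1 h2 n12 ⟨p1, p2, p3⟩ ⟨p4, p5, p6⟩ ?_
    intro κ k hk hln
    by_cases e1 : κ1 = κ
    · subst e1
      exact ⟨par g hk hi hln h1, p1, p2, p3⟩
    by_cases e2 : κ2 = κ
    · subst e2
      exact ⟨par g hk hi hln h2, p4, p5, p6⟩
    obtain ⟨-, hik, hc⟩ := three g hi hi hk h1 h2 hln n12 e1 e2
    refine ⟨hik.symm, ?_⟩
    rcases hc with ⟨q1, q2, q3, q4, q5, q6, -⟩ | hc
    · exfalso
      apply n12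
      cases κ1 <;> cases κ2 <;> simp_all
    · exact hc.2.2.2.2.2.2

end Pool.Agent.T501Q.D
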